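import Pool.Agent.LibHLP.GcdCount

/-! The size of the coefficients of Phi. -/

set_option autoImplicit false

open Polynomial Pool.Agent.LibHLP

namespace LibHU

/-- product with a polynomial of degree at most `m` -/
theorem P1a_mul {P U : ℤ[X]} {m : ℕ} {B H : ℝ} (hB : 0 ≤ B) (hH : 0 ≤ H)
    (hU : U.natDegree ≤ m) (hP : ∀ i, |(P.coeff i : ℝ)| ≤ B) (hUc : ∀ i, |(U.coeff i : ℝ)| ≤ H)
    (i : ℕ) : |((U * P).coeff i : ℝ)| ≤ (m + 1) * H * B := by
  rw [coeff_mul, Int.cast_sum]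
  refine (Finset.abs_sum_le_sum_abs _ _).trans ?_
  rw [Finset.Nat.sum_antidiagonal_eq_sum_range_succ_mk]
  have h1 : ∀ b ∈ Finset.range i.succ, |((U.coeff b * P.coeff (i - b) : ℤ) : ℝ)| ≤
      if b ∈ Finset.range (m + 1) then H * B else 0 := by
    intro b _
    rw [Int.cast_mul, abs_mul]
    split_ifs with h
    · exact mul_le_mul (hUc b) (hP _) (abs_nonneg _) hH
    · rw [Finset.mem_range, not_lt] at h
      rw [coeff_eq_zero_of_natDegree_lt (by omega)]
      simp
  refine (Finset.sum_le_sum h1).trans ?_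
  rw [← Finset.sum_filter]
  rw [Finset.sum_const, nsmul_eq_mul]
  have h2 : ((Finset.range i.succ).filter (fun b => b ∈ Finset.range (m + 1))).card ≤ m + 1 := by
    calc _ ≤ (Finset.range (m + 1)).card := by
          apply Finset.card_le_card
          intro b hb
          exact (Finset.mem_filter.mp hb).2
      _ = m + 1 := Finset.card_range _
  have h3 : (((Finset.range i.succ).filter (fun b => b ∈ Finset.range (m + 1))).card : ℝ) ≤
      m + 1 := by exact_mod_cast h2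
  calc _ ≤ ((m : ℝ) + 1) * (H * B) := mul_le_mul_of_nonneg_right h3 (by positivity)
    _ = _ := by ring

theorem P1a_pow {U V : ℤ[X]} {m : ℕ} {H : ℝ} (hH : 0 ≤ H)
    (hU : U.natDegree ≤ m) (hV : V.natDegree ≤ m) (hUc : ∀ i, |(U.coeff i : ℝ)| ≤ H)
    (hVc : ∀ i, |(V.coeff i : ℝ)| ≤ H) (a b : ℕ) :
    ∀ i, |((U ^ a * V ^ b).coeff i : ℝ)| ≤ ((m + 1) * H) ^ (a + b) := by
  induction a with
  | zero =>
    induction b with
    | zero =>
      intro i
      simp only [pow_zero, mul_one, add_zero]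
      rw [coeff_one]
      split_ifs <;> simp
    | succ b ih =>
      intro i
      have h1 : U ^ 0 * V ^ (b + 1) = V * (U ^ 0 * V ^ b) := by ring
      rw [h1]
      refine (P1a_mul (by positivity) hH hV ih hVc i).trans (le_of_eq ?_)
      ring
  | succ a ih =>
    intro i
    have h1 : U ^ (a + 1) * V ^ b = U * (U ^ a * V ^ b) := by ring
    rw [h1]
    refine (P1a_mul (by positivity) hH hU ih hUc i).trans (le_of_eq ?_)
    ring

/-- The coefficients of `Phi`. -/
theorem Phi_coeff_le (n m : ℕ) (hn : 1 ≤ n) (k : ℕ → ℤ) (z₀ : ℤ) (U V : ℤ[X]) (H : ℝ) (hH : 1 ≤ H)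
    (hU : U.natDegree ≤ m) (hV : V.natDegree ≤ m) (hUc : ∀ i, |(U.coeff i : ℝ)| ≤ H)
    (hVc : ∀ i, |(V.coeff i : ℝ)| ≤ H) (hk : ∀ i < n, |(k i : ℝ)| ≤ H) (hz : |(z₀ : ℝ)| ≤ H)
    (i : ℕ) : |((Phi n k z₀ U V).coeff i : ℝ)| ≤ (n + 2) * (m + 1) ^ n * H ^ (n + 1) := by
  have hH0 : 0 ≤ H := by linarith
  set Q : ℝ := ((m + 1) * H) ^ n with hQ
  have hQ0 : 0 ≤ Q := by positivity
  rw [Phi, coeff_add, finsetSum_coeff, Int.cast_add, Int.cast_sum]
  have h1 : |∑ j ∈ Finset.range n, ((C (k j) * (U ^ (n - j) * V ^ j)).coeff i : ℝ)| ≤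
      n * (H * Q) := by
    refine (Finset.abs_sum_le_sum_abs _ _).trans ?_
    have : ∀ j ∈ Finset.range n, |((C (k j) * (U ^ (n - j) * V ^ j)).coeff i : ℝ)| ≤ H * Q := by
      intro j hj
      rw [Finset.mem_range] at hj
      rw [coeff_C_mul, Int.cast_mul, abs_mul]
      have h2 := P1a_pow hH0 hU hV hUc hVc (n - j) j i
      rw [Nat.sub_add_cancel hj.le] at h2
      exact mul_le_mul (hk j hj) h2 (abs_nonneg _) hH0
    refine (Finset.sum_le_sum this).trans ?_
    rw [Finset.sum_const, Finset.card_range, nsmul_eq_mul]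
  have hVn : ∀ i, |((V ^ n).coeff i : ℝ)| ≤ Q := by
    intro i
    have := P1a_pow hH0 hU hV hUc hVc 0 n i
    simpa using this
  have h3 : |(((C z₀ + X) * V ^ n).coeff i : ℝ)| ≤ H * Q + H * Q := by
    rw [add_mul, coeff_add, coeff_C_mul, Int.cast_add, Int.cast_mul]
    refine (abs_add_le _ _).trans ?_
    apply add_le_add
    · rw [abs_mul]
      exact mul_le_mul hz (hVn i) (abs_nonneg _) hH0
    · have h4 : Q ≤ H * Q := le_mul_of_one_le_left hQ0 hH
      cases i with
      | zero => simp; positivity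
      | succ i => rw [coeff_X_mul]; exact (hVn i).trans h4
  calc _ ≤ n * (H * Q) + (H * Q + H * Q) := (abs_add_le _ _).trans (add_le_add h1 h3)
    _ = _ := by rw [hQ, mul_pow]; ring

end LibHU
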