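import Pool.Agent.LibHLP.GcdCount

/-! The degenerate case of the second step. -/

set_option autoImplicit false

open Polynomial Pool.Agent.LibHLP

namespace LibHU

/-- `V(t) = b g`, `U(t) = a g`, `Phi(t) = g ^ n`. -/
theorem P1b_good {n : ℕ} {k : ℕ → ℤ} {z₀ : ℤ} {U V : ℤ[X]} {t : ℤ} (ht : t ∈ goodT n k z₀ U V) :
    ∃ a b g : ℤ, V.eval t = b * g ∧ U.eval t = a * g ∧ (Phi n k z₀ U V).eval t = g ^ n := by
  obtain ⟨a, b, hb, hab, h1, h2⟩ := ht
  have hdvd : b ∣ V.eval t := by
    have : b ∣ V.eval t * a := ⟨U.eval t, by rw [h1]; ring⟩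
    exact hab.symm.dvd_of_dvd_mul_right this
  obtain ⟨g, hg⟩ := hdvd
  have hU : U.eval t = a * g := by
    apply mul_right_cancel₀ hb
    rw [← h1, hg]; ring
  refine ⟨a, b, g, hg, hU, ?_⟩
  rw [eval_Phi, hU, hg]
  have h3 : ∑ i ∈ Finset.range n, k i * ((a * g) ^ (n - i) * (b * g) ^ i) +
      (z₀ + t) * (b * g) ^ n = g ^ n * (∑ i ∈ Finset.range n, k i * (a ^ (n - i) * b ^ i) +
        (z₀ + t) * b ^ n) := by
    rw [mul_add, Finset.mul_sum]
    congr 1
    · apply Finset.sum_congr rfl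
      intro i hi
      rw [Finset.mem_range] at hi
      have h4 : g ^ n = g ^ (n - i) * g ^ i := by rw [← pow_add]; congr 1; omega
      rw [h4, mul_pow, mul_pow]
      ring
    · rw [mul_pow]; ring
  rw [h3, h2, mul_one]

theorem P1b_card {P : ℤ[X]} (hP : P ≠ 0) {m : ℕ} (hm : P.natDegree ≤ m) {T : Finset ℤ}
    (hT : ∀ t ∈ T, P.eval t = 0) : T.card ≤ m := by
  have h1 : T ⊆ P.roots.toFinset := by
    intro t ht
    rw [Multiset.mem_toFinset, mem_roots hP]
    exact hT t ht
  calc T.card ≤ P.roots.toFinset.card := Finset.card_le_card h1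
    _ ≤ P.roots.card := Multiset.toFinset_card_le _
    _ ≤ P.natDegree := card_roots' P
    _ ≤ m := hm

/-- If `deg U ≤ deg V` then `deg Phi = n deg V + 1`. -/
theorem P1b_deg1 {n : ℕ} {k : ℕ → ℤ} {z₀ : ℤ} {U V : ℤ[X]} (hV : V ≠ 0)
    (hUV : U.natDegree ≤ V.natDegree) : (Phi n k z₀ U V).natDegree = 1 + n * V.natDegree := by
  rw [Phi]
  have h1 : (∑ i ∈ Finset.range n, C (k i) * (U ^ (n - i) * V ^ i)).natDegree ≤
      n * V.natDegree := by
    apply natDegree_sum_le_of_forall_le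
    intro i hi
    rw [Finset.mem_range] at hi
    refine (natDegree_term_le n i (k i) U V).trans ?_
    calc (n - i) * U.natDegree + i * V.natDegree ≤
        (n - i) * V.natDegree + i * V.natDegree := by gcongr
      _ = n * V.natDegree := by rw [← Nat.add_mul]; congr 1; omega
  rw [natDegree_add_eq_right_of_natDegree_lt, natDegree_last n z₀ hV]
  rw [natDegree_last n z₀ hV]
  omega

/-- If `deg V < deg U` then the leading term of `Phi` is `k₀ U ^ n`. -/
theorem P1b_deg2 {n : ℕ} (hn : 3 ≤ n) {k : ℕ → ℤ} {z₀ : ℤ} {U V : ℤ[X]} (hk : k 0 ≠ 0)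
    (hV : V ≠ 0) (hUV : V.natDegree < U.natDegree) :
    (Phi n k z₀ U V).natDegree = n * U.natDegree ∧
      (Phi n k z₀ U V).leadingCoeff = k 0 * U.leadingCoeff ^ n := by
  have hU : U ≠ 0 := by
    intro h; rw [h] at hUV; simp at hUV
  have hA : (C (k 0) * U ^ n).natDegree = n * U.natDegree := by
    rw [natDegree_C_mul hk, natDegree_pow]
  obtain ⟨n', rfl⟩ : ∃ n', n = n' + 1 := ⟨n - 1, by omega⟩
  have hsplit : Phi (n' + 1) k z₀ U V = C (k 0) * U ^ (n' + 1) +
      (∑ i ∈ Finset.range n', C (k (i + 1)) * (U ^ (n' + 1 - (i + 1)) * V ^ (i + 1)) +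
        (C z₀ + X) * V ^ (n' + 1)) := by
    rw [Phi, Finset.sum_range_succ']
    simp only [Nat.sub_zero, pow_zero, mul_one]
    ring
  have hB : (∑ i ∈ Finset.range n', C (k (i + 1)) * (U ^ (n' + 1 - (i + 1)) * V ^ (i + 1)) +
        (C z₀ + X) * V ^ (n' + 1)).natDegree < (C (k 0) * U ^ (n' + 1)).natDegree := by
    rw [hA]
    have h1 : (∑ i ∈ Finset.range n',
        C (k (i + 1)) * (U ^ (n' + 1 - (i + 1)) * V ^ (i + 1))).natDegree ≤
        (n' + 1) * U.natDegree - 1 := by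
      apply natDegree_sum_le_of_forall_le
      intro i hi
      rw [Finset.mem_range] at hi
      refine (natDegree_term_le (n' + 1) (i + 1) (k (i + 1)) U V).trans ?_
      have h2 : (i + 1) * V.natDegree ≤ (i + 1) * (U.natDegree - 1) :=
        Nat.mul_le_mul_left _ (by omega)
      have h3 : (n' + 1 - (i + 1)) * U.natDegree + (i + 1) * U.natDegree =
          (n' + 1) * U.natDegree := by
        rw [← Nat.add_mul]; congr 1; omega
      have h4 : (i + 1) * (U.natDegree - 1) + (i + 1) = (i + 1) * U.natDegree := by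
        obtain ⟨u, hu⟩ : ∃ u, U.natDegree = u + 1 := ⟨U.natDegree - 1, by omega⟩
        rw [hu]; simp; ring
      omega
    have h5 : ((C z₀ + X) * V ^ (n' + 1)).natDegree ≤ (n' + 1) * U.natDegree - 1 := by
      rw [natDegree_last _ z₀ hV]
      have h2 : (n' + 1) * V.natDegree ≤ (n' + 1) * (U.natDegree - 1) :=
        Nat.mul_le_mul_left _ (by omega)
      have h4 : (n' + 1) * (U.natDegree - 1) + (n' + 1) = (n' + 1) * U.natDegree := by
        obtain ⟨u, hu⟩ : ∃ u, U.natDegree = u + 1 := ⟨U.natDegree - 1, by omega⟩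
        rw [hu]; simp; ring
      omega
    have h6 := natDegree_add_le_of_degree_le h1 h5
    have h7 : 0 < (n' + 1) * U.natDegree := Nat.mul_pos (by omega) (by omega)
    omega
  constructor
  · rw [hsplit, natDegree_add_eq_left_of_natDegree_lt hB, hA]
  · rw [hsplit, leadingCoeff_add_of_degree_lt' (degree_lt_degree hB), leadingCoeff_mul,
      leadingCoeff_C, leadingCoeff_pow]

/-- If `Phi` is a constant times an `n`-th power then there are at most `m` good values. -/
theorem degenerate (n m : ℕ) (hn : n = 3 ∨ n = 4) (k : ℕ → ℤ) (z₀ : ℤ) (U V : ℤ[X])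
    (hk0 : ∀ e : ℤ, |e ^ n| ≠ |k 0|) (hU : U.natDegree ≤ m) (hV : V.natDegree ≤ m)
    (hUV : U ≠ 0 ∨ V ≠ 0)
    (hdeg : ∃ (c : ℚ) (W : ℚ[X]), (Phi n k z₀ U V).map (Int.castRingHom ℚ) = C c * W ^ n)
    (T : Finset ℤ) (hT : ∀ t ∈ T, t ∈ goodT n k z₀ U V) : T.card ≤ m := by
  have hn3 : 3 ≤ n := by omega
  have hinj : Function.Injective (Int.castRingHom ℚ) := (Int.castRingHom ℚ).injective_int
  by_cases hV0 : V = 0
  · have hU0 : U ≠ 0 := by
      rcases hUV with h | h
      · exact h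
      · exact absurd hV0 h
    apply P1b_card hU0 hU
    intro t ht
    obtain ⟨a, b, hb, -, h1, -⟩ := hT t ht
    rw [hV0, eval_zero, zero_mul] at h1
    exact (mul_eq_zero.mp h1.symm).resolve_right hb
  obtain ⟨c, W, hcW⟩ := hdeg
  have hk : k 0 ≠ 0 := by
    intro h
    apply hk0 0
    rw [h, zero_pow (by omega)]
  -- degrees
  have hmapdeg : ((Phi n k z₀ U V).map (Int.castRingHom ℚ)).natDegree =
      (Phi n k z₀ U V).natDegree := natDegree_map_eq_of_injective hinj _
  rcases le_or_gt U.natDegree V.natDegree with hle | hlt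
  · exfalso
    have h1 := P1b_deg1 (n := n) (k := k) (z₀ := z₀) hV0 hle
    have hc : c ≠ 0 := by
      intro h
      rw [h, C_0, zero_mul] at hcW
      rw [hcW, natDegree_zero, h1] at hmapdeg
      omega
    rw [hcW, natDegree_C_mul hc, natDegree_pow, h1] at hmapdeg
    have : n ∣ 1 := by
      rw [← Nat.dvd_add_left (Nat.dvd_mul_right n V.natDegree), ← hmapdeg]
      exact Nat.dvd_mul_right _ _
    have := Nat.le_of_dvd one_pos this
    omega
  · obtain ⟨h1, h2⟩ := P1b_deg2 (n := n) hn3 (z₀ := z₀) hk hV0 hlt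
    have hU0 : U ≠ 0 := by
      intro h; rw [h] at hlt; simp at hlt
    have hlc : (k 0 : ℚ) * (U.leadingCoeff : ℚ) ^ n = c * W.leadingCoeff ^ n := by
      have e1 : ((Phi n k z₀ U V).map (Int.castRingHom ℚ)).leadingCoeff =
          (Int.castRingHom ℚ) (Phi n k z₀ U V).leadingCoeff :=
        leadingCoeff_map_of_injective hinj _
      rw [hcW, leadingCoeff_mul, leadingCoeff_C, leadingCoeff_pow, h2] at e1
      rw [e1]; simp
    apply P1b_card hV0 hV
    intro t ht
    obtain ⟨a, b, g, e1, e2, e3⟩ := P1b_good (hT t ht)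
    by_cases hg : g = 0
    · rw [e1, hg, mul_zero]
    exfalso
    have h4 : (g : ℚ) ^ n = c * (W.eval (t : ℚ)) ^ n := by
      have e4 : ((Phi n k z₀ U V).map (Int.castRingHom ℚ)).eval (t : ℚ) =
          (((Phi n k z₀ U V).eval t : ℤ) : ℚ) := by
        have := eval_intCast_map (Int.castRingHom ℚ) (Phi n k z₀ U V) t
        simpa using this
      rw [hcW, e3, eval_mul, eval_C, eval_pow] at e4
      rw [e4]; push_cast; ring
    have hgQ : (g : ℚ) ≠ 0 := by exact_mod_cast hg
    have hW : W.eval (t : ℚ) ≠ 0 := by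
      intro h
      rw [h, zero_pow (by omega), mul_zero] at h4
      exact pow_ne_zero _ hgQ h4
    have hlU : (U.leadingCoeff : ℚ) ≠ 0 := by
      exact_mod_cast leadingCoeff_ne_zero.mpr hU0
    set q : ℚ := (g : ℚ) * W.leadingCoeff / (W.eval (t : ℚ) * U.leadingCoeff) with hq
    have hqk : q ^ n = (k 0 : ℚ) := by
      rw [hq, div_pow, mul_pow, mul_pow, h4]
      have hWn : W.eval (t : ℚ) ^ n ≠ 0 := pow_ne_zero _ hW
      have hUn : (U.leadingCoeff : ℚ) ^ n ≠ 0 := pow_ne_zero _ hlU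
      rw [div_eq_iff (mul_ne_zero hWn hUn)]
      calc c * W.eval (t : ℚ) ^ n * W.leadingCoeff ^ n
          = (c * W.leadingCoeff ^ n) * W.eval (t : ℚ) ^ n := by ring
        _ = ((k 0 : ℚ) * (U.leadingCoeff : ℚ) ^ n) * W.eval (t : ℚ) ^ n := by rw [hlc]
        _ = _ := by ring
    -- an integral rational is an integer
    have hint : IsIntegral ℤ q := by
      refine ⟨X ^ n - C (k 0), monic_X_pow_sub_C _ (by omega), ?_⟩
      rw [eval₂_sub, eval₂_pow, eval₂_X, eval₂_C, hqk]
      simp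
    obtain ⟨e, he⟩ := IsIntegrallyClosed.isIntegral_iff.mp hint
    apply hk0 e
    have h5 : ((e ^ n : ℤ) : ℚ) = ((k 0 : ℤ) : ℚ) := by
      rw [← hqk, ← he]; simp
    have h6 : e ^ n = k 0 := by exact_mod_cast h5
    rw [h6]

end LibHU
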