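import Pool.Agent.LibHU21.S7
import Pool.Agent.LibHU21.P1a
import Pool.Agent.LibHU21.P1b

/-! The second step, uniformly in the degree: few values of `t`. -/

set_option autoImplicit false

open Polynomial Pool.Agent.LibHLP

namespace LibHU

/-- The second step. -/
theorem power_count (n : ℕ) (hn : n = 3 ∨ n = 4) : ∃ N0 : ℝ, 1 < N0 ∧ ∀ N : ℝ, N0 ≤ N →
    ∀ (m : ℕ) (H : ℝ) (k : ℕ → ℤ) (z₀ : ℤ) (U V : ℤ[X]), 1 ≤ H → (∀ e : ℤ, |e ^ n| ≠ |k 0|) →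
    U.natDegree ≤ m → V.natDegree ≤ m → (∀ i, |(U.coeff i : ℝ)| ≤ H) →
    (∀ i, |(V.coeff i : ℝ)| ≤ H) → (U ≠ 0 ∨ V ≠ 0) → (∀ i < n, |(k i : ℝ)| ≤ H) →
    |(z₀ : ℝ)| ≤ H → (n : ℝ) * m + 1 ≤ N ^ (0.1 : ℝ) →
    ((n : ℝ) + 2) * (m + 1) ^ n * H ^ (n + 1) ≤ Real.exp (N ^ (0.1 : ℝ)) →
    ∀ T : Finset ℤ, (∀ t ∈ T, ∀ t' ∈ T, |((t - t' : ℤ) : ℝ)| ≤ N) →
    (∀ t ∈ T, t ∈ goodT n k z₀ U V) → (T.card : ℝ) ≤ m + N ^ (0.81 : ℝ) := by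
  obtain ⟨N0, hN0, h⟩ := superelliptic n hn
  refine ⟨N0, hN0, ?_⟩
  intro N hN m H k z₀ U V hH hk0 hU hV hUc hVc hUV hk hz hdeg hcoef T hTN hT
  have hNpos : 0 < N := by linarith
  have hN81 : 0 ≤ N ^ (0.81 : ℝ) := Real.rpow_nonneg hNpos.le _
  by_cases hd : ∃ (c : ℚ) (W : ℚ[X]), (Phi n k z₀ U V).map (Int.castRingHom ℚ) = C c * W ^ n
  · have h1 := degenerate n m hn k z₀ U V hk0 hU hV hUV hd T hT
    have h2 : (T.card : ℝ) ≤ m := by exact_mod_cast h1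
    linarith
  · have h1 := h N hN (Phi n k z₀ U V) ?_ ?_ hd T hTN ?_
    · have : (0 : ℝ) ≤ m := Nat.cast_nonneg m
      linarith
    · have h2 := natDegree_Phi_le n k z₀ hU hV
      have h3 : ((Phi n k z₀ U V).natDegree : ℝ) ≤ (n : ℝ) * m + 1 := by exact_mod_cast h2
      exact h3.trans hdeg
    · intro i
      exact (Phi_coeff_le n m (by omega) k z₀ U V H hH hU hV hUc hVc hk hz i).trans hcoef
    · intro t ht
      obtain ⟨a, b, g, -, -, h3⟩ := P1b_good (hT t ht)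
      exact ⟨g, h3⟩

end LibHU
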