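import Mathlib

/-! Parameters of the box principle, uniform version. -/

set_option autoImplicit false

namespace LibHU

private theorem A4_sum (R : ℤ) (n : ℕ) :
    1820 * ∑ l ∈ Finset.range n, (R - 910 * (l : ℤ)) ≤ (R + 455) ^ 2 := by
  have h : 2 * ∑ l ∈ Finset.range n, (R - 910 * (l : ℤ)) = 2 * n * R - 910 * n * (n - 1) := by
    induction n with
    | zero => simp
    | succ n ih =>
      rw [Finset.sum_range_succ, mul_add, ih]
      push_cast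
      ring
  nlinarith [sq_nonneg (910 * (n : ℤ) - (R + 455)), h]

private theorem A4_main (m ν v : ℤ) (hm : 1 ≤ m) (hν : 100001 ≤ ν) (hν' : ν ≤ 200200)
    (hv : 0 ≤ v) (hv' : v ≤ 344) :
    (600697 * m + 599 * v + 228542 - ν) ^ 2 + (300097 * m + 299 * v + 2 * ν - 271456) ^ 2
      + 249001 * 1820 * (m + 2) ≤ 249001 * 1820 * ((m + 1) * (1002 * m + v)) := by
  have h1 : 0 ≤ (ν - 100001) * (200200 - ν) := mul_nonneg (by linarith) (by linarith)
  have h2 : 0 ≤ (344 - v) * m := mul_nonneg (by linarith) (by linarith)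
  have h3 : 0 ≤ m * (ν - 100001) := mul_nonneg (by linarith) (by linarith)
  have h4 : 0 ≤ m * (200200 - ν) := mul_nonneg (by linarith) (by linarith)
  have h5 : 0 ≤ v * (344 - v) := mul_nonneg (by linarith) (by linarith)
  have h6 : 0 ≤ v * (ν - 100001) := mul_nonneg (by linarith) (by linarith)
  have h7 : 0 ≤ v * (200200 - ν) := mul_nonneg (by linarith) (by linarith)
  have h8 : 0 ≤ (m - 1) * (m - 1) := mul_self_nonneg _
  nlinarith [h1, h2, h3, h4, h5, h6, h7, h8]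

/-- The choice of the parameters of the box principle. -/
theorem arithU (k ϑ : ℕ) (hϑ : ϑ ≤ 344) : ∃ m n0 n1 : ℕ,
    1 ≤ m ∧ m ≤ k + 2 ∧ n0 ≤ 2 * m + 2 ∧ n1 ≤ 2 * m + 2 ∧
    100200 * m + 100 * ϑ ≤ 499 * k + 200200 ∧
    1003 * m + k + 2 + ϑ ≤ 910 * n0 ∧
    1003 * m + ϑ + 2 ≤ 910 * n1 + 2 * k + 1002 ∧
    (∀ l < n0, 910 * l < 1003 * m + k + 2 + ϑ) ∧
    (∀ l < n1, 910 * l + 2 * k + 1002 < 1003 * m + ϑ + 2) ∧
    ∑ l ∈ Finset.range n0, (1003 * m + k + 3 + ϑ - 910 * l)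
      + ∑ l ∈ Finset.range n1, (1003 * m + ϑ + 3 - (910 * l + 2 * k + 1002)) + (m + 1) + 1
      ≤ 1002 * m * (m + 1) + ϑ * (m + 1) := by
  obtain ⟨m, hm⟩ : ∃ m, m = (499 * k + 200200 - 100 * ϑ) / 100200 := ⟨_, rfl⟩
  obtain ⟨n0, hn0⟩ : ∃ n0, n0 = (1003 * m + k + 2 + ϑ + 909) / 910 := ⟨_, rfl⟩
  obtain ⟨n1, hn1⟩ : ∃ n1, n1 = (1003 * m + ϑ + 2 - (2 * k + 1002) + 909) / 910 := ⟨_, rfl⟩
  have hm1 : 100200 * m + 100 * ϑ ≤ 499 * k + 200200 := by omega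
  have hm2 : 499 * k + 100001 ≤ 100200 * m + 100 * ϑ := by omega
  have e0 : ∀ l < n0, 910 * l < 1003 * m + k + 2 + ϑ := by
    intro l hl
    omega
  have e1 : ∀ l < n1, 910 * l + 2 * k + 1002 < 1003 * m + ϑ + 2 := by
    intro l hl
    omega
  have hm3 : 1 ≤ m := by omega
  refine ⟨m, n0, n1, hm3, by omega, by omega, by omega, hm1, by omega, by omega, e0, e1, ?_⟩
  have c0 : ((∑ l ∈ Finset.range n0, (1003 * m + k + 3 + ϑ - 910 * l) : ℕ) : ℤ) =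
      ∑ l ∈ Finset.range n0, (((1003 * m + k + 3 + ϑ : ℕ) : ℤ) - 910 * (l : ℤ)) := by
    rw [Nat.cast_sum]
    refine Finset.sum_congr rfl fun l hl => ?_
    have := e0 l (Finset.mem_range.mp hl)
    rw [Nat.cast_sub (by omega)]
    push_cast
    ring
  have c1 : ((∑ l ∈ Finset.range n1, (1003 * m + ϑ + 3 - (910 * l + 2 * k + 1002)) : ℕ) : ℤ) =
      ∑ l ∈ Finset.range n1, ((((1003 * m + ϑ + 3 : ℕ) : ℤ) - (2 * k + 1002)) -
        910 * (l : ℤ)) := by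
    rw [Nat.cast_sum]
    refine Finset.sum_congr rfl fun l hl => ?_
    have := e1 l (Finset.mem_range.mp hl)
    rw [Nat.cast_sub (by omega)]
    push_cast
    ring
  have s0 := A4_sum ((1003 * m + k + 3 + ϑ : ℕ) : ℤ) n0
  have s1 := A4_sum ((((1003 * m + ϑ + 3 : ℕ) : ℤ) - (2 * k + 1002))) n1
  rw [← c0] at s0
  rw [← c1] at s1
  have hmain := A4_main m (100200 * m + 100 * ϑ - 499 * k) ϑ (by exact_mod_cast hm3) (by omega)
    (by omega) (by positivity) (by exact_mod_cast hϑ)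
  generalize (∑ l ∈ Finset.range n0, (1003 * m + k + 3 + ϑ - 910 * l) : ℕ) = S0 at s0 ⊢
  generalize (∑ l ∈ Finset.range n1, (1003 * m + ϑ + 3 - (910 * l + 2 * k + 1002)) : ℕ) = S1
    at s1 ⊢
  zify
  push_cast at s0 s1
  have h0 : 249001 * ((1003 * (m : ℤ) + k + 3 + ϑ + 455) ^ 2) =
      (600697 * (m : ℤ) + 599 * ϑ + 228542 - (100200 * m + 100 * ϑ - 499 * k)) ^ 2 := by ring
  have h1 : 249001 * ((1003 * (m : ℤ) + ϑ + 3 - (2 * k + 1002) + 455) ^ 2) =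
      (300097 * (m : ℤ) + 299 * ϑ + 2 * (100200 * m + 100 * ϑ - 499 * k) - 271456) ^ 2 := by ring
  rw [← h0, ← h1] at hmain
  have h4 : (1002 : ℤ) * m * (m + 1) + ϑ * (m + 1) = (m + 1) * (1002 * m + ϑ) := by ring
  rw [h4]
  linarith

end LibHU
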