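import Pool.Agent.LibHall43.A1
import Pool.Agent.LibHall43.A3
import Pool.Agent.LibHU21.A4

/-! The auxiliary polynomial, uniform version. -/

set_option autoImplicit false

open Polynomial LibHall

namespace LibHU

private theorem a5_ratio {n C : ℝ} (hC : 0 ≤ C) (hn : C + 1 ≤ n) {e : ℕ} (he : 1 ≤ e) :
    C * n ^ (e - 1) + 1 ≤ n ^ (e + 1) := by
  have hn1 : 1 ≤ n := by linarith
  have h1 : (1 : ℝ) ≤ n ^ (e - 1) := one_le_pow₀ hn1
  have h2 : n ^ e = n * n ^ (e - 1) := by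
    rw [← pow_succ']; congr 1; omega
  have h3 : C * n ^ (e - 1) + 1 ≤ n ^ e := by
    rw [h2]
    nlinarith
  exact h3.trans (pow_le_pow_right₀ hn1 (by omega))

private theorem a5_sum (m : ℕ) : ∑ i ∈ Finset.range (m + 1), 2004 * (m - i) = 1002 * m * (m + 1) := by
  have h1 := Finset.sum_range_reflect (fun j => 2004 * j) (m + 1)
  have h2 : ∑ i ∈ Finset.range (m + 1), 2004 * (m - i) = ∑ j ∈ Finset.range (m + 1), 2004 * j := by
    rw [← h1]
    exact Finset.sum_congr rfl fun i _ => by simp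
  rw [h2, ← Finset.mul_sum]
  have h3 := Finset.sum_range_id_mul_two (m + 1)
  simp only [Nat.add_sub_cancel] at h3
  have : 2004 * ∑ i ∈ Finset.range (m + 1), i = 1002 * ((∑ i ∈ Finset.range (m + 1), i) * 2) := by
    ring
  rw [this, h3]
  ring

/-- The counting inequality. -/
private theorem a5_count (n Θ ε W : ℝ) (k m n0 n1 v : ℕ) (hn : 1 < n) (hΘ : 0 < Θ) (hε : 0 < ε)
    (hW : 0 ≤ W) (hn2 : 2 ≤ n) (hbig : 2 * W / ε ≤ n ^ m)
    (hΘv : n ^ v ≤ max 1 Θ * n)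
    (h5 : ∀ l < n0, 910 * l < 1003 * m + k + 2 + v)
    (h6 : ∀ l < n1, 910 * l + 2 * k + 1002 < 1003 * m + v + 2)
    (h7 : ∑ l ∈ Finset.range n0, (1003 * m + k + 3 + v - 910 * l)
      + ∑ l ∈ Finset.range n1, (1003 * m + v + 3 - (910 * l + 2 * k + 1002)) + (m + 1) + 1
      ≤ 1002 * m * (m + 1) + v * (m + 1)) (hm : 1 ≤ m) (Hu Hw : ℕ → ℕ)
    (hHw : ∀ i, n ^ (1002 * (m - i)) * max 1 (1 / Θ) ≤ Hw i + 1)
    (hHu : ∀ i, n ^ (1002 * (m - i)) * max 1 Θ ≤ Hu i + 1) :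
    (∏ s : Fin n0 ⊕ Fin n1, ((Sum.elim (fun _ => W * n ^ v * (n ^ 1002) ^ m)
        (fun _ => W * n ^ v * (n ^ 1002) ^ (m - 1)) s : ℝ) /
      (Sum.elim (fun l : Fin n0 => ε * n ^ (910 * (l : ℕ)) / n ^ (k + 1))
        (fun l : Fin n1 => ε / 2 * n ^ (910 * (l : ℕ)) * n ^ (3 * k) / n ^ (k + 1)) s : ℝ) + 1)) <
      ∏ i : Fin (m + 1) ⊕ Fin (m + 1),
        (((Sum.elim (fun i : Fin (m + 1) => Hw i) (fun i : Fin (m + 1) => Hu i) i : ℕ) : ℝ) + 1) := by
  have hn0 : 0 < n := by linarith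
  -- left-hand side
  have hL0 : ∀ l : Fin n0, W * n ^ v * (n ^ 1002) ^ m / (ε * n ^ (910 * (l : ℕ)) / n ^ (k + 1)) + 1 ≤
      n ^ (1003 * m + k + 3 + v - 910 * (l : ℕ)) := by
    intro l
    have hl := h5 l l.2
    have e1 : W * n ^ v * (n ^ 1002) ^ m / (ε * n ^ (910 * (l : ℕ)) / n ^ (k + 1)) =
        W / ε / n ^ m * n ^ ((1003 * m + k + 2 + v - 910 * (l : ℕ)) - 1) := by
      have e2 : n ^ v * (n ^ 1002) ^ m * n ^ (k + 1) * n ^ m =
          n ^ ((1003 * m + k + 2 + v - 910 * (l : ℕ)) - 1) * n ^ (910 * (l : ℕ)) := by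
        rw [← pow_mul, ← pow_add, ← pow_add, ← pow_add, ← pow_add]
        refine congrArg (fun e => n ^ e) ?_
        omega
      rw [div_div_eq_mul_div, div_eq_iff (by positivity)]
      have e6 : W * n ^ v * (n ^ 1002) ^ m * n ^ (k + 1) =
            W * (n ^ v * (n ^ 1002) ^ m * n ^ (k + 1) * n ^ m) / n ^ m := by
        rw [eq_div_iff (by positivity)]
        generalize (n ^ 1002) ^ m = A0
        ring
      rw [e6, e2]
      generalize n ^ ((1003 * m + k + 2 + v - 910 * (l : ℕ)) - 1) = A1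
      generalize n ^ (910 * (l : ℕ)) = B1
      field_simp
    rw [e1]
    have h8 := a5_ratio (n := n) (C := W / ε / n ^ m) (by positivity) (by
      have h81 : W / ε ≤ 2 * W / ε := by
        apply div_le_div_of_nonneg_right _ hε.le
        linarith
      have h82 : W / ε / n ^ m ≤ 1 := by
        rw [div_le_one (by positivity)]
        linarith
      linarith) (e := 1003 * m + k + 2 + v - 910 * (l : ℕ)) (by omega)
    have e5 : 1003 * m + k + 2 + v - 910 * (l : ℕ) + 1 = 1003 * m + k + 3 + v - 910 * (l : ℕ) := by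
      omega
    rwa [e5] at h8
  have hL1 : ∀ l : Fin n1, W * n ^ v * (n ^ 1002) ^ (m - 1) /
      (ε / 2 * n ^ (910 * (l : ℕ)) * n ^ (3 * k) / n ^ (k + 1)) + 1 ≤
      n ^ (1003 * m + v + 3 - (910 * (l : ℕ) + 2 * k + 1002)) := by
    intro l
    have hl := h6 l l.2
    have e1 : W * n ^ v * (n ^ 1002) ^ (m - 1) /
        (ε / 2 * n ^ (910 * (l : ℕ)) * n ^ (3 * k) / n ^ (k + 1)) =
        2 * W / ε / n ^ m * n ^ ((1003 * m + v + 2 - (910 * (l : ℕ) + 2 * k + 1002)) - 1) := by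
      have e2 : n ^ v * (n ^ 1002) ^ (m - 1) * n ^ (k + 1) * n ^ m =
          n ^ ((1003 * m + v + 2 - (910 * (l : ℕ) + 2 * k + 1002)) - 1) *
            (n ^ (910 * (l : ℕ)) * n ^ (3 * k)) := by
        rw [← pow_mul, ← pow_add, ← pow_add, ← pow_add, ← pow_add, ← pow_add]
        refine congrArg (fun e => n ^ e) ?_
        omega
      rw [div_div_eq_mul_div, div_eq_iff (by positivity)]
      have e6 : W * n ^ v * (n ^ 1002) ^ (m - 1) * n ^ (k + 1) =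
            W * (n ^ v * (n ^ 1002) ^ (m - 1) * n ^ (k + 1) * n ^ m) / n ^ m := by
        rw [eq_div_iff (by positivity)]
        generalize (n ^ 1002) ^ (m - 1) = A0
        ring
      rw [e6, e2]
      generalize n ^ ((1003 * m + v + 2 - (910 * (l : ℕ) + 2 * k + 1002)) - 1) = A1
      generalize n ^ (910 * (l : ℕ)) = B1
      generalize n ^ (3 * k) = C1
      field_simp
    rw [e1]
    have h8 := a5_ratio (n := n) (C := 2 * W / ε / n ^ m) (by positivity) (by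
      have h82 : 2 * W / ε / n ^ m ≤ 1 := by
        rw [div_le_one (by positivity)]
        exact hbig
      linarith)
      (e := 1003 * m + v + 2 - (910 * (l : ℕ) + 2 * k + 1002)) (by omega)
    have e5 : 1003 * m + v + 2 - (910 * (l : ℕ) + 2 * k + 1002) + 1 =
      1003 * m + v + 3 - (910 * (l : ℕ) + 2 * k + 1002) := by
      omega
    rwa [e5] at h8
  have hL : (∏ s : Fin n0 ⊕ Fin n1, ((Sum.elim (fun _ => W * n ^ v * (n ^ 1002) ^ m)
        (fun _ => W * n ^ v * (n ^ 1002) ^ (m - 1)) s : ℝ) /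
      (Sum.elim (fun l : Fin n0 => ε * n ^ (910 * (l : ℕ)) / n ^ (k + 1))
        (fun l : Fin n1 => ε / 2 * n ^ (910 * (l : ℕ)) * n ^ (3 * k) / n ^ (k + 1)) s : ℝ) + 1)) ≤
      n ^ (∑ l ∈ Finset.range n0, (1003 * m + k + 3 + v - 910 * l)
      + ∑ l ∈ Finset.range n1, (1003 * m + v + 3 - (910 * l + 2 * k + 1002))) := by
    rw [Fintype.prod_sum_type]
    simp only [Sum.elim_inl, Sum.elim_inr]
    rw [pow_add n (∑ l ∈ Finset.range n0, (1003 * m + k + 3 + v - 910 * l))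
      (∑ l ∈ Finset.range n1, (1003 * m + v + 3 - (910 * l + 2 * k + 1002)))]
    apply mul_le_mul
    · rw [← Finset.prod_pow_eq_pow_sum, Finset.prod_range]
      exact Finset.prod_le_prod (fun l _ => by positivity) (fun l _ => hL0 l)
    · rw [← Finset.prod_pow_eq_pow_sum, Finset.prod_range]
      exact Finset.prod_le_prod (fun l _ => by positivity) (fun l _ => hL1 l)
    · exact Finset.prod_nonneg fun l _ => by positivity
    · positivity
  -- right-hand side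
  set μ := max 1 (1 / Θ) * max 1 Θ with hμ
  have hμ1 : max 1 Θ ≤ μ := by
    have : (1 : ℝ) ≤ max 1 (1 / Θ) := le_max_left _ _
    have h2 : (0 : ℝ) < max 1 Θ := lt_of_lt_of_le one_pos (le_max_left _ _)
    rw [hμ]
    nlinarith
  have hμ0 : 0 < μ := lt_of_lt_of_le (lt_of_lt_of_le one_pos (le_max_left _ _)) hμ1
  have hR : n ^ (1002 * m * (m + 1)) * μ ^ (m + 1) ≤ ∏ i : Fin (m + 1) ⊕ Fin (m + 1),
        (((Sum.elim (fun i : Fin (m + 1) => Hw i) (fun i : Fin (m + 1) => Hu i) i : ℕ) : ℝ) + 1) := by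
    rw [Fintype.prod_sum_type]
    simp only [Sum.elim_inl, Sum.elim_inr]
    rw [← Finset.prod_mul_distrib, ← a5_sum, ← Finset.prod_pow_eq_pow_sum, Finset.prod_range,
      show μ ^ (m + 1) = ∏ _i : Fin (m + 1), μ by simp, ← Finset.prod_mul_distrib]
    apply Finset.prod_le_prod
    · intro i _; positivity
    · intro i _
      have h8 := mul_le_mul (hHw i) (hHu i) (by positivity) (by positivity)
      refine le_trans (le_of_eq ?_) h8
      rw [hμ, show 2004 * (m - (i : ℕ)) = 1002 * (m - (i : ℕ)) + 1002 * (m - (i : ℕ)) by ring,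
        pow_add]
      ring
  refine lt_of_le_of_lt hL (lt_of_lt_of_le ?_ hR)
  have hpos : 0 < n ^ (m + 1) := by positivity
  refine lt_of_mul_lt_mul_right ?_ hpos.le
  have h9 : n ^ (v * (m + 1)) ≤ (μ * n) ^ (m + 1) := by
    rw [pow_mul]
    exact pow_le_pow_left₀ (by positivity) (hΘv.trans (mul_le_mul_of_nonneg_right hμ1 hn0.le)) _
  calc _ = n ^ (∑ l ∈ Finset.range n0, (1003 * m + k + 3 + v - 910 * l)
      + ∑ l ∈ Finset.range n1, (1003 * m + v + 3 - (910 * l + 2 * k + 1002)) + (m + 1)) := by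
        rw [pow_add _ _ (m + 1)]
    _ < n ^ (1002 * m * (m + 1) + v * (m + 1)) := pow_lt_pow_right₀ hn (by omega)
    _ = n ^ (1002 * m * (m + 1)) * n ^ (v * (m + 1)) := pow_add _ _ _
    _ ≤ n ^ (1002 * m * (m + 1)) * (μ * n) ^ (m + 1) := mul_le_mul_of_nonneg_left h9 (by positivity)
    _ = _ := by rw [mul_pow]; ring

/-- The final estimate. -/
private theorem a5_final (n Θ θ0 ε W t r : ℝ) (G : ℝ[X]) (u w : ℕ → ℝ) (k m n0 n1 v : ℕ)
    (hn : 1 < n) (hε : 0 < ε) (hW : 0 ≤ W) (hm : 1 ≤ m)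
    (hQ0 : ∀ l < n0, |(QQ m Θ θ0 G u w 0).coeff l| ≤ ε * n ^ (910 * l) / n ^ (k + 1))
    (hQ1 : ∀ l < n1, |(QQ m Θ θ0 G u w 1).coeff l| ≤
      ε / 2 * n ^ (910 * l) * n ^ (3 * k) / n ^ (k + 1))
    (hl1 : ∀ j ≤ m, l1 (QQ m Θ θ0 G u w j) ≤ W * n ^ v * (n ^ 1002) ^ (m - j))
    (h2 : 100200 * m + 100 * v ≤ 499 * k + 200200)
    (h3 : 1003 * m + k + 2 + v ≤ 910 * n0)
    (h4 : 1003 * m + v + 2 ≤ 910 * n1 + 2 * k + 1002)
    (hn0 : n0 ≤ 2 * m + 2) (hn1 : n1 ≤ 2 * m + 2)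
    (hε2 : ε * (2 * m + 2) ≤ 1 / 8) (hW1 : W ≤ n ^ (m + 1) / 16)
    (hW2 : (m + 1) * 2 ^ m * W ≤ n ^ (1 + k / 100) / 8)
    (ht : |t| * n ^ 910 ≤ 1) (hr : |r| * n ^ (3 * k) ≤ 2) :
    |∑ i ∈ Finset.range (m + 1),
      (r - G.eval t) ^ i * (w i * (Θ * (θ0 + t)) - u i)| * n ^ (k + 1) < 1 := by
  have hn00 : 0 < n := by linarith
  have hn1' : 1 ≤ n := hn.le
  rw [QQ_expand]
  set τ : ℝ := (n ^ 910)⁻¹ with hτ
  have hN910 : 0 < n ^ 910 := pow_pos hn00 _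
  have hτ0 : 0 < τ := inv_pos.mpr hN910
  have hτ1 : τ ≤ 1 := inv_le_one_of_one_le₀ (one_le_pow₀ hn1')
  have htτ : |t| ≤ τ := by
    rw [hτ, ← one_div, le_div_iff₀ hN910]
    exact ht
  have hNk : 0 < n ^ (k + 1) := pow_pos hn00 _
  have hN3k : 0 < n ^ (3 * k) := pow_pos hn00 _
  have hrr : |r| ≤ 2 / n ^ (3 * k) := by
    rw [le_div_iff₀ hN3k]
    exact hr
  have hnm : 0 < n ^ (m + 1) := pow_pos hn00 _
  have hnk : 0 < n ^ (1 + k / 100) := pow_pos hn00 _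
  have hWm : W / n ^ (m + 1) ≤ 1 / 16 := by
    rw [div_le_iff₀ hnm]
    linarith
  have hWn : ∀ c : ℝ, 0 ≤ c → c ≤ (m + 1) * 2 ^ m → c * (W / n ^ (1 + k / 100)) ≤ 1 / 8 := by
    intro c _ hc
    rw [← mul_div_assoc, div_le_iff₀ hnk]
    have := mul_le_mul_of_nonneg_right hc hW
    linarith
  have hτl : ∀ l : ℕ, n ^ (910 * l) * τ ^ l = 1 := by
    intro l
    rw [hτ, pow_mul, ← mul_pow, mul_inv_cancel₀ hN910.ne', one_pow]
  -- j = 0
  have hT0 : |(QQ m Θ θ0 G u w 0).eval t| * n ^ (k + 1) ≤ 1 / 4 := by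
    have h5 := eval_bound (QQ m Θ θ0 G u w 0) τ t hτ0.le hτ1 htτ n0
    have h6 : ∑ l ∈ Finset.range n0, |(QQ m Θ θ0 G u w 0).coeff l| * τ ^ l ≤
        n0 * (ε / n ^ (k + 1)) := by
      have : ∀ l ∈ Finset.range n0, |(QQ m Θ θ0 G u w 0).coeff l| * τ ^ l ≤ ε / n ^ (k + 1) := by
        intro l hl
        refine (mul_le_mul_of_nonneg_right (hQ0 l (Finset.mem_range.mp hl))
          (pow_pos hτ0 _).le).trans (le_of_eq ?_)
        rw [div_mul_eq_mul_div, mul_assoc, hτl, mul_one]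
      refine (Finset.sum_le_card_nsmul _ _ _ this).trans (le_of_eq ?_)
      rw [Finset.card_range, nsmul_eq_mul]
    have h7 : l1 (QQ m Θ θ0 G u w 0) * τ ^ n0 * n ^ (k + 1) ≤ W / n ^ (m + 1) := by
      have h8 := hl1 0 (by omega)
      rw [Nat.sub_zero] at h8
      have h9 : n ^ v * (n ^ 1002) ^ m * n ^ (k + 1) * n ^ (m + 1) ≤ n ^ (910 * n0) := by
        rw [← pow_mul, ← pow_add, ← pow_add, ← pow_add]
        exact pow_le_pow_right₀ hn1' (by omega)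
      have h10 : n ^ v * (n ^ 1002) ^ m * n ^ (k + 1) * τ ^ n0 ≤ 1 / n ^ (m + 1) := by
        rw [le_div_iff₀ hnm]
        calc n ^ v * (n ^ 1002) ^ m * n ^ (k + 1) * τ ^ n0 * n ^ (m + 1) =
            (n ^ v * (n ^ 1002) ^ m * n ^ (k + 1) * n ^ (m + 1)) * τ ^ n0 := by
              generalize (n ^ 1002) ^ m = A; ring
          _ ≤ n ^ (910 * n0) * τ ^ n0 := mul_le_mul_of_nonneg_right h9 (pow_pos hτ0 _).le
          _ = 1 := hτl n0
      calc l1 (QQ m Θ θ0 G u w 0) * τ ^ n0 * n ^ (k + 1) ≤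
          W * n ^ v * (n ^ 1002) ^ m * τ ^ n0 * n ^ (k + 1) := by
            apply mul_le_mul_of_nonneg_right _ hNk.le
            exact mul_le_mul_of_nonneg_right h8 (pow_pos hτ0 _).le
        _ = W * (n ^ v * (n ^ 1002) ^ m * n ^ (k + 1) * τ ^ n0) := by
            generalize (n ^ 1002) ^ m = A; ring
        _ ≤ W * (1 / n ^ (m + 1)) := mul_le_mul_of_nonneg_left h10 hW
        _ = W / n ^ (m + 1) := by rw [mul_one_div]
    have h11 : (n0 : ℝ) * (ε / n ^ (k + 1)) * n ^ (k + 1) ≤ 1 / 8 := by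
      have : (n0 : ℝ) * (ε / n ^ (k + 1)) * n ^ (k + 1) = ε * n0 := by field_simp
      rw [this]
      have h12 : (n0 : ℝ) ≤ 2 * m + 2 := by exact_mod_cast hn0
      nlinarith
    calc |(QQ m Θ θ0 G u w 0).eval t| * n ^ (k + 1) ≤
        (n0 * (ε / n ^ (k + 1)) + l1 (QQ m Θ θ0 G u w 0) * τ ^ n0) * n ^ (k + 1) :=
          mul_le_mul_of_nonneg_right (h5.trans (by linarith)) hNk.le
      _ = (n0 : ℝ) * (ε / n ^ (k + 1)) * n ^ (k + 1) +
          l1 (QQ m Θ θ0 G u w 0) * τ ^ n0 * n ^ (k + 1) := by ring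
      _ ≤ 1 / 4 := by linarith
  -- j = 1
  have hT1 : |r| * |(QQ m Θ θ0 G u w 1).eval t| * n ^ (k + 1) ≤ 1 / 4 := by
    have h5 := eval_bound (QQ m Θ θ0 G u w 1) τ t hτ0.le hτ1 htτ n1
    have h6 : ∑ l ∈ Finset.range n1, |(QQ m Θ θ0 G u w 1).coeff l| * τ ^ l ≤
        n1 * (ε / 2 * n ^ (3 * k) / n ^ (k + 1)) := by
      have : ∀ l ∈ Finset.range n1, |(QQ m Θ θ0 G u w 1).coeff l| * τ ^ l ≤
          ε / 2 * n ^ (3 * k) / n ^ (k + 1) := by
        intro l hl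
        refine (mul_le_mul_of_nonneg_right (hQ1 l (Finset.mem_range.mp hl))
          (pow_pos hτ0 _).le).trans (le_of_eq ?_)
        calc ε / 2 * n ^ (910 * l) * n ^ (3 * k) / n ^ (k + 1) * τ ^ l =
            ε / 2 * (n ^ (910 * l) * τ ^ l) * n ^ (3 * k) / n ^ (k + 1) := by
              generalize n ^ (910 * l) = A; ring
          _ = _ := by rw [hτl, mul_one]
      refine (Finset.sum_le_card_nsmul _ _ _ this).trans (le_of_eq ?_)
      rw [Finset.card_range, nsmul_eq_mul]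
    have h7 : l1 (QQ m Θ θ0 G u w 1) * τ ^ n1 * n ^ (k + 1) ≤
        n ^ (3 * k) * (W / n ^ (m + 1)) := by
      have h8 := hl1 1 hm
      have h9 : n ^ v * (n ^ 1002) ^ (m - 1) * n ^ (k + 1) * n ^ (m + 1) ≤
          n ^ (3 * k) * n ^ (910 * n1) := by
        rw [← pow_mul, ← pow_add, ← pow_add, ← pow_add, ← pow_add]
        exact pow_le_pow_right₀ hn1' (by omega)
      have h10 : n ^ v * (n ^ 1002) ^ (m - 1) * n ^ (k + 1) * τ ^ n1 ≤
          n ^ (3 * k) / n ^ (m + 1) := by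
        rw [le_div_iff₀ hnm]
        calc n ^ v * (n ^ 1002) ^ (m - 1) * n ^ (k + 1) * τ ^ n1 * n ^ (m + 1) =
            (n ^ v * (n ^ 1002) ^ (m - 1) * n ^ (k + 1) * n ^ (m + 1)) * τ ^ n1 := by
              generalize (n ^ 1002) ^ (m - 1) = A; ring
          _ ≤ n ^ (3 * k) * n ^ (910 * n1) * τ ^ n1 :=
              mul_le_mul_of_nonneg_right h9 (pow_pos hτ0 _).le
          _ = n ^ (3 * k) := by rw [mul_assoc, hτl n1, mul_one]
      calc l1 (QQ m Θ θ0 G u w 1) * τ ^ n1 * n ^ (k + 1) ≤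
          W * n ^ v * (n ^ 1002) ^ (m - 1) * τ ^ n1 * n ^ (k + 1) := by
            apply mul_le_mul_of_nonneg_right _ hNk.le
            exact mul_le_mul_of_nonneg_right h8 (pow_pos hτ0 _).le
        _ = W * (n ^ v * (n ^ 1002) ^ (m - 1) * n ^ (k + 1) * τ ^ n1) := by
            generalize (n ^ 1002) ^ (m - 1) = A; ring
        _ ≤ W * (n ^ (3 * k) / n ^ (m + 1)) := mul_le_mul_of_nonneg_left h10 hW
        _ = n ^ (3 * k) * (W / n ^ (m + 1)) := by
            generalize n ^ (3 * k) = A; ring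
    have h11 : (n1 : ℝ) * (ε / 2 * n ^ (3 * k) / n ^ (k + 1)) * n ^ (k + 1) ≤
        n ^ (3 * k) * (1 / 16) := by
      have : (n1 : ℝ) * (ε / 2 * n ^ (3 * k) / n ^ (k + 1)) * n ^ (k + 1) =
        n ^ (3 * k) * (ε * n1 / 2) := by
        generalize n ^ (3 * k) = A
        field_simp
      rw [this]
      apply mul_le_mul_of_nonneg_left _ hN3k.le
      have h12 : (n1 : ℝ) ≤ 2 * m + 2 := by exact_mod_cast hn1
      nlinarith
    have h14 : |(QQ m Θ θ0 G u w 1).eval t| * n ^ (k + 1) ≤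
        n ^ (3 * k) * (1 / 16 + W / n ^ (m + 1)) := by
      calc |(QQ m Θ θ0 G u w 1).eval t| * n ^ (k + 1) ≤
        (n1 * (ε / 2 * n ^ (3 * k) / n ^ (k + 1)) + l1 (QQ m Θ θ0 G u w 1) * τ ^ n1) *
            n ^ (k + 1) :=
          mul_le_mul_of_nonneg_right (h5.trans (by linarith)) hNk.le
      _ = (n1 : ℝ) * (ε / 2 * n ^ (3 * k) / n ^ (k + 1)) * n ^ (k + 1) +
          l1 (QQ m Θ θ0 G u w 1) * τ ^ n1 * n ^ (k + 1) := by
            generalize n ^ (3 * k) = A; ring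
      _ ≤ n ^ (3 * k) * (1 / 16) + n ^ (3 * k) * (W / n ^ (m + 1)) := by linarith
      _ = _ := by ring
    have h15 : |r| * |(QQ m Θ θ0 G u w 1).eval t| * n ^ (k + 1) ≤
        |r| * (n ^ (3 * k) * (1 / 16 + W / n ^ (m + 1))) := by
      rw [mul_assoc]
      exact mul_le_mul_of_nonneg_left h14 (abs_nonneg _)
    have h16 : |r| * (n ^ (3 * k) * (1 / 16 + W / n ^ (m + 1))) ≤ 2 * (1 / 16 + W / n ^ (m + 1)) := by
      rw [← mul_assoc]
      apply mul_le_mul_of_nonneg_right hr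
      positivity
    linarith
  -- j ≥ 2
  have hT2 : ∀ j : ℕ, j + 2 ≤ m → |r| ^ (j + 2) * |(QQ m Θ θ0 G u w (j + 2)).eval t| *
      n ^ (k + 1) ≤ 2 ^ m * (W / n ^ (1 + k / 100)) := by
    intro j hj
    have h5 := eval_bound (QQ m Θ θ0 G u w (j + 2)) 1 t zero_le_one le_rfl (htτ.trans hτ1) 0
    simp only [Finset.range_zero, Finset.sum_empty, pow_zero, mul_one, zero_add] at h5
    have h8 := h5.trans (hl1 (j + 2) hj)
    have h9 : n ^ v * (n ^ 1002) ^ (m - (j + 2)) * n ^ (k + 1) * n ^ (1 + k / 100) ≤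
        (n ^ (3 * k)) ^ (j + 2) := by
      rw [← pow_mul, ← pow_mul, ← pow_add, ← pow_add, ← pow_add]
      apply pow_le_pow_right₀ hn1'
      have h10 : 3 * k * (j + 2) = 3 * k * j + 6 * k := by ring
      rw [h10]
      have : 0 ≤ 3 * k * j := Nat.zero_le _
      omega
    have h10 : n ^ v * (n ^ 1002) ^ (m - (j + 2)) * n ^ (k + 1) ≤
        (n ^ (3 * k)) ^ (j + 2) / n ^ (1 + k / 100) := by
      rw [le_div_iff₀ hnk]
      exact h9
    calc |r| ^ (j + 2) * |(QQ m Θ θ0 G u w (j + 2)).eval t| * n ^ (k + 1) ≤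
        |r| ^ (j + 2) * (W * n ^ v * (n ^ 1002) ^ (m - (j + 2))) * n ^ (k + 1) := by
          apply mul_le_mul_of_nonneg_right _ hNk.le
          exact mul_le_mul_of_nonneg_left h8 (by positivity)
      _ = |r| ^ (j + 2) * (W * (n ^ v * (n ^ 1002) ^ (m - (j + 2)) * n ^ (k + 1))) := by
          generalize (n ^ 1002) ^ (m - (j + 2)) = A; ring
      _ ≤ |r| ^ (j + 2) * (W * ((n ^ (3 * k)) ^ (j + 2) / n ^ (1 + k / 100))) := by
          apply mul_le_mul_of_nonneg_left _ (by positivity)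
          exact mul_le_mul_of_nonneg_left h10 hW
      _ = (|r| * n ^ (3 * k)) ^ (j + 2) * (W / n ^ (1 + k / 100)) := by
          rw [mul_pow]
          generalize (n ^ (3 * k)) ^ (j + 2) = A
          generalize n ^ (1 + k / 100) = B
          ring
      _ ≤ 2 ^ (j + 2) * (W / n ^ (1 + k / 100)) := by
          apply mul_le_mul_of_nonneg_right _ (by positivity)
          exact pow_le_pow_left₀ (by positivity) hr _
      _ ≤ 2 ^ m * (W / n ^ (1 + k / 100)) := by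
          apply mul_le_mul_of_nonneg_right _ (by positivity)
          exact pow_le_pow_right₀ (by norm_num) hj
  -- total
  obtain ⟨m', rfl⟩ : ∃ m', m = m' + 1 := ⟨m - 1, by omega⟩
  have hsum : |∑ j ∈ Finset.range (m' + 1 + 1), r ^ j * (QQ (m' + 1) Θ θ0 G u w j).eval t| *
      n ^ (k + 1) ≤ ∑ j ∈ Finset.range (m' + 1 + 1),
        |r| ^ j * |(QQ (m' + 1) Θ θ0 G u w j).eval t| * n ^ (k + 1) := by
    rw [← Finset.sum_mul]
    apply mul_le_mul_of_nonneg_right _ hNk.le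
    refine (Finset.abs_sum_le_sum_abs _ _).trans (le_of_eq ?_)
    exact Finset.sum_congr rfl fun j _ => by rw [abs_mul, abs_pow]
  refine lt_of_le_of_lt hsum ?_
  rw [Finset.sum_range_succ', Finset.sum_range_succ']
  have hS : ∑ j ∈ Finset.range m', |r| ^ (j + 1 + 1) *
      |(QQ (m' + 1) Θ θ0 G u w (j + 1 + 1)).eval t| * n ^ (k + 1) ≤ 1 / 8 := by
    have : ∀ j ∈ Finset.range m', |r| ^ (j + 1 + 1) *
      |(QQ (m' + 1) Θ θ0 G u w (j + 1 + 1)).eval t| * n ^ (k + 1) ≤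
        2 ^ (m' + 1) * (W / n ^ (1 + k / 100)) := by
      intro j hj
      have := Finset.mem_range.mp hj
      exact hT2 j (by omega)
    refine (Finset.sum_le_card_nsmul _ _ _ this).trans ?_
    rw [Finset.card_range, nsmul_eq_mul, ← mul_assoc]
    apply hWn _ (by positivity)
    push_cast
    apply mul_le_mul_of_nonneg_right _ (by positivity)
    linarith
  simp only [zero_add, pow_one, pow_zero, one_mul]
  linarith

private theorem a5_pow1 (m : ℕ) : (96 : ℝ) * ((m : ℝ) + 1) ^ 2 * 2 ^ m ≤ 10000 ^ (m + 1) := by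
  induction m with
  | zero => norm_num
  | succ m ih =>
    push_cast
    have hm : (0 : ℝ) ≤ m := Nat.cast_nonneg m
    have h1 : ((m : ℝ) + 1 + 1) ^ 2 ≤ 4 * ((m : ℝ) + 1) ^ 2 := by nlinarith
    have h2 : (0 : ℝ) < 2 ^ m := by positivity
    calc (96 : ℝ) * ((m : ℝ) + 1 + 1) ^ 2 * 2 ^ (m + 1)
        ≤ 96 * (4 * ((m : ℝ) + 1) ^ 2) * 2 ^ (m + 1) := by
          apply mul_le_mul_of_nonneg_right _ (by positivity)
          linarith
      _ = 8 * (96 * ((m : ℝ) + 1) ^ 2 * 2 ^ m) := by ring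
      _ ≤ 8 * 10000 ^ (m + 1) := by linarith
      _ ≤ 10000 * 10000 ^ (m + 1) := by
          apply mul_le_mul_of_nonneg_right _ (by positivity)
          norm_num
      _ = 10000 ^ (m + 1 + 1) := by ring

private theorem a5_pow1' (m : ℕ) (hm : 1 ≤ m) :
    (96 : ℝ) * ((m : ℝ) + 1) ^ 2 * 2 ^ m ≤ 10000 ^ m := by
  induction m, hm using Nat.le_induction with
  | base => norm_num
  | succ m hm ih =>
    push_cast
    have hm : (0 : ℝ) ≤ m := Nat.cast_nonneg m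
    have h1 : ((m : ℝ) + 1 + 1) ^ 2 ≤ 4 * ((m : ℝ) + 1) ^ 2 := by nlinarith
    calc (96 : ℝ) * ((m : ℝ) + 1 + 1) ^ 2 * 2 ^ (m + 1)
        ≤ 96 * (4 * ((m : ℝ) + 1) ^ 2) * 2 ^ (m + 1) := by
          apply mul_le_mul_of_nonneg_right _ (by positivity)
          linarith
      _ = 8 * (96 * ((m : ℝ) + 1) ^ 2 * 2 ^ m) := by ring
      _ ≤ 8 * 10000 ^ m := by linarith
      _ ≤ 10000 * 10000 ^ m := by
          apply mul_le_mul_of_nonneg_right _ (by positivity)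
          norm_num
      _ = 10000 ^ (m + 1) := by ring

private theorem a5_pow2 (s : ℕ) : ∀ m ≤ s + 2, (24 : ℝ) * ((m : ℝ) + 1) ^ 2 * 4 ^ m ≤
    10000 ^ (1 + s) := by
  have key : (24 : ℝ) * ((s : ℝ) + 3) ^ 2 * 4 ^ (s + 2) ≤ 10000 ^ (1 + s) := by
    induction s with
    | zero => norm_num
    | succ s ih =>
      push_cast
      have hs : (0 : ℝ) ≤ s := Nat.cast_nonneg s
      have h1 : ((s : ℝ) + 1 + 3) ^ 2 ≤ 4 * ((s : ℝ) + 3) ^ 2 := by nlinarith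
      calc (24 : ℝ) * ((s : ℝ) + 1 + 3) ^ 2 * 4 ^ (s + 1 + 2)
          ≤ 24 * (4 * ((s : ℝ) + 3) ^ 2) * 4 ^ (s + 1 + 2) := by
            apply mul_le_mul_of_nonneg_right _ (by positivity)
            linarith
        _ = 16 * (24 * ((s : ℝ) + 3) ^ 2 * 4 ^ (s + 2)) := by ring
        _ ≤ 16 * 10000 ^ (1 + s) := by linarith
        _ ≤ 10000 * 10000 ^ (1 + s) := by
            apply mul_le_mul_of_nonneg_right _ (by positivity)
            norm_num
        _ = 10000 ^ (1 + (s + 1)) := by ring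
  intro m hm
  refine le_trans ?_ key
  have h1 : (m : ℝ) ≤ s + 2 := by exact_mod_cast hm
  have hm0 : (0 : ℝ) ≤ m := Nat.cast_nonneg m
  apply mul_le_mul
  · apply mul_le_mul_of_nonneg_left _ (by norm_num)
    apply pow_le_pow_left₀ (by linarith)
    linarith
  · exact pow_le_pow_right₀ (by norm_num) hm
  · positivity
  · positivity

/-- The auxiliary polynomial, uniformly in `k`. -/
theorem aux_polyU (n : ℝ) (hn : 10000 ≤ n) (k : ℕ) (Θ : ℝ) (hΘ : 0 < Θ)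
    (hΘ1 : Θ ≤ n ^ 344) (hΘ2 : 1 ≤ Θ * n ^ 1000) (G : ℝ[X]) (hG : l1 G ≤ n ^ 1002)
    (θ0 : ℝ) (hθ0 : |θ0| ≤ 1) :
    ∃ (m : ℕ) (u w : ℕ → ℤ), m ≤ k + 2 ∧ (∃ i ≤ m, u i ≠ 0 ∨ w i ≠ 0) ∧
      (∀ i ≤ m, |(u i : ℝ)| ≤ n ^ (1002 * m + 1000) ∧ |(w i : ℝ)| ≤ n ^ (1002 * m + 1000)) ∧
      ∀ t r : ℝ, |t| * n ^ 910 ≤ 1 → |r| * n ^ (3 * k) ≤ 2 →
        |∑ i ∈ Finset.range (m + 1),
          (r - G.eval t) ^ i * ((w i : ℝ) * (Θ * (θ0 + t)) - (u i : ℝ))| * n ^ (k + 1) < 1 := by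
  have hn1 : 1 < n := by linarith
  have hn1' : 1 ≤ n := hn1.le
  have hn0 : 0 < n := by linarith
  have hex : ∃ v, Θ ≤ n ^ v := ⟨344, hΘ1⟩
  classical
  obtain ⟨v, hv⟩ : ∃ v, v = Nat.find hex := ⟨_, rfl⟩
  have hv344 : v ≤ 344 := by rw [hv]; exact Nat.find_min' hex hΘ1
  have hvΘ : Θ ≤ n ^ v := by rw [hv]; exact Nat.find_spec hex
  have hmaxv : max 1 Θ ≤ n ^ v := max_le (one_le_pow₀ hn1') hvΘ
  have hmax1 : (1 : ℝ) ≤ max 1 Θ := le_max_left _ _
  have hΘv : n ^ v ≤ max 1 Θ * n := by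
    rcases Nat.eq_zero_or_pos v with h0 | h0
    · rw [h0, pow_zero]; nlinarith
    · obtain ⟨v', hv'⟩ : ∃ v', v = v' + 1 := ⟨v - 1, by omega⟩
      have h1 : ¬ Θ ≤ n ^ v' := Nat.find_min hex (by rw [← hv]; omega)
      rw [hv', pow_succ]
      apply mul_le_mul_of_nonneg_right _ hn0.le
      exact (not_le.mp h1).le.trans (le_max_right _ _)
  obtain ⟨m, n0, n1, hm1, hm2, hn0k, hn1k, ha2, ha3, ha4, ha5, ha6, ha7⟩ := arithU k v hv344
  obtain ⟨Hw, hHw⟩ : ∃ Hw : ℕ → ℕ, Hw = fun i => ⌊n ^ (1002 * (m - i)) * max 1 (1 / Θ)⌋₊ :=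
    ⟨_, rfl⟩
  obtain ⟨Hu, hHu⟩ : ∃ Hu : ℕ → ℕ, Hu = fun i => ⌊n ^ (1002 * (m - i)) * max 1 Θ⌋₊ := ⟨_, rfl⟩
  obtain ⟨W, hW⟩ : ∃ W : ℝ, W = 3 * ((m : ℝ) + 1) * 2 ^ m := ⟨_, rfl⟩
  obtain ⟨ε, hε⟩ : ∃ ε : ℝ, ε = 1 / (16 * ((m : ℝ) + 1)) := ⟨_, rfl⟩
  have hW0 : 0 ≤ W := by rw [hW]; positivity
  have hε0 : 0 < ε := by rw [hε]; positivity
  have hm0 : (0 : ℝ) ≤ m := Nat.cast_nonneg m
  have hbig : 2 * W / ε ≤ n ^ m := by
    have h1 : 2 * W / ε = 96 * ((m : ℝ) + 1) ^ 2 * 2 ^ m := by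
      rw [hW, hε]
      field_simp
      ring
    rw [h1]
    exact (a5_pow1' m hm1).trans (pow_le_pow_left₀ (by norm_num) hn _)
  have hW1 : W ≤ n ^ (m + 1) / 16 := by
    have h1 := (a5_pow1 m).trans (pow_le_pow_left₀ (by norm_num) hn (m + 1))
    have h2 : (0 : ℝ) < 2 ^ m := by positivity
    have h3 : 16 * W ≤ 96 * ((m : ℝ) + 1) ^ 2 * 2 ^ m := by
      have h4 : 16 * W = (48 * ((m : ℝ) + 1)) * 2 ^ m := by rw [hW]; ring
      rw [h4]
      apply mul_le_mul_of_nonneg_right _ h2.le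
      nlinarith
    linarith
  have hW2 : (m + 1) * 2 ^ m * W ≤ n ^ (1 + k / 100) / 8 := by
    have h1 := (a5_pow2 (k / 100) m (by omega)).trans
      (pow_le_pow_left₀ (by norm_num) hn (1 + k / 100))
    have h2 : 8 * (((m : ℝ) + 1) * 2 ^ m * W) = 24 * ((m : ℝ) + 1) ^ 2 * 4 ^ m := by
      rw [hW, show (4 : ℝ) = 2 * 2 by norm_num, mul_pow]; ring
    linarith
  have hε2 : ε * (2 * m + 2) ≤ 1 / 8 := by
    have h1 : ε * (2 * m + 2) = 1 / 8 := by
      rw [hε]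
      field_simp
      ring
    exact h1.le
  have hZ1 : (1 : ℝ) ≤ n ^ 1002 := one_le_pow₀ hn1'
  have hpowi : ∀ i : ℕ, n ^ (1002 * (m - i)) = (n ^ 1002) ^ (m - i) := fun i => pow_mul _ _ _
  have hHw1 : ∀ i, (Hw i : ℝ) ≤ n ^ (1002 * (m - i)) * max 1 (1 / Θ) := by
    intro i
    rw [hHw]
    exact Nat.floor_le (by positivity)
  have hHu1 : ∀ i, (Hu i : ℝ) ≤ n ^ (1002 * (m - i)) * max 1 Θ := by
    intro i
    rw [hHu]
    exact Nat.floor_le (by positivity)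
  have hHw2 : ∀ i, n ^ (1002 * (m - i)) * max 1 (1 / Θ) ≤ Hw i + 1 := by
    intro i
    rw [hHw]
    exact (Nat.lt_floor_add_one _).le
  have hHu2 : ∀ i, n ^ (1002 * (m - i)) * max 1 Θ ≤ Hu i + 1 := by
    intro i
    rw [hHu]
    exact (Nat.lt_floor_add_one _).le
  have hHwΘ : ∀ i, (Hw i : ℝ) * Θ ≤ n ^ v * (n ^ 1002) ^ (m - i) := by
    intro i
    have h1 : max 1 (1 / Θ) * Θ = max 1 Θ := by
      rw [max_mul_of_nonneg _ _ hΘ.le, one_mul, one_div, inv_mul_cancel₀ hΘ.ne', max_comm]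
    calc (Hw i : ℝ) * Θ ≤ n ^ (1002 * (m - i)) * max 1 (1 / Θ) * Θ :=
          mul_le_mul_of_nonneg_right (hHw1 i) hΘ.le
      _ = n ^ (1002 * (m - i)) * max 1 Θ := by rw [mul_assoc, h1]
      _ ≤ n ^ (1002 * (m - i)) * n ^ v := mul_le_mul_of_nonneg_left hmaxv (by positivity)
      _ = _ := by rw [hpowi, mul_comm]
  have hHuv : ∀ i, (Hu i : ℝ) ≤ n ^ v * (n ^ 1002) ^ (m - i) := by
    intro i
    calc (Hu i : ℝ) ≤ n ^ (1002 * (m - i)) * max 1 Θ := hHu1 i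
      _ ≤ n ^ (1002 * (m - i)) * n ^ v := mul_le_mul_of_nonneg_left hmaxv (by positivity)
      _ = _ := by rw [hpowi, mul_comm]
  -- the box principle
  obtain ⟨x, hx0, hxH, hxω⟩ := box_principle
    (ι := Fin (m + 1) ⊕ Fin (m + 1)) (κ := Fin n0 ⊕ Fin n1)
    (Sum.elim
      (fun l => Sum.elim
        (fun i => (QQ m Θ θ0 G 0 (Pi.single (i : ℕ) 1) 0).coeff l)
        (fun i => (QQ m Θ θ0 G (Pi.single (i : ℕ) 1) 0 0).coeff l))
      (fun l => Sum.elim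
        (fun i => (QQ m Θ θ0 G 0 (Pi.single (i : ℕ) 1) 1).coeff l)
        (fun i => (QQ m Θ θ0 G (Pi.single (i : ℕ) 1) 0 1).coeff l)))
    (Sum.elim (fun i : Fin (m + 1) => Hw i) (fun i : Fin (m + 1) => Hu i))
    (Sum.elim (fun _ => W * n ^ v * (n ^ 1002) ^ m)
        (fun _ => W * n ^ v * (n ^ 1002) ^ (m - 1)))
    (Sum.elim (fun l : Fin n0 => ε * n ^ (910 * (l : ℕ)) / n ^ (k + 1))
        (fun l : Fin n1 => ε / 2 * n ^ (910 * (l : ℕ)) * n ^ (3 * k) / n ^ (k + 1)))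
    (by
      intro s
      cases s with
      | inl l => simp only [Sum.elim_inl]; positivity
      | inr l => simp only [Sum.elim_inr]; positivity)
    (by
      intro s
      cases s with
      | inl l =>
        have h1 := QQ_form_bound m Θ θ0 (n ^ v) (n ^ 1002) G hΘ hθ0 (by positivity) hZ1 hG Hu Hw
          (fun i _ => hHwΘ i) (fun i _ => hHuv i) 0 l (by omega)
        rw [Nat.sub_zero, Finset.sum_range, Finset.sum_add_distrib, ← hW] at h1
        rw [Fintype.sum_sum_type]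
        simpa only [Sum.elim_inl, Sum.elim_inr] using h1
      | inr l =>
        have h1 := QQ_form_bound m Θ θ0 (n ^ v) (n ^ 1002) G hΘ hθ0 (by positivity) hZ1 hG Hu Hw
          (fun i _ => hHwΘ i) (fun i _ => hHuv i) 1 l (by omega)
        rw [Finset.sum_range, Finset.sum_add_distrib, ← hW] at h1
        rw [Fintype.sum_sum_type]
        simpa only [Sum.elim_inl, Sum.elim_inr] using h1)
    (a5_count n Θ ε W k m n0 n1 v hn1 hΘ hε0 hW0 (by linarith) hbig hΘv ha5 ha6 ha7 hm1 Hu Hw hHw2 hHu2)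
  obtain ⟨w, hw⟩ : ∃ w : ℕ → ℤ, w = fun i => if h : i < m + 1 then x (Sum.inl ⟨i, h⟩) else 0 :=
    ⟨_, rfl⟩
  obtain ⟨u, hu⟩ : ∃ u : ℕ → ℤ, u = fun i => if h : i < m + 1 then x (Sum.inr ⟨i, h⟩) else 0 :=
    ⟨_, rfl⟩
  have hwx : ∀ i : Fin (m + 1), w i = x (Sum.inl i) := by
    intro i
    rw [hw]
    simp [i.2]
  have hux : ∀ i : Fin (m + 1), u i = x (Sum.inr i) := by
    intro i
    rw [hu]
    simp [i.2]
  have hwH : ∀ i ≤ m, |(w i : ℝ)| ≤ Hw i := by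
    intro i hi
    have h1 := hxH (Sum.inl ⟨i, by omega⟩)
    rw [← hwx ⟨i, by omega⟩] at h1
    simp only [Sum.elim_inl] at h1
    exact_mod_cast h1
  have huH : ∀ i ≤ m, |(u i : ℝ)| ≤ Hu i := by
    intro i hi
    have h1 := hxH (Sum.inr ⟨i, by omega⟩)
    rw [← hux ⟨i, by omega⟩] at h1
    simp only [Sum.elim_inr] at h1
    exact_mod_cast h1
  have hQl1 : ∀ j ≤ m, l1 (QQ m Θ θ0 G (fun i => (u i : ℝ)) (fun i => (w i : ℝ)) j) ≤
      W * n ^ v * (n ^ 1002) ^ (m - j) := by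
    intro j hj
    rw [hW]
    exact QQ_l1 m Θ θ0 (n ^ v) (n ^ 1002) G hΘ hθ0 (by positivity) hZ1 hG _ _
      (fun i hi => (mul_le_mul_of_nonneg_right (hwH i hi) hΘ.le).trans (hHwΘ i))
      (fun i hi => (huH i hi).trans (hHuv i)) j hj
  have hcoef : ∀ j l : ℕ, (QQ m Θ θ0 G (fun i => (u i : ℝ)) (fun i => (w i : ℝ)) j).coeff l =
      ∑ i : Fin (m + 1), (QQ m Θ θ0 G 0 (Pi.single (i : ℕ) 1) j).coeff l * (x (Sum.inl i) : ℝ) +
      ∑ i : Fin (m + 1), (QQ m Θ θ0 G (Pi.single (i : ℕ) 1) 0 j).coeff l *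
        (x (Sum.inr i) : ℝ) := by
    intro j l
    rw [QQ_coeff, Finset.sum_range, Finset.sum_add_distrib]
    simp only [hwx, hux]
  have hQ0 : ∀ l < n0, |(QQ m Θ θ0 G (fun i => (u i : ℝ)) (fun i => (w i : ℝ)) 0).coeff l| ≤
      ε * n ^ (910 * l) / n ^ (k + 1) := by
    intro l hl
    have h1 := hxω (Sum.inl ⟨l, hl⟩)
    rw [Fintype.sum_sum_type] at h1
    rw [hcoef]
    simpa only [Sum.elim_inl, Sum.elim_inr] using h1
  have hQ1 : ∀ l < n1, |(QQ m Θ θ0 G (fun i => (u i : ℝ)) (fun i => (w i : ℝ)) 1).coeff l| ≤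
      ε / 2 * n ^ (910 * l) * n ^ (3 * k) / n ^ (k + 1) := by
    intro l hl
    have h1 := hxω (Sum.inr ⟨l, hl⟩)
    rw [Fintype.sum_sum_type] at h1
    rw [hcoef]
    simpa only [Sum.elim_inl, Sum.elim_inr] using h1
  refine ⟨m, u, w, by omega, ?_, ?_, ?_⟩
  · by_contra hcon
    push Not at hcon
    apply hx0
    funext i
    cases i with
    | inl i => rw [← hwx]; exact (hcon i (by omega)).2
    | inr i => rw [← hux]; exact (hcon i (by omega)).1
  · intro i hi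
    constructor
    · refine (huH i hi).trans ((hHuv i).trans ?_)
      rw [← pow_mul, ← pow_add]
      exact pow_le_pow_right₀ hn1' (by omega)
    · refine (hwH i hi).trans ((hHw1 i).trans ?_)
      have h1 : max 1 (1 / Θ) ≤ n ^ 1000 := by
        apply max_le (one_le_pow₀ hn1')
        rw [div_le_iff₀ hΘ, mul_comm]
        exact hΘ2
      refine (mul_le_mul_of_nonneg_left h1 (by positivity)).trans ?_
      rw [← pow_add]
      exact pow_le_pow_right₀ hn1' (by omega)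
  · intro t r ht hr
    exact a5_final n Θ θ0 ε W t r G _ _ k m n0 n1 v hn1 hε0 hW0 hm1 hQ0 hQ1 hQl1 ha2 ha3 ha4
      hn0k hn1k hε2 hW1 hW2 ht hr

end LibHU
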