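import Pool.Agent.LibHU21.A5
import Pool.Agent.LibHU21.P1
import Pool.Agent.LibHall43.B3
import Pool.Agent.LibHall43.Defs

/-! The cell lemma, uniform version. -/

set_option autoImplicit false

open LibHall

namespace LibHU

open Polynomial in
private theorem B4_l1 (g1 g2 g3 : ℝ) :
    l1 (C g1 * X + C g2 * X ^ 2 + C g3 * X ^ 3) ≤ |g1| + |g2| + |g3| := by
  have h1 : l1 (C g1 * X) ≤ |g1| := by
    calc l1 (C g1 * X) ≤ l1 (C g1) * l1 X := l1_mul_le _ _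
      _ = |g1| := by rw [l1_C, l1_X, mul_one]
  have hp : ∀ (g : ℝ) (j : ℕ), l1 (C g * X ^ j) ≤ |g| := by
    intro g j
    calc l1 (C g * X ^ j) ≤ l1 (C g) * l1 (X ^ j) := l1_mul_le _ _
      _ ≤ |g| * 1 := by
          rw [l1_C]
          refine mul_le_mul_of_nonneg_left ?_ (abs_nonneg _)
          calc l1 (X ^ j : ℝ[X]) ≤ l1 X ^ j := l1_pow_le _ _
            _ = 1 := by rw [l1_X, one_pow]
      _ = |g| := mul_one _
  calc l1 (C g1 * X + C g2 * X ^ 2 + C g3 * X ^ 3)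
      ≤ l1 (C g1 * X + C g2 * X ^ 2) + l1 (C g3 * X ^ 3) := l1_add_le _ _
    _ ≤ (l1 (C g1 * X) + l1 (C g2 * X ^ 2)) + l1 (C g3 * X ^ 3) := by
        gcongr
        exact l1_add_le _ _
    _ ≤ (|g1| + |g2|) + |g3| := by
        gcongr
        · exact hp g2 2
        · exact hp g3 3

/-- the coefficients -/
private noncomputable def B4g1 (c0 c1 c2 : ℤ) (Θ θ : ℝ) : ℝ :=
  3 * ((c0 : ℝ) * θ ^ 2 + 2 * c1 * θ + c2) * Θ
private noncomputable def B4g2 (c0 c1 : ℤ) (Θ θ : ℝ) : ℝ := 3 * ((c0 : ℝ) * θ + c1) * Θ ^ 2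
private noncomputable def B4g3 (c0 : ℤ) (Θ : ℝ) : ℝ := (c0 : ℝ) * Θ ^ 3

private theorem B4_gbound (c0 c1 c2 : ℤ) (Θ θ R : ℝ) (hΘ : 0 < Θ) (hθ : |θ| ≤ Θ)
    (h0 : |(c0 : ℝ)| * Θ ^ 3 ≤ R) (h1 : |(c1 : ℝ)| * Θ ^ 2 ≤ R)
    (h2 : |(c2 : ℝ)| * Θ ≤ R) :
    |B4g1 c0 c1 c2 Θ θ| + |B4g2 c0 c1 Θ θ| + |B4g3 c0 Θ| ≤ 19 * R := by
  have a0 := abs_nonneg (c0 : ℝ)
  have a1 := abs_nonneg (c1 : ℝ)
  have a2 := abs_nonneg (c2 : ℝ)
  have hθ2 : |θ| ^ 2 ≤ Θ ^ 2 := by gcongr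
  have e1 : |B4g1 c0 c1 c2 Θ θ| ≤ 3 * (|(c0 : ℝ)| * Θ ^ 2 + 2 * |(c1 : ℝ)| * Θ + |(c2 : ℝ)|) * Θ := by
    unfold B4g1
    rw [abs_mul, abs_mul, abs_of_pos hΘ, abs_of_pos (by norm_num : (0 : ℝ) < 3)]
    refine mul_le_mul_of_nonneg_right ?_ hΘ.le
    refine mul_le_mul_of_nonneg_left ?_ (by norm_num)
    calc |(c0 : ℝ) * θ ^ 2 + 2 * c1 * θ + c2|
        ≤ |(c0 : ℝ) * θ ^ 2| + |2 * c1 * θ| + |(c2 : ℝ)| := abs_add_three _ _ _
      _ = |(c0 : ℝ)| * |θ| ^ 2 + 2 * |(c1 : ℝ)| * |θ| + |(c2 : ℝ)| := by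
          rw [abs_mul, abs_mul, abs_mul, abs_pow, abs_of_pos (by norm_num : (0 : ℝ) < 2)]
      _ ≤ _ := by gcongr
  have e2 : |B4g2 c0 c1 Θ θ| ≤ 3 * (|(c0 : ℝ)| * Θ + |(c1 : ℝ)|) * Θ ^ 2 := by
    unfold B4g2
    rw [abs_mul, abs_mul, abs_of_pos (by positivity : 0 < Θ ^ 2),
      abs_of_pos (by norm_num : (0 : ℝ) < 3)]
    refine mul_le_mul_of_nonneg_right ?_ (by positivity)
    refine mul_le_mul_of_nonneg_left ?_ (by norm_num)
    calc |(c0 : ℝ) * θ + c1| ≤ |(c0 : ℝ) * θ| + |(c1 : ℝ)| := abs_add_le _ _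
      _ = |(c0 : ℝ)| * |θ| + |(c1 : ℝ)| := by rw [abs_mul]
      _ ≤ _ := by gcongr
  have e3 : |B4g3 c0 Θ| = |(c0 : ℝ)| * Θ ^ 3 := by
    unfold B4g3
    rw [abs_mul, abs_of_pos (by positivity : 0 < Θ ^ 3)]
  have f1 : 3 * (|(c0 : ℝ)| * Θ ^ 2 + 2 * |(c1 : ℝ)| * Θ + |(c2 : ℝ)|) * Θ
      = 3 * (|(c0 : ℝ)| * Θ ^ 3) + 6 * (|(c1 : ℝ)| * Θ ^ 2) + 3 * (|(c2 : ℝ)| * Θ) := by ring
  have f2 : 3 * (|(c0 : ℝ)| * Θ + |(c1 : ℝ)|) * Θ ^ 2
      = 3 * (|(c0 : ℝ)| * Θ ^ 3) + 3 * (|(c1 : ℝ)| * Θ ^ 2) := by ring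
  rw [f1] at e1
  rw [f2] at e2
  linarith

/-- geometry of one point of the cell -/
private theorem B4_point (n : ℝ) (hn : 16 ≤ n) (k : ℕ) (Θ : ℝ) (hΘ : 0 < Θ)
    (c0 c1 c2 : ℤ) (h0 : |(c0 : ℝ)| * Θ ^ 3 ≤ n ^ 1001)
    (h1 : |(c1 : ℝ)| * Θ ^ 2 ≤ n ^ 1001) (h2 : |(c2 : ℝ)| * Θ ≤ n ^ 1001)
    (z a b z0 a0 b0 : ℤ) (hs : IsS Θ (n ^ 999) c0 c1 c2 (z, a, b))
    (hs0 : IsS Θ (n ^ 999) c0 c1 c2 (z0, a0, b0))
    (hb : n ^ k ≤ |(b : ℝ)|) (hb0 : n ^ k ≤ |(b0 : ℝ)|)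
    (hz : |((z - z0 : ℤ) : ℝ)| ≤ n ^ 88)
    (hth : |(a : ℝ) / b - (a0 : ℝ) / b0| * n ^ 4 ≤ Θ) :
    |((a : ℝ) / b - (a0 : ℝ) / b0) / Θ| * n ^ 910 ≤ 1 ∧
    |1 / (b : ℝ) ^ 3 - 1 / (b0 : ℝ) ^ 3| * n ^ (3 * k) ≤ 2 ∧
    (1 / (b : ℝ) ^ 3 - 1 / (b0 : ℝ) ^ 3) -
      (B4g1 c0 c1 c2 Θ ((a0 : ℝ) / b0) * (((a : ℝ) / b - (a0 : ℝ) / b0) / Θ)
        + B4g2 c0 c1 Θ ((a0 : ℝ) / b0) * (((a : ℝ) / b - (a0 : ℝ) / b0) / Θ) ^ 2
        + B4g3 c0 Θ * (((a : ℝ) / b - (a0 : ℝ) / b0) / Θ) ^ 3) = ((z - z0 : ℤ) : ℝ) := by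
  obtain ⟨hCF, hbne, hab, hD⟩ := hs
  obtain ⟨hCF0, hb0ne, hab0, hD0⟩ := hs0
  simp only at hCF hbne hab hD hCF0 hb0ne hab0 hD0
  have hnpos : 0 < n := by linarith
  have hn1 : 1 ≤ n := by linarith
  have hbR : (b : ℝ) ≠ 0 := by exact_mod_cast hbne
  have hb0R : (b0 : ℝ) ≠ 0 := by exact_mod_cast hb0ne
  set θ : ℝ := (a0 : ℝ) / b0 with hθdef
  set t : ℝ := ((a : ℝ) / b - θ) / Θ with htdef
  have hθΘ : |θ| ≤ Θ := by
    rw [hθdef, abs_div, div_le_iff₀ (abs_pos.mpr hb0R)]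
    exact hab0
  have hΘt : (a : ℝ) / b = θ + Θ * t := by
    rw [htdef]; field_simp; ring
  -- the identity
  have hidz : (z : ℝ) + ((c0 : ℝ) * ((a : ℝ) / b) ^ 3 + 3 * c1 * ((a : ℝ) / b) ^ 2
      + 3 * c2 * ((a : ℝ) / b)) = 1 / (b : ℝ) ^ 3 := by
    have hc : ((CF c0 c1 c2 z a b : ℤ) : ℝ) = 1 := by rw [hCF]; norm_num
    unfold CF at hc
    push_cast at hc
    field_simp
    linear_combination hc
  have hidz0 : (z0 : ℝ) + ((c0 : ℝ) * θ ^ 3 + 3 * c1 * θ ^ 2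
      + 3 * c2 * θ) = 1 / (b0 : ℝ) ^ 3 := by
    have hc : ((CF c0 c1 c2 z0 a0 b0 : ℤ) : ℝ) = 1 := by rw [hCF0]; norm_num
    unfold CF at hc
    push_cast at hc
    rw [hθdef]
    field_simp
    linear_combination hc
  have hid : (1 / (b : ℝ) ^ 3 - 1 / (b0 : ℝ) ^ 3) -
      (B4g1 c0 c1 c2 Θ θ * t + B4g2 c0 c1 Θ θ * t ^ 2 + B4g3 c0 Θ * t ^ 3)
        = ((z - z0 : ℤ) : ℝ) := by
    rw [← hidz, ← hidz0, hΘt]
    unfold B4g1 B4g2 B4g3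
    push_cast
    ring
  have hnk : 0 < n ^ k := by positivity
  have hr : |1 / (b : ℝ) ^ 3 - 1 / (b0 : ℝ) ^ 3| * n ^ (3 * k) ≤ 2 := by
    have hone : ∀ x : ℝ, n ^ k ≤ |x| → |1 / x ^ 3| * n ^ (3 * k) ≤ 1 := by
      intro x hx
      have hxpos : 0 < |x| := lt_of_lt_of_le hnk hx
      rw [abs_div, abs_one, abs_pow, one_div, inv_mul_le_iff₀ (by positivity), mul_one,
        mul_comm 3 k, pow_mul]
      gcongr
    calc |1 / (b : ℝ) ^ 3 - 1 / (b0 : ℝ) ^ 3| * n ^ (3 * k)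
        ≤ (|1 / (b : ℝ) ^ 3| + |1 / (b0 : ℝ) ^ 3|) * n ^ (3 * k) := by
          gcongr
          exact abs_sub _ _
      _ = |1 / (b : ℝ) ^ 3| * n ^ (3 * k) + |1 / (b0 : ℝ) ^ 3| * n ^ (3 * k) := by ring
      _ ≤ 1 + 1 := add_le_add (hone _ hb) (hone _ hb0)
      _ = 2 := by norm_num
  refine ⟨?_, hr, hid⟩
  -- t is small
  have ht4 : |t| * n ^ 4 ≤ 1 := by
    rw [htdef, abs_div, abs_of_pos hΘ, div_mul_eq_mul_div, div_le_one hΘ]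
    exact hth
  have hp999 : n ^ 999 = n ^ 4 * n ^ 995 := by rw [← pow_add]
  have hinc := incr_bound c0 c1 c2 Θ (n ^ 999) (n ^ 1001) θ t hΘ (by positivity) (by positivity)
    hθΘ h0 h1 h2 hD0 (by
      have h5 : n ^ 1001 = n ^ 4 * n ^ 997 := by rw [← pow_add]
      have h6 : n ^ 999 = n ^ 997 * n ^ 2 := by rw [← pow_add]
      have h7 : (14 : ℝ) ≤ n ^ 2 := by nlinarith
      calc |t| * (14 * n ^ 1001) = (|t| * n ^ 4) * (14 * n ^ 997) := by rw [h5]; ring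
        _ ≤ 1 * (14 * n ^ 997) := by gcongr
        _ = n ^ 997 * 14 := by ring
        _ ≤ n ^ 997 * n ^ 2 := by gcongr
        _ = n ^ 999 := h6.symm)
  have hGt : |(c0 : ℝ) * Θ ^ 3 * t ^ 3 + 3 * (c0 * θ + c1) * Θ ^ 2 * t ^ 2
      + 3 * (c0 * θ ^ 2 + 2 * c1 * θ + c2) * Θ * t| ≤ 2 + n ^ 88 := by
    have e1 : (c0 : ℝ) * Θ ^ 3 * t ^ 3 + 3 * (c0 * θ + c1) * Θ ^ 2 * t ^ 2
      + 3 * (c0 * θ ^ 2 + 2 * c1 * θ + c2) * Θ * t
        = (1 / (b : ℝ) ^ 3 - 1 / (b0 : ℝ) ^ 3) - ((z - z0 : ℤ) : ℝ) := by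
      rw [← hid]
      unfold B4g1 B4g2 B4g3
      ring
    rw [e1]
    have hr2 : |1 / (b : ℝ) ^ 3 - 1 / (b0 : ℝ) ^ 3| ≤ 2 := by
      have h8 : 1 ≤ n ^ (3 * k) := one_le_pow₀ hn1
      calc |1 / (b : ℝ) ^ 3 - 1 / (b0 : ℝ) ^ 3|
          = |1 / (b : ℝ) ^ 3 - 1 / (b0 : ℝ) ^ 3| * 1 := (mul_one _).symm
        _ ≤ |1 / (b : ℝ) ^ 3 - 1 / (b0 : ℝ) ^ 3| * n ^ (3 * k) := by gcongr
        _ ≤ 2 := hr
    calc |(1 / (b : ℝ) ^ 3 - 1 / (b0 : ℝ) ^ 3) - ((z - z0 : ℤ) : ℝ)|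
        ≤ |1 / (b : ℝ) ^ 3 - 1 / (b0 : ℝ) ^ 3| + |((z - z0 : ℤ) : ℝ)| := abs_sub _ _
      _ ≤ 2 + n ^ 88 := add_le_add hr2 hz
  have hmain : |t| * n ^ 999 ≤ 2 * (2 + n ^ 88) := by linarith
  have h9 : n ^ 999 = n ^ 910 * (n * n ^ 88) := by
    rw [← pow_succ', ← pow_add]
  have h10 : (1 : ℝ) ≤ n ^ 88 := one_le_pow₀ hn1
  have h11 : 2 * (2 + n ^ 88) ≤ n * n ^ 88 := by nlinarith
  have h12 : (|t| * n ^ 910) * (n * n ^ 88) ≤ 1 * (n * n ^ 88) := by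
    calc (|t| * n ^ 910) * (n * n ^ 88) = |t| * n ^ 999 := by rw [h9]; ring
      _ ≤ 2 * (2 + n ^ 88) := hmain
      _ ≤ n * n ^ 88 := h11
      _ = 1 * (n * n ^ 88) := (one_mul _).symm
  exact le_of_mul_le_mul_right h12 (by positivity)

/-- the integer relation -/
private theorem B4_int (m k : ℕ) (n : ℝ) (hn : 0 < n) (u w : ℕ → ℤ) (h a b : ℤ) (hb : b ≠ 0)
    (hb2 : |(b : ℝ)| < n ^ (k + 1))
    (hlt : |∑ i ∈ Finset.range (m + 1), (h : ℝ) ^ i * ((w i : ℝ) * ((a : ℝ) / b) - (u i : ℝ))|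
      * n ^ (k + 1) < 1) :
    a * ∑ i ∈ Finset.range (m + 1), w i * h ^ i
      = b * ∑ i ∈ Finset.range (m + 1), u i * h ^ i := by
  have hbR : (b : ℝ) ≠ 0 := by exact_mod_cast hb
  have key : ((a * ∑ i ∈ Finset.range (m + 1), w i * h ^ i
      - b * ∑ i ∈ Finset.range (m + 1), u i * h ^ i : ℤ) : ℝ)
      = b * ∑ i ∈ Finset.range (m + 1),
        (h : ℝ) ^ i * ((w i : ℝ) * ((a : ℝ) / b) - (u i : ℝ)) := by
    push_cast
    rw [Finset.mul_sum, Finset.mul_sum, Finset.mul_sum, ← Finset.sum_sub_distrib]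
    refine Finset.sum_congr rfl fun i _ => ?_
    field_simp
  have habs : |((a * ∑ i ∈ Finset.range (m + 1), w i * h ^ i
      - b * ∑ i ∈ Finset.range (m + 1), u i * h ^ i : ℤ) : ℝ)| < 1 := by
    rw [key, abs_mul]
    calc |(b : ℝ)| * |∑ i ∈ Finset.range (m + 1),
          (h : ℝ) ^ i * ((w i : ℝ) * ((a : ℝ) / b) - (u i : ℝ))|
        ≤ n ^ (k + 1) * |∑ i ∈ Finset.range (m + 1),
          (h : ℝ) ^ i * ((w i : ℝ) * ((a : ℝ) / b) - (u i : ℝ))| := by gcongr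
      _ < 1 := by rw [mul_comm]; exact hlt
  rw [← Int.cast_abs] at habs
  have h1 : |a * ∑ i ∈ Finset.range (m + 1), w i * h ^ i
      - b * ∑ i ∈ Finset.range (m + 1), u i * h ^ i| < 1 := by exact_mod_cast habs
  have h2 := Int.abs_lt_one_iff.mp h1
  linarith

open Polynomial in
/-- polynomial with prescribed coefficients -/
private theorem B4_poly (m : ℕ) (u : ℕ → ℤ) :
    ∃ U : ℤ[X], U.natDegree ≤ m ∧ (∀ i ≤ m, U.coeff i = u i) ∧ (∀ i, m < i → U.coeff i = 0) ∧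
      ∀ h, U.eval h = ∑ i ∈ Finset.range (m + 1), u i * h ^ i := by
  refine ⟨∑ i ∈ Finset.range (m + 1), C (u i) * X ^ i, ?_, ?_, ?_, ?_⟩
  · refine natDegree_sum_le_of_forall_le _ _ fun i hi => ?_
    refine (natDegree_C_mul_X_pow_le _ _).trans ?_
    have := Finset.mem_range.mp hi
    omega
  · intro i hi
    rw [finsetSum_coeff]
    simp only [coeff_C_mul, coeff_X_pow]
    simp only [mul_ite, mul_one, mul_zero]
    rw [Finset.sum_ite_eq]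
    rw [if_pos (Finset.mem_range.mpr (by omega))]
  · intro i hi
    rw [finsetSum_coeff]
    simp only [coeff_C_mul, coeff_X_pow]
    simp only [mul_ite, mul_one, mul_zero]
    rw [Finset.sum_ite_eq]
    rw [if_neg (by rw [Finset.mem_range]; omega)]
  · intro h
    rw [eval_finsetSum]
    refine Finset.sum_congr rfl fun i _ => ?_
    rw [eval_mul, eval_C, eval_pow, eval_X]

private theorem B4_14 (n : ℝ) (hn : 4 ≤ n) : (14 : ℝ) ≤ n ^ 2 := by nlinarith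

private theorem B4_pow (n : ℝ) (E : ℕ) :
    n * (n ^ 6) ^ 3 * (n ^ E) ^ (3 + 1) = n ^ (4 * E + 19) := by
  ring

private theorem B4_num (n : ℝ) (hn : 10000 ≤ n) (m : ℕ) (hm : (m : ℝ) ≤ n ^ 5 + 2) :
    3 * (m : ℝ) + 1 ≤ (n ^ 88) ^ (0.1 : ℝ) ∧
    ((3 : ℕ) + 2 : ℝ) * (m + 1) ^ 3 * (n ^ (1002 * m + 4001)) ^ (3 + 1) ≤
      Real.exp ((n ^ 88) ^ (0.1 : ℝ)) ∧
    (m : ℝ) + (n ^ 88) ^ (0.81 : ℝ) ≤ n ^ 72 := by
  have hn0 : 0 < n := by linarith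
  have hn1 : 1 ≤ n := by linarith
  have hm0 : (0 : ℝ) ≤ m := Nat.cast_nonneg m
  have h5 : (10000 : ℝ) ≤ n ^ 5 := by
    calc (10000 : ℝ) ≤ n := hn
      _ = n ^ 1 := (pow_one n).symm
      _ ≤ n ^ 5 := pow_le_pow_right₀ hn1 (by norm_num)
  have h8 : n ^ 8 ≤ (n ^ 88) ^ (0.1 : ℝ) := by
    rw [← Real.rpow_natCast n 88, ← Real.rpow_mul hn0.le, ← Real.rpow_natCast n 8]
    apply Real.rpow_le_rpow_of_exponent_le hn1
    norm_num
  have h6 : 10000 * n ^ 5 ≤ n ^ 6 := by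
    calc 10000 * n ^ 5 ≤ n * n ^ 5 := mul_le_mul_of_nonneg_right hn (by positivity)
      _ = n ^ 6 := by ring
  have h68 : n ^ 6 ≤ n ^ 8 := pow_le_pow_right₀ hn1 (by norm_num)
  refine ⟨by nlinarith, ?_, ?_⟩
  · have hm6 : (m : ℝ) + 1 ≤ n ^ 6 := by nlinarith
    have e1 : ((3 : ℕ) + 2 : ℝ) * (m + 1) ^ 3 * (n ^ (1002 * m + 4001)) ^ (3 + 1) ≤
        n ^ (4008 * m + 16023) := by
      calc ((3 : ℕ) + 2 : ℝ) * (m + 1) ^ 3 * (n ^ (1002 * m + 4001)) ^ (3 + 1)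
          ≤ n * (n ^ 6) ^ 3 * (n ^ (1002 * m + 4001)) ^ (3 + 1) := by
            apply mul_le_mul_of_nonneg_right _ (by positivity)
            apply mul_le_mul _ _ (by positivity) hn0.le
            · push_cast; linarith
            · exact pow_le_pow_left₀ (by positivity) hm6 3
        _ = n ^ (4 * (1002 * m + 4001) + 19) := B4_pow n _
        _ ≤ n ^ (4008 * m + 16023) := pow_le_pow_right₀ hn1 (by omega)
    refine e1.trans ?_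
    have e2 : n ≤ Real.exp n := by
      have := Real.add_one_le_exp n
      linarith
    calc n ^ (4008 * m + 16023) ≤ (Real.exp n) ^ (4008 * m + 16023) :=
          pow_le_pow_left₀ hn0.le e2 _
      _ = Real.exp (((4008 * m + 16023 : ℕ) : ℝ) * n) := by rw [Real.exp_nat_mul]
      _ ≤ Real.exp ((n ^ 88) ^ (0.1 : ℝ)) := by
          apply Real.exp_le_exp.mpr
          refine le_trans ?_ h8
          push_cast
          have e3 : 4008 * (m : ℝ) + 16023 ≤ n ^ 6 := by nlinarith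
          calc (4008 * (m : ℝ) + 16023) * n ≤ n ^ 6 * n := mul_le_mul_of_nonneg_right e3 hn0.le
            _ = n ^ 7 := by ring
            _ ≤ n ^ 8 := pow_le_pow_right₀ hn1 (by norm_num)
  · have e1 : (n ^ 88) ^ (0.81 : ℝ) ≤ n ^ 72 / 100 := by
      rw [← Real.rpow_natCast n 88, ← Real.rpow_mul hn0.le, le_div_iff₀ (by norm_num)]
      have e2 : (100 : ℝ) ≤ n ^ (0.72 : ℝ) := by
        calc (100 : ℝ) = (10000 : ℝ) ^ (1 / 2 : ℝ) := by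
              rw [← Real.sqrt_eq_rpow, show (10000 : ℝ) = 100 ^ 2 by norm_num,
                Real.sqrt_sq (by norm_num)]
          _ ≤ n ^ (1 / 2 : ℝ) := Real.rpow_le_rpow (by norm_num) hn (by norm_num)
          _ ≤ n ^ (0.72 : ℝ) := Real.rpow_le_rpow_of_exponent_le hn1 (by norm_num)
      calc n ^ (((88 : ℕ) : ℝ) * 0.81) * 100 ≤ n ^ (((88 : ℕ) : ℝ) * 0.81) * n ^ (0.72 : ℝ) :=
            mul_le_mul_of_nonneg_left e2 (Real.rpow_nonneg hn0.le _)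
        _ = n ^ (72 : ℝ) := by
            rw [← Real.rpow_add hn0]; norm_num
        _ = n ^ 72 := by
            rw [← Real.rpow_natCast n 72]; norm_num
    have e3 : n ^ 6 ≤ n ^ 72 := pow_le_pow_right₀ hn1 (by norm_num)
    linarith

/-- The cell lemma. -/
theorem cell_lemmaU : ∃ n0 : ℝ, 10000 ≤ n0 ∧ ∀ n : ℝ, n0 ≤ n → ∀ k : ℕ, (k : ℝ) ≤ n ^ 5 →
    ∀ Θ : ℝ, 0 < Θ → Θ ≤ n ^ 344 → 1 ≤ Θ * n ^ 1000 → ∀ c0 c1 c2 : ℤ,
    (∀ e : ℤ, |e ^ 3| ≠ |c0|) →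
    |(c0 : ℝ)| * Θ ^ 3 ≤ n ^ 1001 → |(c1 : ℝ)| * Θ ^ 2 ≤ n ^ 1001 → |(c2 : ℝ)| * Θ ≤ n ^ 1001 →
    ∀ S : Finset (ℤ × ℤ × ℤ), (∀ s ∈ S, IsS Θ (n ^ 999) c0 c1 c2 s ∧
      n ^ k ≤ |(s.2.2 : ℝ)| ∧ |(s.2.2 : ℝ)| < n ^ (k + 1) ∧ |(s.1 : ℝ)| ≤ n ^ 1001) →
    (∀ s ∈ S, ∀ s' ∈ S, |((s.1 - s'.1 : ℤ) : ℝ)| ≤ n ^ 88 ∧
      |(s.2.1 : ℝ) / s.2.2 - (s'.2.1 : ℝ) / s'.2.2| * n ^ 4 ≤ Θ) →
    (S.card : ℝ) ≤ n ^ 72 := by
  obtain ⟨N0, hN0, hP⟩ := power_count 3 (Or.inl rfl)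
  refine ⟨max N0 10000, le_max_right _ _, ?_⟩
  intro n hn k hk Θ hΘ hΘ1 hΘ2 c0 c1 c2 hc0 h0 h1 h2 S hS hSS
  have hna : N0 ≤ n := le_trans (le_max_left _ _) hn
  have hnd : (10000 : ℝ) ≤ n := le_trans (le_max_right _ _) hn
  have hnpos : 0 < n := by linarith
  have hn1' : 1 ≤ n := by linarith
  rcases S.eq_empty_or_nonempty with hSe | ⟨s0, hs0⟩
  · rw [hSe, Finset.card_empty, Nat.cast_zero]
    positivity
  obtain ⟨z0, a0, b0⟩ := s0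
  obtain ⟨hIS0, hb0, hb0', hz0⟩ := hS _ hs0
  simp only at hb0 hb0' hz0
  set θ : ℝ := (a0 : ℝ) / b0 with hθdef
  have hb0ne : (b0 : ℝ) ≠ 0 := by
    have := hIS0.2.1
    simp only at this
    exact_mod_cast this
  have hθΘ : |θ| ≤ Θ := by
    have := hIS0.2.2.1
    simp only at this
    rw [hθdef, abs_div, div_le_iff₀ (abs_pos.mpr hb0ne)]
    exact this
  have hθ0 : |θ / Θ| ≤ 1 := by
    rw [abs_div, abs_of_pos hΘ, div_le_one hΘ]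
    exact hθΘ
  -- the auxiliary polynomial
  set G : Polynomial ℝ := Polynomial.C (B4g1 c0 c1 c2 Θ θ) * Polynomial.X
    + Polynomial.C (B4g2 c0 c1 Θ θ) * Polynomial.X ^ 2
    + Polynomial.C (B4g3 c0 Θ) * Polynomial.X ^ 3 with hG
  have hGl1 : l1 G ≤ n ^ 1002 := by
    calc l1 G ≤ |B4g1 c0 c1 c2 Θ θ| + |B4g2 c0 c1 Θ θ| + |B4g3 c0 Θ| := B4_l1 _ _ _
      _ ≤ 19 * n ^ 1001 := B4_gbound c0 c1 c2 Θ θ _ hΘ hθΘ h0 h1 h2
      _ ≤ n * n ^ 1001 := by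
          apply mul_le_mul_of_nonneg_right _ (by positivity)
          linarith
      _ = n ^ 1002 := (pow_succ' n 1001).symm
  obtain ⟨m, u, w, hm, hne, huw, hsmall⟩ :=
    aux_polyU n hnd k Θ hΘ hΘ1 hΘ2 G hGl1 (θ / Θ) hθ0
  have hmR : (m : ℝ) ≤ n ^ 5 + 2 := by
    have : (m : ℝ) ≤ k + 2 := by exact_mod_cast hm
    linarith
  obtain ⟨num1, num2, num3⟩ := B4_num n hnd m hmR
  obtain ⟨U, hUdeg, hUco, hUco', hUev⟩ := B4_poly m u
  obtain ⟨V, hVdeg, hVco, hVco', hVev⟩ := B4_poly m w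
  have hUV : U ≠ 0 ∨ V ≠ 0 := by
    obtain ⟨i, hi, hi2⟩ := hne
    rcases hi2 with hi2 | hi2
    · left
      intro hU0
      apply hi2
      rw [← hUco i hi, hU0, Polynomial.coeff_zero]
    · right
      intro hV0
      apply hi2
      rw [← hVco i hi, hV0, Polynomial.coeff_zero]
  set H : ℝ := n ^ (1002 * m + 4001) with hH
  have hH1 : 1 ≤ H := one_le_pow₀ hn1'
  have hH0 : 0 ≤ H := by linarith
  have hHH : n ^ (1002 * m + 1000) ≤ H := pow_le_pow_right₀ hn1' (by omega)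
  have hUH : ∀ i, |(U.coeff i : ℝ)| ≤ H := by
    intro i
    rcases le_or_gt i m with hi | hi
    · rw [hUco i hi]; exact (huw i hi).1.trans hHH
    · rw [hUco' i hi]; simpa using hH0
  have hVH : ∀ i, |(V.coeff i : ℝ)| ≤ H := by
    intro i
    rcases le_or_gt i m with hi | hi
    · rw [hVco i hi]; exact (huw i hi).2.trans hHH
    · rw [hVco' i hi]; simpa using hH0
  -- the coefficients
  have hΘi : ∀ (j : ℕ) (x : ℝ), |x| * Θ ^ j ≤ n ^ 1001 → |x| ≤ n ^ (1001 + 1000 * j) := by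
    intro j x hx
    have h3 : 1 ≤ (Θ * n ^ 1000) ^ j := one_le_pow₀ hΘ2
    calc |x| = |x| * 1 := (mul_one _).symm
      _ ≤ |x| * (Θ * n ^ 1000) ^ j := mul_le_mul_of_nonneg_left h3 (abs_nonneg _)
      _ = (|x| * Θ ^ j) * n ^ (1000 * j) := by rw [mul_pow, pow_mul]; ring
      _ ≤ n ^ 1001 * n ^ (1000 * j) := mul_le_mul_of_nonneg_right hx (by positivity)
      _ = n ^ (1001 + 1000 * j) := by rw [pow_add]
  have hc0' : |(c0 : ℝ)| ≤ n ^ 4001 := by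
    have := hΘi 3 (c0 : ℝ) h0
    simpa using this
  have hc1' : |(c1 : ℝ)| ≤ n ^ 3001 := by
    have := hΘi 2 (c1 : ℝ) h1
    simpa using this
  have hc2' : |(c2 : ℝ)| ≤ n ^ 2001 := by
    have := hΘi 1 (c2 : ℝ) (by rw [pow_one]; exact h2)
    simpa using this
  obtain ⟨kk, hkk⟩ : ∃ kk : ℕ → ℤ, kk = fun i => if i = 0 then c0 else if i = 1 then 3 * c1 else
    3 * c2 := ⟨_, rfl⟩
  have hkk0 : kk 0 = c0 := by rw [hkk]; simp
  have hkk1 : kk 1 = 3 * c1 := by rw [hkk]; simp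
  have hkk2 : kk 2 = 3 * c2 := by rw [hkk]; simp
  have h3n : ∀ e : ℕ, e ≤ 4000 → 3 * n ^ e ≤ H := by
    intro e he
    calc 3 * n ^ e ≤ n * n ^ e := by
          apply mul_le_mul_of_nonneg_right _ (by positivity)
          linarith
      _ = n ^ (e + 1) := (pow_succ' n e).symm
      _ ≤ H := pow_le_pow_right₀ hn1' (by omega)
  have hkH : ∀ i < 3, |(kk i : ℝ)| ≤ H := by
    intro i hi
    interval_cases i
    · rw [hkk0]
      exact hc0'.trans (pow_le_pow_right₀ hn1' (by omega))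
    · rw [hkk1]
      push_cast
      rw [abs_mul, abs_of_pos (by norm_num : (0 : ℝ) < 3)]
      exact (mul_le_mul_of_nonneg_left hc1' (by norm_num)).trans (h3n 3001 (by norm_num))
    · rw [hkk2]
      push_cast
      rw [abs_mul, abs_of_pos (by norm_num : (0 : ℝ) < 3)]
      exact (mul_le_mul_of_nonneg_left hc2' (by norm_num)).trans (h3n 2001 (by norm_num))
  -- injectivity
  have hinj : Set.InjOn (fun s : ℤ × ℤ × ℤ => s.1 - z0) (S : Set (ℤ × ℤ × ℤ)) := by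
    intro s hs s' hs' heq
    obtain ⟨z, a, b⟩ := s
    obtain ⟨z', a', b'⟩ := s'
    simp only at heq
    have hzz : z = z' := by omega
    subst hzz
    have g1 := hS _ hs
    have g2 := hS _ hs'
    have g3 := (hSS _ hs _ hs').2
    simp only at g1 g2 g3
    obtain ⟨r1, r2⟩ := uniq c0 c1 c2 z a b a' b' Θ (n ^ 999) (n ^ 1001) (n ^ k) n hΘ
      (by positivity) (one_le_pow₀ hn1') hn1' h0 h1 h2 g1.1 g2.1 g1.2.1 g2.2.1
      (by rw [← pow_succ']; exact g1.2.2.1.le) (by rw [← pow_succ']; exact g2.2.2.1.le)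
      (by
        have h5 : n ^ 1001 = n ^ 4 * n ^ 997 := by rw [← pow_add]
        have h6 : n ^ 999 = n ^ 997 * n ^ 2 := by rw [← pow_add]
        have h7 : (14 : ℝ) ≤ n ^ 2 := B4_14 n (le_trans (by norm_num) hnd)
        calc |(a : ℝ) / b - (a' : ℝ) / b'| * (14 * n ^ 1001)
            = (|(a : ℝ) / b - (a' : ℝ) / b'| * n ^ 4) * (n ^ 997 * 14) := by rw [h5]; ring
          _ ≤ Θ * (n ^ 997 * n ^ 2) := by gcongr
          _ = Θ * n ^ 999 := by rw [← h6])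
      (by
        have h5 : n ^ 999 = n ^ 346 * n ^ 653 := by rw [← pow_add]
        have h6 : n ^ 346 = n ^ 2 * n ^ 344 := by rw [← pow_add]
        have h7 : (1 : ℝ) ≤ n ^ k := one_le_pow₀ hn1'
        have h8 : n ≤ n ^ 653 := by
          calc n = n ^ 1 := (pow_one n).symm
            _ ≤ n ^ 653 := pow_le_pow_right₀ hn1' (by norm_num)
        calc 4 * n ^ 2 * Θ ≤ 4 * n ^ 2 * n ^ 344 := by gcongr
          _ = 4 * n ^ 346 := by rw [h6]; ring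
          _ < n ^ 653 * n ^ 346 := by
              apply mul_lt_mul_of_pos_right _ (by positivity)
              linarith
          _ = n ^ 999 := by rw [h5]; ring
          _ = n ^ 999 * 1 := (mul_one _).symm
          _ ≤ n ^ 999 * n ^ k := by gcongr)
    rw [r1, r2]
  have hcards : (S.image (fun s : ℤ × ℤ × ℤ => s.1 - z0)).card = S.card :=
    Finset.card_image_of_injOn hinj
  have h88 : N0 ≤ n ^ 88 := by
    refine hna.trans ?_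
    calc n = n ^ 1 := (pow_one n).symm
      _ ≤ n ^ 88 := pow_le_pow_right₀ hn1' (by norm_num)
  have hZ := hP (n ^ 88) h88 m H kk z0 U V hH1 (by rw [hkk0]; exact hc0) hUdeg hVdeg hUH hVH hUV
    hkH (hz0.trans (pow_le_pow_right₀ hn1' (by omega))) (by push_cast; exact num1) num2
    (S.image (fun s : ℤ × ℤ × ℤ => s.1 - z0)) (by
      intro t ht t' ht'
      obtain ⟨s, hs, rfl⟩ := Finset.mem_image.mp ht
      obtain ⟨s', hs', rfl⟩ := Finset.mem_image.mp ht'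
      have := (hSS s hs s' hs').1
      simpa using this) (by
    intro x hx
    obtain ⟨s, hs, rfl⟩ := Finset.mem_image.mp hx
    obtain ⟨z, a, b⟩ := s
    obtain ⟨hIS, hb, hb', -⟩ := hS _ hs
    simp only at hb hb'
    have hpair := hSS _ hs _ hs0
    simp only at hpair
    have hbne : b ≠ 0 := hIS.2.1
    obtain ⟨p1, p2, p3⟩ := B4_point n (by linarith) k Θ hΘ c0 c1 c2 h0 h1 h2 z a b z0 a0 b0 hIS hIS0
      hb hb0 hpair.1 hpair.2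
    have hCF := hIS.1
    simp only at hCF
    unfold CF at hCF
    refine ⟨a, b, hbne, ?_, ?_, ?_⟩
    · refine ⟨c0 * a ^ 2 + 3 * c1 * a * b + 3 * c2 * b ^ 2, z * b ^ 2, ?_⟩
      linear_combination hCF
    · rw [hUev, hVev]
      have := B4_int m k n hnpos u w (z - z0) a b hbne hb' (by
        have h5 := hsmall _ _ p1 p2
        have h6 : (1 / (b : ℝ) ^ 3 - 1 / (b0 : ℝ) ^ 3) -
            G.eval (((a : ℝ) / b - (a0 : ℝ) / b0) / Θ) = ((z - z0 : ℤ) : ℝ) := by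
          rw [← p3, hG, hθdef]
          simp only [Polynomial.eval_add, Polynomial.eval_mul, Polynomial.eval_C,
            Polynomial.eval_X, Polynomial.eval_pow]
        have h7 : Θ * (θ / Θ + ((a : ℝ) / b - (a0 : ℝ) / b0) / Θ) = (a : ℝ) / b := by
          rw [hθdef]
          field_simp
          ring
        rw [h6, h7] at h5
        exact h5)
      simp only
      linear_combination this
    · simp only [Finset.sum_range_succ, Finset.sum_range_zero, hkk0, hkk1, hkk2]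
      linear_combination hCF)
  rw [hcards] at hZ
  exact hZ.trans num3

end LibHU
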