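import Pool.Agent.LibHU21.C1a

set_option autoImplicit false

open LibHall

namespace LibHU

private theorem C1_card_box (R : ℝ) (hR : 0 ≤ R) :
    ((Finset.Icc (-⌊R⌋) ⌊R⌋).card : ℝ) ≤ 2 * R + 1 := by
  have h0 : 0 ≤ ⌊R⌋ := Int.floor_nonneg.mpr hR
  have h1 : ((Finset.Icc (-⌊R⌋) ⌊R⌋).card : ℤ) = 2 * ⌊R⌋ + 1 := by
    rw [Int.card_Icc, Int.toNat_of_nonneg (by omega)]
    ring
  have h2 : ((Finset.Icc (-⌊R⌋) ⌊R⌋).card : ℝ) = 2 * (⌊R⌋ : ℝ) + 1 := by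
    exact_mod_cast h1
  rw [h2]
  have := Int.floor_le R
  linarith

private theorem C1_mem_box {R : ℝ} {c : ℤ} (h : |(c : ℝ)| ≤ R) :
    c ∈ Finset.Icc (-⌊R⌋) ⌊R⌋ := by
  rw [abs_le] at h
  rw [Finset.mem_Icc]
  constructor
  · have : -c ≤ ⌊R⌋ := Int.le_floor.mpr (by push_cast; linarith)
    omega
  · exact Int.le_floor.mpr h.2

/-- The same with `c0, c1, c2` varying in a box. -/
theorem box_countU : ∃ n0 : ℝ, 10000 ≤ n0 ∧ ∀ n : ℝ, n0 ≤ n → ∀ Θ : ℝ, 0 < Θ →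
    Θ ≤ n ^ 344 → 1 ≤ Θ * n ^ 1000 → ∀ R0 R1 R2 : ℝ, 0 ≤ R0 → 0 ≤ R1 → 0 ≤ R2 →
    R0 * Θ ^ 3 ≤ n ^ 1001 → R1 * Θ ^ 2 ≤ n ^ 1001 → R2 * Θ ≤ n ^ 1001 →
    ∀ S : Finset ((ℤ × ℤ × ℤ) × (ℤ × ℤ × ℤ)), (∀ s ∈ S, (∀ e : ℤ, |e ^ 3| ≠ |s.1.1|) ∧
      |(s.1.1 : ℝ)| ≤ R0 ∧
      |(s.1.2.1 : ℝ)| ≤ R1 ∧ |(s.1.2.2 : ℝ)| ≤ R2 ∧ IsS Θ (n ^ 999) s.1.1 s.1.2.1 s.1.2.2 s.2 ∧
      Real.log |(s.2.2.2 : ℝ)| ≤ n ^ 5 ∧ |(s.2.1 : ℝ)| ≤ n ^ 1001) →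
    (S.card : ℝ) ≤ (2 * R0 + 1) * (2 * R1 + 1) * (2 * R2 + 1) * n ^ 995 := by
  classical
  obtain ⟨n0, hn0, H⟩ := slice_countU
  refine ⟨n0, hn0, ?_⟩
  intro n hn Θ hΘ hΘ1 hΘ2 R0 R1 R2 hR0 hR1 hR2 hb0 hb1 hb2 S hS
  have hnpos : 0 < n := by linarith
  -- the fibres
  have hfib : ∀ t ∈ S.image Prod.fst, ((S.filter (fun s => s.1 = t)).card : ℝ) ≤ n ^ 995 := by
    intro t ht
    obtain ⟨s0, hs0, rfl⟩ := Finset.mem_image.mp ht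
    obtain ⟨k1, k2, k3, k4, -, -, -⟩ := hS s0 hs0
    have hinj : Set.InjOn Prod.snd
        ((S.filter (fun s => s.1 = s0.1) : Finset _) : Set ((ℤ × ℤ × ℤ) × (ℤ × ℤ × ℤ))) := by
      intro a ha b hb hab
      have ha' := (Finset.mem_filter.mp (Finset.mem_coe.mp ha)).2
      have hb' := (Finset.mem_filter.mp (Finset.mem_coe.mp hb)).2
      exact Prod.ext (ha'.trans hb'.symm) hab
    rw [← Finset.card_image_of_injOn hinj]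
    refine H n hn Θ hΘ hΘ1 hΘ2 s0.1.1 s0.1.2.1 s0.1.2.2 k1 ?_ ?_ ?_ _ ?_
    · exact (mul_le_mul_of_nonneg_right k2 (by positivity)).trans hb0
    · exact (mul_le_mul_of_nonneg_right k3 (by positivity)).trans hb1
    · exact (mul_le_mul_of_nonneg_right k4 hΘ.le).trans hb2
    · intro s hs
      obtain ⟨u, hu, rfl⟩ := Finset.mem_image.mp hs
      obtain ⟨huS, hu1⟩ := Finset.mem_filter.mp hu
      obtain ⟨-, -, -, -, j1, j2, j3⟩ := hS u huS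
      rw [hu1] at j1
      exact ⟨j1, j2, j3⟩
  -- the box
  have hbox : S.image Prod.fst ⊆ Finset.Icc (-⌊R0⌋) ⌊R0⌋ ×ˢ
      (Finset.Icc (-⌊R1⌋) ⌊R1⌋ ×ˢ Finset.Icc (-⌊R2⌋) ⌊R2⌋) := by
    intro t ht
    obtain ⟨s0, hs0, rfl⟩ := Finset.mem_image.mp ht
    obtain ⟨-, k2, k3, k4, -, -, -⟩ := hS s0 hs0
    exact Finset.mem_product.mpr ⟨C1_mem_box k2, Finset.mem_product.mpr
      ⟨C1_mem_box k3, C1_mem_box k4⟩⟩
  have hcard : ((S.image Prod.fst).card : ℝ) ≤ (2 * R0 + 1) * (2 * R1 + 1) * (2 * R2 + 1) := by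
    have h1 : ((S.image Prod.fst).card : ℝ) ≤ ((Finset.Icc (-⌊R0⌋) ⌊R0⌋ ×ˢ
      (Finset.Icc (-⌊R1⌋) ⌊R1⌋ ×ˢ Finset.Icc (-⌊R2⌋) ⌊R2⌋)).card : ℝ) := by
      exact_mod_cast Finset.card_le_card hbox
    refine h1.trans ?_
    rw [Finset.card_product, Finset.card_product]
    push_cast
    have e0 := C1_card_box R0 hR0
    have e1 := C1_card_box R1 hR1
    have e2 := C1_card_box R2 hR2
    calc _ ≤ (2 * R0 + 1) * ((2 * R1 + 1) * (2 * R2 + 1)) := by gcongr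
      _ = _ := by ring
  have hsum : (S.card : ℝ) = ∑ t ∈ S.image Prod.fst, ((S.filter (fun s => s.1 = t)).card : ℝ) := by
    rw [Finset.card_eq_sum_card_image Prod.fst S]
    push_cast
    rfl
  rw [hsum]
  calc ∑ t ∈ S.image Prod.fst, ((S.filter (fun s => s.1 = t)).card : ℝ)
      ≤ ∑ t ∈ S.image Prod.fst, n ^ 995 := Finset.sum_le_sum hfib
    _ = ((S.image Prod.fst).card : ℝ) * n ^ 995 := by
        rw [Finset.sum_const, nsmul_eq_mul]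
    _ ≤ _ := mul_le_mul_of_nonneg_right hcard (by positivity)

end LibHU
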