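import Mathlib

/-! Stepanov's method with two terms. -/

set_option autoImplicit false

open Polynomial

namespace LibHU

section S1

variable {K : Type*} [Field K]

/-- iterated twisted derivatives: `D^k (f^n P) = f^(n-k) * T_k P` -/
noncomputable def s1_T (f : K[X]) (n : ℕ) : ℕ → K[X] →ₗ[K] K[X]
  | 0 => LinearMap.id
  | k + 1 => (LinearMap.mulLeft K f) ∘ₗ (derivative ∘ₗ s1_T f n k) +
      ((n - k : ℕ) : K) • ((LinearMap.mulLeft K (derivative f)) ∘ₗ (s1_T f n k))

theorem s1_T_zero (f : K[X]) (n : ℕ) (P : K[X]) : s1_T f n 0 P = P := rfl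

theorem s1_T_succ (f : K[X]) (n k : ℕ) (P : K[X]) :
    s1_T f n (k + 1) P = f * derivative (s1_T f n k P) +
      C ((n - k : ℕ) : K) * (derivative f * s1_T f n k P) := by
  simp [s1_T, Polynomial.smul_eq_C_mul]

theorem s1_iter (f : K[X]) (n k : ℕ) (hk : k ≤ n) (P : K[X]) :
    derivative^[k] (f ^ n * P) = f ^ (n - k) * s1_T f n k P := by
  induction k with
  | zero => simp [s1_T_zero]
  | succ k ih =>
    rw [Function.iterate_succ_apply', ih (by omega), s1_T_succ, derivative_mul]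
    obtain ⟨m, hm⟩ : ∃ m, n - k = m + 1 := ⟨n - k - 1, by omega⟩
    have hm' : n - (k + 1) = m := by omega
    rw [hm, hm', derivative_pow_succ]
    simp only [Nat.cast_add, Nat.cast_one, map_add, map_natCast, map_one]
    ring

theorem s1_T_mul (f : K[X]) (n k : ℕ) (P E : K[X]) (hE : derivative E = 0) :
    s1_T f n k (P * E) = s1_T f n k P * E := by
  induction k with
  | zero => simp [s1_T_zero]
  | succ k ih =>
    rw [s1_T_succ, s1_T_succ, ih, derivative_mul, hE]
    ring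

theorem s1_T_deg (f : K[X]) (v : ℕ) (hv : f.natDegree ≤ v) (n k : ℕ) (P : K[X]) :
    (s1_T f n k P).natDegree ≤ P.natDegree + k * v := by
  induction k with
  | zero => simp [s1_T_zero]
  | succ k ih =>
    rw [s1_T_succ]
    have h1 : (derivative (s1_T f n k P)).natDegree ≤ P.natDegree + k * v :=
      (natDegree_derivative_le _).trans ((Nat.sub_le _ _).trans ih)
    have h2 : (derivative f).natDegree ≤ v := (natDegree_derivative_le _).trans
      ((Nat.sub_le _ _).trans hv)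
    have h3 : (f * derivative (s1_T f n k P)).natDegree ≤ P.natDegree + (k + 1) * v := by
      refine (natDegree_mul_le_of_le hv h1).trans ?_
      rw [Nat.succ_mul]; omega
    have h4 : (C ((n - k : ℕ) : K) * (derivative f * s1_T f n k P)).natDegree ≤
        P.natDegree + (k + 1) * v := by
      refine (natDegree_C_mul_le _ _).trans ((natDegree_mul_le_of_le h2 ih).trans ?_)
      rw [Nat.succ_mul]; omega
    exact natDegree_add_le_of_degree_le h3 h4

end S1

/-- the lowest coefficients of a relation vanish -/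
theorem s1_low (r ℓ : ℕ) [Fact ℓ.Prime] (hr : 2 ≤ r) (hrℓ : r ∣ ℓ - 1) (f : (ZMod ℓ)[X])
    (v B : ℕ) (hv : f.natDegree ≤ v) (hf0 : f.eval 0 ≠ 0)
    (hf : ¬ ∃ (c : ZMod ℓ) (W : (ZMod ℓ)[X]), f = C c * W ^ r) (hB : r * B + v < ℓ)
    (R S A A' : (ZMod ℓ)[X]) (hR : R.natDegree ≤ B) (hS : S.natDegree ≤ B)
    (h : (R + X ^ ℓ * A) + f ^ ((ℓ - 1) / r) * (S + X ^ ℓ * A') = 0) : R = 0 ∧ S = 0 := by
  have hℓ1 : 1 ≤ ℓ := (Fact.out : ℓ.Prime).one_lt.le
  set q := (ℓ - 1) / r with hq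
  have hqr : q * r = ℓ - 1 := Nat.div_mul_cancel hrℓ
  have hff : f ^ (q * r) * f = f ^ ℓ := by
    rw [hqr, ← pow_succ]; congr 1; omega
  have h1 : (R + X ^ ℓ * A) = -(f ^ q * (S + X ^ ℓ * A')) := by
    rw [eq_neg_iff_add_eq_zero]; exact h
  have h2 : f * (R + X ^ ℓ * A) ^ r = (-1) ^ r * (f ^ ℓ * (S + X ^ ℓ * A') ^ r) := by
    rw [h1, neg_pow, mul_pow, ← pow_mul, ← hff]; ring
  -- congruences modulo `X ^ ℓ`
  have d1 : (X ^ ℓ : (ZMod ℓ)[X]) ∣ (R + X ^ ℓ * A) ^ r - R ^ r := by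
    refine dvd_trans ?_ (sub_dvd_pow_sub_pow _ _ r)
    exact ⟨A, by ring⟩
  have d2 : (X ^ ℓ : (ZMod ℓ)[X]) ∣ (S + X ^ ℓ * A') ^ r - S ^ r := by
    refine dvd_trans ?_ (sub_dvd_pow_sub_pow _ _ r)
    exact ⟨A', by ring⟩
  have d3 : (X ^ ℓ : (ZMod ℓ)[X]) ∣ f ^ ℓ - (C (f.eval 0)) ^ ℓ := by
    rw [← sub_pow_char]
    refine pow_dvd_pow_of_dvd ?_ ℓ
    rw [X_dvd_iff]
    simp [coeff_zero_eq_eval_zero]
  have d4 : (X ^ ℓ : (ZMod ℓ)[X]) ∣ f * R ^ r - C ((-1) ^ r * (f.eval 0) ^ ℓ) * S ^ r := by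
    obtain ⟨a1, e1⟩ := d1
    obtain ⟨a2, e2⟩ := d2
    obtain ⟨a3, e3⟩ := d3
    have e1' : R ^ r = (R + X ^ ℓ * A) ^ r - X ^ ℓ * a1 := by rw [← e1]; ring
    have e3' : (C (f.eval 0)) ^ ℓ = f ^ ℓ - X ^ ℓ * a3 := by rw [← e3]; ring
    have e2' : (S + X ^ ℓ * A') ^ r = S ^ r + X ^ ℓ * a2 := by rw [← e2]; ring
    refine ⟨-(f * a1) + (-1) ^ r * (f ^ ℓ * a2) + (-1) ^ r * (a3 * S ^ r), ?_⟩
    have hC : (C ((-1) ^ r * (f.eval 0) ^ ℓ) : (ZMod ℓ)[X]) = (-1) ^ r * (C (f.eval 0)) ^ ℓ := by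
      rw [C_mul, C_pow, C_pow, C_neg, C_1]
    rw [hC, e3', e1', mul_sub, h2, e2']
    ring
  have hdeg : (f * R ^ r - C ((-1) ^ r * (f.eval 0) ^ ℓ) * S ^ r).natDegree < ℓ := by
    refine lt_of_le_of_lt (natDegree_sub_le_of_le (m := r * B + v) (n := r * B + v) ?_ ?_) ?_
    · refine (natDegree_mul_le_of_le hv (natDegree_pow_le_of_le r hR)).trans ?_
      omega
    · refine (natDegree_C_mul_le _ _).trans ((natDegree_pow_le_of_le r hS).trans ?_)
      omega
    · simpa using hB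
  have hz : f * R ^ r = C ((-1) ^ r * (f.eval 0) ^ ℓ) * S ^ r := by
    rw [← sub_eq_zero]
    refine eq_zero_of_dvd_of_natDegree_lt d4 ?_
    rw [natDegree_X_pow]; exact hdeg
  set c : ZMod ℓ := (-1) ^ r * (f.eval 0) ^ ℓ with hc
  have hc0 : c ≠ 0 := mul_ne_zero (pow_ne_zero _ (by simp)) (pow_ne_zero _ hf0)
  have hr0 : r ≠ 0 := by omega
  by_cases hR0 : R = 0
  · refine ⟨hR0, ?_⟩
    rw [hR0, zero_pow hr0, mul_zero] at hz
    have h3 := hz.symm
    rw [mul_eq_zero] at h3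
    rcases h3 with h3 | h3
    · exact absurd (C_eq_zero.mp h3) hc0
    · exact pow_eq_zero_iff hr0 |>.mp h3
  · exfalso
    have h3 : R ^ r ∣ S ^ r := by
      refine ⟨C c⁻¹ * f, ?_⟩
      have : C c⁻¹ * (f * R ^ r) = S ^ r := by
        rw [hz, ← mul_assoc, ← C_mul, inv_mul_cancel₀ hc0, C_1, one_mul]
      rw [← this]; ring
    rw [IsIntegrallyClosed.pow_dvd_pow_iff hr0] at h3
    obtain ⟨W, hW⟩ := h3
    refine hf ⟨c, W, ?_⟩
    have h4 : R ^ r * f = R ^ r * (C c * W ^ r) := by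
      rw [mul_comm, hz, hW, mul_pow]; ring
    exact mul_left_cancel₀ (pow_ne_zero _ hR0) h4

/-- a relation with coefficients of small degree is trivial -/
theorem s1_indep (r ℓ : ℕ) [Fact ℓ.Prime] (hr : 2 ≤ r) (hrℓ : r ∣ ℓ - 1) (f : (ZMod ℓ)[X])
    (v B : ℕ) (hv : f.natDegree ≤ v) (hf0 : f.eval 0 ≠ 0)
    (hf : ¬ ∃ (c : ZMod ℓ) (W : (ZMod ℓ)[X]), f = C c * W ^ r) (hB : r * B + v < ℓ)
    (J : ℕ) (R S : ℕ → (ZMod ℓ)[X]) (hR : ∀ j, (R j).natDegree ≤ B)
    (hS : ∀ j, (S j).natDegree ≤ B)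
    (h : (∑ j ∈ Finset.range J, R j * X ^ (ℓ * j)) +
      f ^ ((ℓ - 1) / r) * (∑ j ∈ Finset.range J, S j * X ^ (ℓ * j)) = 0) :
    ∀ j < J, R j = 0 ∧ S j = 0 := by
  induction J generalizing R S with
  | zero => intro j hj; omega
  | succ J ih =>
    have e : ∀ U : ℕ → (ZMod ℓ)[X], ∑ j ∈ Finset.range (J + 1), U j * X ^ (ℓ * j) =
        U 0 + X ^ ℓ * ∑ j ∈ Finset.range J, U (j + 1) * X ^ (ℓ * j) := by
      intro U
      rw [Finset.sum_range_succ', Finset.mul_sum, add_comm]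
      congr 1
      · simp
      · refine Finset.sum_congr rfl (fun j _ => ?_)
        rw [mul_add, pow_add, mul_one]; ring
    rw [e R, e S] at h
    obtain ⟨h1, h2⟩ := s1_low r ℓ hr hrℓ f v B hv hf0 hf hB _ _ _ _ (hR 0) (hS 0) h
    rw [h1, h2, zero_add, zero_add] at h
    have h3 : (X ^ ℓ : (ZMod ℓ)[X]) * ((∑ j ∈ Finset.range J, R (j + 1) * X ^ (ℓ * j)) +
        f ^ ((ℓ - 1) / r) * ∑ j ∈ Finset.range J, S (j + 1) * X ^ (ℓ * j)) = 0 := by
      rw [← h]; ring
    rw [mul_eq_zero] at h3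
    rcases h3 with h3 | h3
    · exact absurd h3 (pow_ne_zero _ X_ne_zero)
    · have h4 := ih (fun j => R (j + 1)) (fun j => S (j + 1)) (fun j => hR _) (fun j => hS _) h3
      intro j hj
      rcases Nat.eq_zero_or_pos j with rfl | hj0
      · exact ⟨h1, h2⟩
      · obtain ⟨i, rfl⟩ : ∃ i, j = i + 1 := ⟨j - 1, by omega⟩
        exact h4 i (by omega)

/-- the linear algebra: existence of the auxiliary coefficients -/
theorem s1_exists {K : Type*} [Field K] (f : K[X]) (v J B q : ℕ) (hv : f.natDegree ≤ v)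
    (hJ : 1 ≤ J) (hB : 2 * J ^ 2 * (v + 1) ≤ B) :
    ∃ R S : ℕ → K[X], (∀ j, (R j).natDegree ≤ B) ∧ (∀ j, (S j).natDegree ≤ B) ∧
      (∃ j < J, ¬ (R j = 0 ∧ S j = 0)) ∧
      ∀ k < 2 * J - 1, ∑ j ∈ Finset.range J,
        (s1_T f (2 * J - 1) k (R j) + s1_T f (2 * J - 1 + q) k (S j)) * X ^ j = 0 := by
  classical
  set M := 2 * J - 1 with hM
  let V := degreeLT K (B + 1)
  let P : ℕ → ((Fin J → V) × (Fin J → V)) →ₗ[K] K[X] := fun k =>
    ∑ j : Fin J, (LinearMap.mulRight K (X ^ (j : ℕ) : K[X])) ∘ₗ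
      ((s1_T f M k) ∘ₗ V.subtype ∘ₗ (LinearMap.proj j) ∘ₗ LinearMap.fst K _ _ +
       (s1_T f (M + q) k) ∘ₗ V.subtype ∘ₗ (LinearMap.proj j) ∘ₗ LinearMap.snd K _ _)
  let L : ((Fin J → V) × (Fin J → V)) →ₗ[K] ((Σ k : Fin M, Fin (B + k * v + J)) → K) :=
    LinearMap.pi (fun i => (lcoeff K (i.2 : ℕ)) ∘ₗ P i.1)
  have hPz : ∀ k z, P k z = ∑ j : Fin J,
      (s1_T f M k (z.1 j : K[X]) + s1_T f (M + q) k (z.2 j : K[X])) * X ^ (j : ℕ) := by
    intro k z
    simp [P, LinearMap.sum_apply]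
  have hV : Module.finrank K V = B + 1 := by
    rw [LinearEquiv.finrank_eq (degreeLTEquiv K (B + 1))]
    simp
  have hfin : Module.Finite K V := Module.Finite.equiv (degreeLTEquiv K (B + 1)).symm
  have hdom : Module.finrank K ((Fin J → V) × (Fin J → V)) = J * (B + 1) + J * (B + 1) := by
    rw [Module.finrank_prod, Module.finrank_pi_fintype]
    simp [hV]
  have hcod : Module.finrank K ((Σ k : Fin M, Fin (B + k * v + J)) → K) =
      M * (B + J) + v * (M * (M - 1) / 2) := by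
    rw [Module.finrank_fintype_fun_eq_card, Fintype.card_sigma]
    simp only [Fintype.card_fin]
    rw [Fin.sum_univ_eq_sum_range (fun k => B + k * v + J) M]
    rw [← Finset.sum_range_id]
    simp only [Finset.sum_add_distrib, Finset.sum_const, Finset.card_range, smul_eq_mul,
      ← Finset.sum_mul]
    simp only [Finset.sum_range_id]
    ring
  have hlt : Module.finrank K ((Σ k : Fin M, Fin (B + k * v + J)) → K) <
      Module.finrank K ((Fin J → V) × (Fin J → V)) := by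
    rw [hdom, hcod]
    obtain ⟨i, rfl⟩ : ∃ i, J = i + 1 := ⟨J - 1, by omega⟩
    have hM' : M = 2 * i + 1 := by omega
    have h1 : M * (M - 1) / 2 = (2 * i + 1) * i := by
      rw [hM', show (2 * i + 1) * (2 * i + 1 - 1) = ((2 * i + 1) * i) * 2 by
        rw [Nat.add_sub_cancel]; ring]
      exact Nat.mul_div_cancel _ (by norm_num)
    rw [h1, hM']
    nlinarith [Nat.zero_le (i * v), Nat.zero_le v, Nat.zero_le i, Nat.zero_le (i ^ 2 * v)]
  obtain ⟨z, hz, hz0⟩ : ∃ z ∈ LinearMap.ker L, z ≠ 0 :=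
    Submodule.exists_mem_ne_zero_of_ne_bot (LinearMap.ker_ne_bot_of_finrank_lt hlt)
  have hVdeg : ∀ u : V, (u : K[X]).natDegree ≤ B := by
    intro u
    have h1 := u.2
    rw [mem_degreeLT] at h1
    rcases eq_or_ne (u : K[X]) 0 with h2 | h2
    · rw [h2]; simp
    · have h3 := (natDegree_lt_iff_degree_lt h2).mpr h1
      omega
  refine ⟨fun j => if h : j < J then (z.1 ⟨j, h⟩ : K[X]) else 0,
    fun j => if h : j < J then (z.2 ⟨j, h⟩ : K[X]) else 0, ?_, ?_, ?_, ?_⟩
  · intro j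
    by_cases h : j < J
    · simp only [h, dif_pos]; exact hVdeg _
    · simp [h]
  · intro j
    by_cases h : j < J
    · simp only [h, dif_pos]; exact hVdeg _
    · simp [h]
  · by_contra hcon
    push Not at hcon
    apply hz0
    refine Prod.ext ?_ ?_
    · funext j
      have := (hcon j j.2).1
      simp only [j.2, dif_pos] at this
      exact Subtype.ext this
    · funext j
      have := (hcon j j.2).2
      simp only [j.2, dif_pos] at this
      exact Subtype.ext this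
  · intro k hk
    have h1 : P k z = 0 := by
      ext i
      rw [coeff_zero]
      by_cases hi : i < B + k * v + J
      · have h2 := congrFun (LinearMap.mem_ker.mp hz) ⟨⟨k, hk⟩, ⟨i, hi⟩⟩
        simpa [L] using h2
      · apply coeff_eq_zero_of_natDegree_lt
        have h2 : (P k z).natDegree ≤ B + k * v + (J - 1) := by
          rw [hPz]
          refine natDegree_sum_le_of_forall_le _ _ (fun j _ => ?_)
          refine (natDegree_mul_le_of_le (m := B + k * v) (n := J - 1) ?_ ?_)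
          · refine natDegree_add_le_of_degree_le ?_ ?_
            · exact (s1_T_deg f v hv _ _ _).trans (Nat.add_le_add_right (hVdeg _) _)
            · exact (s1_T_deg f v hv _ _ _).trans (Nat.add_le_add_right (hVdeg _) _)
          · rw [natDegree_X_pow]
            have := j.2
            omega
        omega
    rw [hPz] at h1
    refine Eq.trans ?_ h1
    rw [← Fin.sum_univ_eq_sum_range (fun j => (s1_T f M k
      (if h : j < J then (z.1 ⟨j, h⟩ : K[X]) else 0) + s1_T f (M + q) k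
      (if h : j < J then (z.2 ⟨j, h⟩ : K[X]) else 0)) * X ^ j) J]
    refine Finset.sum_congr rfl (fun j _ => ?_)
    simp [j.2]

/-- Stepanov's bound for `f(0) ≠ 0` -/
theorem s1_main (r ℓ : ℕ) [Fact ℓ.Prime] (hr : 2 ≤ r) (hrℓ : r ∣ ℓ - 1) (f : (ZMod ℓ)[X])
    (v J : ℕ) (hv : f.natDegree ≤ v) (hf0 : f.eval 0 ≠ 0)
    (hf : ¬ ∃ (c : ZMod ℓ) (W : (ZMod ℓ)[X]), f = C c * W ^ r) (hJ : 1 ≤ J)
    (hℓ : r * (2 * J ^ 2 * (v + 1)) + v + 1 ≤ ℓ) :
    (2 * J - 1) * (Finset.univ.filter (fun x : ZMod ℓ => f.eval x ^ ((ℓ - 1) / r) = 1)).card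
      ≤ (2 * J - 1) * v + (v + 1) * ℓ + (J - 1) * ℓ := by
  classical
  have hp : ℓ.Prime := Fact.out
  set q := (ℓ - 1) / r with hq
  set B := 2 * J ^ 2 * (v + 1) with hB
  set M := 2 * J - 1 with hM
  obtain ⟨R, S, hR, hS, ⟨j0, hj0, hne⟩, hrel⟩ := s1_exists f v J B q hv hJ le_rfl
  have hf' : f ≠ 0 := by rintro rfl; simp at hf0
  set R' := ∑ j ∈ Finset.range J, R j * X ^ (ℓ * j) with hR'
  set S' := ∑ j ∈ Finset.range J, S j * X ^ (ℓ * j) with hS'
  set H := f ^ M * R' + f ^ (M + q) * S' with hH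
  have hH0 : H ≠ 0 := by
    intro h0
    have h1 : f ^ M * (R' + f ^ q * S') = 0 := by
      rw [← h0, hH, pow_add]; ring
    rw [mul_eq_zero] at h1
    rcases h1 with h1 | h1
    · exact pow_ne_zero _ hf' h1
    · exact hne (s1_indep r ℓ hr hrℓ f v B hv hf0 hf (by omega) J R S hR hS h1 j0 hj0)
  have hder : ∀ j : ℕ, derivative (X ^ (ℓ * j) : (ZMod ℓ)[X]) = 0 := by
    intro j
    rw [derivative_X_pow]
    simp
  -- the vanishing
  have hvan : ∀ x : ZMod ℓ, f.eval x ^ q = 1 → ∀ k ≤ M - 1, (derivative^[k] H).IsRoot x := by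
    intro x hx k hk
    have hkM : k < M := by omega
    have h1 : derivative^[k] H = f ^ (M - k) * s1_T f M k R' +
        f ^ (M + q - k) * s1_T f (M + q) k S' := by
      rw [hH, iterate_map_add, s1_iter f M k (by omega), s1_iter f (M + q) k (hkM.le.trans (Nat.le_add_right _ _))]
    have hTsum : ∀ (n : ℕ) (U : ℕ → (ZMod ℓ)[X]),
        (s1_T f n k (∑ j ∈ Finset.range J, U j * X ^ (ℓ * j))).eval x =
          ∑ j ∈ Finset.range J, (s1_T f n k (U j)).eval x * x ^ j := by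
      intro n U
      rw [map_sum, eval_finsetSum]
      refine Finset.sum_congr rfl (fun j _ => ?_)
      rw [s1_T_mul f n k _ _ (hder j), eval_mul, eval_pow, eval_X, pow_mul, ZMod.pow_card]
    have h2 : M + q - k = q + (M - k) := by
      have hgen : ∀ a b c : ℕ, c ≤ a → a + b - c = b + (a - c) := by omega
      exact hgen M q k (by omega)
    show (derivative^[k] H).eval x = 0
    rw [h1, eval_add, eval_mul, eval_mul, hR', hS', hTsum, hTsum, eval_pow, eval_pow, h2, pow_add,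
      hx, one_mul, ← mul_add, ← Finset.sum_add_distrib]
    have h3 := congrArg (eval x) (hrel k hkM)
    rw [eval_finsetSum, eval_zero] at h3
    have h4 : ∑ j ∈ Finset.range J, ((s1_T f M k (R j)).eval x * x ^ j +
        (s1_T f (M + q) k (S j)).eval x * x ^ j) = 0 := by
      rw [← h3]
      refine Finset.sum_congr rfl (fun j _ => ?_)
      rw [eval_mul, eval_add, eval_pow, eval_X]; ring
    rw [h4, mul_zero]
  -- multiplicities
  have hMℓ : M ≤ ℓ := by
    have h1 : 2 * J ≤ 2 * J ^ 2 * (v + 1) := by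
      have : J ≤ J ^ 2 := by nlinarith
      nlinarith
    have h2 : B ≤ r * B := Nat.le_mul_of_pos_left _ (by omega)
    omega
  have hmult : ∀ x ∈ Finset.univ.filter (fun x : ZMod ℓ => f.eval x ^ q = 1),
      M ≤ H.rootMultiplicity x := by
    intro x hx
    simp only [Finset.mem_filter, Finset.mem_univ, true_and] at hx
    have h1 := lt_rootMultiplicity_of_isRoot_iterate_derivative_of_mem_nonZeroDivisors
      (n := M - 1) hH0 (hvan x hx) (by
        rw [mem_nonZeroDivisors_iff_ne_zero]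
        intro h0
        rw [ZMod.natCast_eq_zero_iff, hp.dvd_factorial] at h0
        omega)
    omega
  have hcard : M * (Finset.univ.filter (fun x : ZMod ℓ => f.eval x ^ q = 1)).card ≤
      H.natDegree := by
    calc M * (Finset.univ.filter (fun x : ZMod ℓ => f.eval x ^ q = 1)).card
        = ∑ x ∈ Finset.univ.filter (fun x : ZMod ℓ => f.eval x ^ q = 1), M := by
          rw [Finset.sum_const, smul_eq_mul, mul_comm]
      _ ≤ ∑ x ∈ Finset.univ.filter (fun x : ZMod ℓ => f.eval x ^ q = 1), H.roots.count x := by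
          refine Finset.sum_le_sum (fun x hx => ?_)
          rw [count_roots]; exact hmult x hx
      _ ≤ ∑ x : ZMod ℓ, H.roots.count x :=
          Finset.sum_le_sum_of_subset (Finset.subset_univ _)
      _ = H.roots.card := by
          rw [Multiset.sum_count_eq_card]
          intro x _
          exact Finset.mem_univ _
      _ ≤ H.natDegree := card_roots' H
  refine hcard.trans ?_
  -- the degree of `H`
  have hsum : ∀ U : ℕ → (ZMod ℓ)[X], (∀ j, (U j).natDegree ≤ B) →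
      (∑ j ∈ Finset.range J, U j * X ^ (ℓ * j)).natDegree ≤ B + ℓ * (J - 1) := by
    intro U hU
    refine natDegree_sum_le_of_forall_le _ _ (fun j hj => ?_)
    have hj' := Finset.mem_range.mp hj
    refine natDegree_mul_le_of_le (hU j) ?_
    rw [natDegree_X_pow]
    exact Nat.mul_le_mul_left _ (by omega)
  have hfM : ∀ n, (f ^ n).natDegree ≤ n * v := fun n => natDegree_pow_le_of_le n hv
  have hqℓ : q ≤ ℓ := (Nat.div_le_self _ _).trans (Nat.sub_le _ _)
  have hBℓ : B ≤ ℓ := by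
    have h2 : B ≤ r * B := Nat.le_mul_of_pos_left _ (by omega)
    omega
  have hHd : H.natDegree ≤ (M + q) * v + (B + ℓ * (J - 1)) := by
    rw [hH]
    refine natDegree_add_le_of_degree_le ?_ ?_
    · refine (natDegree_mul_le_of_le (hfM M) (hsum R hR)).trans ?_
      exact Nat.add_le_add_right (Nat.mul_le_mul_right _ (Nat.le_add_right _ _)) _
    · exact natDegree_mul_le_of_le (hfM (M + q)) (hsum S hS)
  calc H.natDegree ≤ (M + q) * v + (B + ℓ * (J - 1)) := hHd
    _ = M * v + (q * v + B) + ℓ * (J - 1) := by ring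
    _ ≤ M * v + (ℓ * v + ℓ) + ℓ * (J - 1) := by
        have := Nat.mul_le_mul_right v hqℓ
        omega
    _ = M * v + (v + 1) * ℓ + (J - 1) * ℓ := by ring

/-- At most about half of the residue classes `x` satisfy `f(x)^((ℓ-1)/r) = 1` if `f` is not a
constant times an `r`-th power. -/
theorem stepanov (r ℓ : ℕ) [Fact ℓ.Prime] (hr : 2 ≤ r) (hrℓ : r ∣ ℓ - 1) (f : (ZMod ℓ)[X])
    (v J : ℕ) (hv : f.natDegree ≤ v)
    (hf : ¬ ∃ (c : ZMod ℓ) (W : (ZMod ℓ)[X]), f = C c * W ^ r) (hJ : 1 ≤ J)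
    (hℓ : r * (2 * J ^ 2 * (v + 1)) + v + 1 ≤ ℓ) :
    (2 * J - 1) * (Finset.univ.filter (fun x : ZMod ℓ => f.eval x ^ ((ℓ - 1) / r) = 1)).card
      ≤ (2 * J - 1) * v + (v + 1) * ℓ + (J - 1) * ℓ := by
  classical
  have hp : ℓ.Prime := Fact.out
  have hf' : f ≠ 0 := by
    rintro rfl
    exact hf ⟨0, 1, by simp⟩
  -- a point where `f` does not vanish
  obtain ⟨a, ha⟩ : ∃ a : ZMod ℓ, f.eval a ≠ 0 := by
    by_contra hcon
    push Not at hcon
    apply hf'
    refine eq_zero_of_natDegree_lt_card_of_eval_eq_zero' f Finset.univ (fun a _ => hcon a) ?_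
    rw [Finset.card_univ, ZMod.card]
    omega
  set f' := f.comp (X + C a) with hfc
  have h1 : f'.natDegree ≤ v := by
    rw [hfc, natDegree_comp, natDegree_X_add_C, mul_one]; exact hv
  have h2 : f'.eval 0 ≠ 0 := by
    rw [hfc, eval_comp]; simpa using ha
  have h3 : ¬ ∃ (c : ZMod ℓ) (W : (ZMod ℓ)[X]), f' = C c * W ^ r := by
    rintro ⟨c, W, hW⟩
    apply hf
    refine ⟨c, W.comp (X - C a), ?_⟩
    have h4 : f'.comp (X - C a) = f := by
      rw [hfc, comp_assoc]
      simp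
    rw [← h4, hW]
    simp
  have h4 := s1_main r ℓ hr hrℓ f' v J h1 h2 h3 hJ hℓ
  have h5 : (Finset.univ.filter (fun x : ZMod ℓ => f.eval x ^ ((ℓ - 1) / r) = 1)).card =
      (Finset.univ.filter (fun x : ZMod ℓ => f'.eval x ^ ((ℓ - 1) / r) = 1)).card := by
    symm
    refine Finset.card_bij (fun x _ => x + a) ?_ ?_ ?_
    · intro x hx
      simp only [Finset.mem_filter, Finset.mem_univ, true_and] at hx ⊢
      rw [hfc, eval_comp] at hx
      simpa using hx
    · intro x _ y _ hxy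
      exact add_right_cancel hxy
    · intro y hy
      simp only [Finset.mem_filter, Finset.mem_univ, true_and] at hy
      refine ⟨y - a, ?_, by ring⟩
      simp only [Finset.mem_filter, Finset.mem_univ, true_and]
      rw [hfc, eval_comp]
      simpa using hy
  rw [h5]
  exact h4

end LibHU
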