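import Mathlib

/-! Gallagher's larger sieve. -/

set_option autoImplicit false

namespace LibHU

/-- the contribution of a pair of distinct elements -/
private lemma s2_pair (P : Finset ℕ) (hP : ∀ p ∈ P, p.Prime) (N : ℝ) (d : ℤ) (hd : d ≠ 0)
    (hdN : |(d : ℝ)| ≤ N) :
    ∑ p ∈ P.filter (fun p : ℕ => (p : ℤ) ∣ d), Real.log p ≤ Real.log N := by
  have h1 : (∏ p ∈ P.filter (fun p : ℕ => (p : ℤ) ∣ d), p) ∣ d.natAbs := by
    apply Finset.prod_primes_dvd
    · intro p hp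
      simp only [Finset.mem_filter] at hp
      exact (hP p hp.1).prime
    · intro p hp
      simp only [Finset.mem_filter] at hp
      exact Int.natCast_dvd.mp hp.2
  have h2 : (∏ p ∈ P.filter (fun p : ℕ => (p : ℤ) ∣ d), p) ≤ d.natAbs :=
    Nat.le_of_dvd (Int.natAbs_pos.mpr hd) h1
  have h3 : ∑ p ∈ P.filter (fun p : ℕ => (p : ℤ) ∣ d), Real.log p =
      Real.log (∏ p ∈ P.filter (fun p : ℕ => (p : ℤ) ∣ d), (p : ℝ)) := by
    rw [Real.log_prod]
    intro p hp
    simp only [Finset.mem_filter] at hp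
    exact_mod_cast (hP p hp.1).ne_zero
  rw [h3]
  have hpos : (0 : ℝ) < ∏ p ∈ P.filter (fun p : ℕ => (p : ℤ) ∣ d), (p : ℝ) := by
    apply Finset.prod_pos
    intro p hp
    simp only [Finset.mem_filter] at hp
    exact_mod_cast (hP p hp.1).pos
  apply Real.log_le_log hpos
  refine le_trans ?_ hdN
  have h4 : ((∏ p ∈ P.filter (fun p : ℕ => (p : ℤ) ∣ d), p : ℕ) : ℝ) ≤ (d.natAbs : ℝ) := by
    exact_mod_cast h2
  rw [Nat.cast_natAbs, Int.cast_abs] at h4
  push_cast at h4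
  exact h4

/-- Cauchy-Schwarz for the number of congruent pairs -/
private lemma s2_cs (S : Finset ℤ) (hne : S.Nonempty) (p : ℕ) (ν : ℝ) (hν : 0 < ν)
    (hcard : ((S.image (fun s : ℤ => (s : ZMod p))).card : ℝ) ≤ ν) :
    (S.card : ℝ) ^ 2 / ν ≤
      ∑ s ∈ S, ((S.filter (fun s' : ℤ => (p : ℤ) ∣ s - s')).card : ℝ) := by
  classical
  have h0 : ∀ s ∈ S, ((S.filter (fun s' : ℤ => (p : ℤ) ∣ s - s')).card : ℝ) =
      (fun c : ZMod p => ((S.filter (fun s' : ℤ => (s' : ZMod p) = c)).card : ℝ)) (s : ZMod p) := by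
    intro s _
    simp only
    congr 2
    ext s'
    simp only [Finset.mem_filter, and_congr_right_iff]
    intro _
    exact (ZMod.intCast_eq_intCast_iff_dvd_sub s' s p).symm
  rw [Finset.sum_congr rfl h0]
  rw [Finset.sum_comp (fun c : ZMod p => ((S.filter (fun s' : ℤ => (s' : ZMod p) = c)).card : ℝ))
    (fun s : ℤ => (s : ZMod p))]
  have h1 : (S.card : ℝ) = ∑ c ∈ S.image (fun s : ℤ => (s : ZMod p)),
      ((S.filter (fun s' : ℤ => (s' : ZMod p) = c)).card : ℝ) := by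
    have := Finset.card_eq_sum_card_image (fun s : ℤ => (s : ZMod p)) S
    exact_mod_cast this
  have h2 := sq_sum_le_card_mul_sum_sq (s := S.image (fun s : ℤ => (s : ZMod p)))
    (f := fun c => ((S.filter (fun s' : ℤ => (s' : ZMod p) = c)).card : ℝ))
  rw [← h1] at h2
  have h3 : ∑ c ∈ S.image (fun s : ℤ => (s : ZMod p)),
      (S.filter (fun s' : ℤ => (s' : ZMod p) = c)).card •
        ((S.filter (fun s' : ℤ => (s' : ZMod p) = c)).card : ℝ) =
      ∑ c ∈ S.image (fun s : ℤ => (s : ZMod p)),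
        ((S.filter (fun s' : ℤ => (s' : ZMod p) = c)).card : ℝ) ^ 2 := by
    refine Finset.sum_congr rfl ?_
    intro c _
    rw [nsmul_eq_mul, sq]
  rw [h3, div_le_iff₀ hν]
  have h4 : (0 : ℝ) ≤ ∑ c ∈ S.image (fun s : ℤ => (s : ZMod p)),
        ((S.filter (fun s' : ℤ => (s' : ZMod p) = c)).card : ℝ) ^ 2 :=
    Finset.sum_nonneg (fun _ _ => sq_nonneg _)
  rw [mul_comm]
  exact h2.trans (mul_le_mul_of_nonneg_right hcard h4)

/-- Gallagher's larger sieve. -/
theorem larger_sieve (S : Finset ℤ) (N : ℝ) (hN : 1 ≤ N)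
    (hS : ∀ s ∈ S, ∀ s' ∈ S, |((s - s' : ℤ) : ℝ)| ≤ N) (P : Finset ℕ) (hP : ∀ p ∈ P, p.Prime)
    (ν : ℕ → ℝ) (hν : ∀ p ∈ P, 0 < ν p)
    (hcard : ∀ p ∈ P, ((S.image (fun s : ℤ => (s : ZMod p))).card : ℝ) ≤ ν p) :
    (S.card : ℝ) * (∑ p ∈ P, Real.log p / ν p - Real.log N) ≤ ∑ p ∈ P, Real.log p := by
  classical
  have hlog : ∀ p ∈ P, 0 ≤ Real.log p := by
    intro p hp
    apply Real.log_nonneg
    exact_mod_cast (hP p hp).one_lt.le
  have hsum0 : 0 ≤ ∑ p ∈ P, Real.log p := Finset.sum_nonneg hlog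
  rcases S.eq_empty_or_nonempty with hS0 | hne
  · rw [hS0]; simpa using hsum0
  have hlogN : 0 ≤ Real.log N := Real.log_nonneg hN
  have hcpos : (0 : ℝ) < S.card := by exact_mod_cast hne.card_pos
  -- lower bound
  have h1 : (S.card : ℝ) ^ 2 * ∑ p ∈ P, Real.log p / ν p ≤
      ∑ p ∈ P, Real.log p * ∑ s ∈ S, ((S.filter (fun s' : ℤ => (p : ℤ) ∣ s - s')).card : ℝ) := by
    rw [Finset.mul_sum]
    refine Finset.sum_le_sum ?_
    intro p hp
    have h2 := s2_cs S hne p (ν p) (hν p hp) (hcard p hp)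
    calc (S.card : ℝ) ^ 2 * (Real.log p / ν p) = Real.log p * ((S.card : ℝ) ^ 2 / ν p) := by ring
      _ ≤ _ := mul_le_mul_of_nonneg_left h2 (hlog p hp)
  -- rearrangement
  have h3 : ∑ p ∈ P, Real.log p * ∑ s ∈ S, ((S.filter (fun s' : ℤ => (p : ℤ) ∣ s - s')).card : ℝ) =
      ∑ s ∈ S, ∑ s' ∈ S, ∑ p ∈ P.filter (fun p : ℕ => (p : ℤ) ∣ s - s'), Real.log p := by
    have h4 : ∀ p : ℕ, Real.log p * ∑ s ∈ S, ((S.filter (fun s' : ℤ => (p : ℤ) ∣ s - s')).card : ℝ) =
        ∑ s ∈ S, ∑ s' ∈ S, (if (p : ℤ) ∣ s - s' then Real.log p else 0) := by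
      intro p
      rw [Finset.mul_sum]
      refine Finset.sum_congr rfl ?_
      intro s _
      rw [← Finset.sum_filter, Finset.sum_const, nsmul_eq_mul, mul_comm]
    rw [Finset.sum_congr rfl (fun p _ => h4 p), Finset.sum_comm]
    refine Finset.sum_congr rfl ?_
    intro s _
    rw [Finset.sum_comm]
    refine Finset.sum_congr rfl ?_
    intro s' _
    rw [Finset.sum_filter]
  have h5 : ∀ s ∈ S, ∑ s' ∈ S, ∑ p ∈ P.filter (fun p : ℕ => (p : ℤ) ∣ s - s'), Real.log p ≤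
      ∑ p ∈ P, Real.log p + S.card * Real.log N := by
    intro s hs
    rw [← Finset.add_sum_erase S _ hs]
    apply add_le_add
    · exact Finset.sum_le_sum_of_subset_of_nonneg (Finset.filter_subset _ _)
        (fun p hp _ => hlog p hp)
    · calc _ ≤ ∑ s' ∈ S.erase s, Real.log N := by
            refine Finset.sum_le_sum ?_
            intro s' hs'
            have h6 := Finset.ne_of_mem_erase hs'
            have h7 := Finset.mem_of_mem_erase hs'
            exact s2_pair P hP N (s - s') (sub_ne_zero.mpr (Ne.symm h6)) (hS s hs s' h7)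
        _ = ((S.erase s).card : ℝ) * Real.log N := by rw [Finset.sum_const, nsmul_eq_mul]
        _ ≤ (S.card : ℝ) * Real.log N := by
            apply mul_le_mul_of_nonneg_right _ hlogN
            exact_mod_cast Finset.card_le_card (Finset.erase_subset s S)
  have h8 : (S.card : ℝ) ^ 2 * ∑ p ∈ P, Real.log p / ν p ≤
      S.card * (∑ p ∈ P, Real.log p + S.card * Real.log N) := by
    rw [h3] at h1
    refine h1.trans ((Finset.sum_le_sum h5).trans ?_)
    rw [Finset.sum_const, nsmul_eq_mul]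
  have h9 : (S.card : ℝ) * ((S.card : ℝ) * (∑ p ∈ P, Real.log p / ν p - Real.log N)) ≤
      S.card * ∑ p ∈ P, Real.log p := by
    have e1 : (S.card : ℝ) * ((S.card : ℝ) * (∑ p ∈ P, Real.log p / ν p - Real.log N)) =
      (S.card : ℝ) ^ 2 * ∑ p ∈ P, Real.log p / ν p - (S.card : ℝ) ^ 2 * Real.log N := by ring
    have e2 : (S.card : ℝ) * (∑ p ∈ P, Real.log p + S.card * Real.log N) =
      S.card * ∑ p ∈ P, Real.log p + (S.card : ℝ) ^ 2 * Real.log N := by ring
    rw [e1]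
    rw [e2] at h8
    linarith
  exact le_of_mul_le_mul_left h9 hcpos

end LibHU
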