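import Mathlib
import Pool.Agent.LibPNT.PNT

/-! The sum of `log p / p` over the primes in an arithmetic progression, from below. -/

set_option autoImplicit false

open Filter

namespace LibHU

theorem mertens_AP (q : ℕ) [NeZero q] (a : ZMod q) (ha : IsUnit a) (c : ℝ)
    (hc : c < (q.totient : ℝ)⁻¹) : ∃ K : ℝ, ∀ x y : ℝ, 1 ≤ x → x ≤ y →
    c * (Real.log y - Real.log x) - K
      ≤ ∑ p ∈ (Finset.Icc 1 ⌊y⌋₊).filter
          (fun p : ℕ => p.Prime ∧ (p : ZMod q) = a ∧ x < (p : ℝ)), Real.log p / p := by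
  classical
  rcases le_or_gt c 0 with hc0 | hc0
  · refine ⟨0, fun x y hx hxy => ?_⟩
    have h1 : c * (Real.log y - Real.log x) - 0 ≤ 0 := by
      have : 0 ≤ Real.log y - Real.log x :=
        sub_nonneg.mpr (Real.log_le_log (by linarith) hxy)
      nlinarith
    refine h1.trans (Finset.sum_nonneg fun p hp => ?_)
    exact div_nonneg (Real.log_natCast_nonneg p) (Nat.cast_nonneg p)
  -- the weights
  let w : ℕ → ℝ := fun n => if n.Prime ∧ (n : ZMod q) = a then Real.log n else 0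
  have hw : ∀ n, 0 ≤ w n := by
    intro n
    simp only [w]
    split_ifs
    · exact Real.log_natCast_nonneg n
    · exact le_rfl
  let A : ℕ → ℝ := fun n => ∑ m ∈ Finset.Icc 1 n, w m
  let G : ℕ → ℝ := fun n => ∑ m ∈ Finset.Icc 1 n, w m / m
  have hA0 : ∀ n, 0 ≤ A n := fun n => Finset.sum_nonneg fun m _ => hw m
  have hAs : ∀ n, A (n + 1) = A n + w (n + 1) := by
    intro n
    simp only [A]
    rw [Finset.sum_Icc_succ_top (by omega)]
  have hGs : ∀ n, G (n + 1) = G n + w (n + 1) / ((n : ℝ) + 1) := by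
    intro n
    simp only [G]
    rw [Finset.sum_Icc_succ_top (by omega)]
    push_cast
    rfl
  have hAt : ∀ n : ℕ, A n = Pool.Agent.LibPNT.thetaAP a (n : ℝ) := by
    intro n
    simp only [A, Pool.Agent.LibPNT.thetaAP, Nat.floor_natCast, w]
    rw [Finset.sum_filter]
  have hlim : Tendsto (fun n : ℕ => A n / n) atTop (nhds ((q.totient : ℝ)⁻¹)) := by
    have := (Pool.Agent.LibPNT.thetaAP_tendsto ha).comp (tendsto_natCast_atTop_atTop (R := ℝ))
    refine this.congr fun n => ?_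
    simp only [Function.comp_apply, hAt]
  obtain ⟨K1, hK1⟩ := hlim.bddAbove_range
  have hK1' : ∀ n : ℕ, A n / n ≤ K1 := fun n => hK1 ⟨n, rfl⟩
  obtain ⟨N, hN⟩ := (eventually_atTop.1 (hlim.eventually (lt_mem_nhds hc)))
  have hK0 : ∀ m : ℕ, 1 ≤ m → c * m - c * N ≤ A m := by
    intro m hm
    rcases le_or_gt N m with h | h
    · have h1 := hN m h
      have hm0 : (0 : ℝ) < m := by exact_mod_cast hm
      have h2 : c * m ≤ A m := by
        have := (lt_div_iff₀ hm0).mp h1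
        exact this.le
      have h3 : 0 ≤ c * N := by positivity
      linarith
    · have h1 : (m : ℝ) ≤ N := by exact_mod_cast h.le
      have h2 := hA0 m
      nlinarith
  -- the monotone quantity
  let Φ : ℕ → ℝ := fun n => G n - A n / n - c * Real.log (n + 1) - c * N / n
  have hΦ : ∀ n : ℕ, 1 ≤ n → Φ n ≤ Φ (n + 1) := by
    intro n hn
    have hn0 : (0 : ℝ) < n := by exact_mod_cast hn
    have hn1 : (0 : ℝ) < (n : ℝ) + 1 := by linarith
    have hlog : Real.log ((n : ℝ) + 1 + 1) - Real.log ((n : ℝ) + 1) ≤ 1 / ((n : ℝ) + 1) := by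
      rw [← Real.log_div (by linarith) hn1.ne']
      have := Real.log_le_sub_one_of_pos (x := ((n : ℝ) + 1 + 1) / ((n : ℝ) + 1)) (by positivity)
      refine this.trans (le_of_eq ?_)
      field_simp
      ring
    have hid : Φ (n + 1) - Φ n = A n / (n * (n + 1)) -
        c * (Real.log ((n : ℝ) + 1 + 1) - Real.log ((n : ℝ) + 1))
        + c * N * (1 / n - 1 / (n + 1)) := by
      simp only [Φ, hAs, hGs]
      push_cast
      field_simp
      ring
    have h1 : c / (n + 1) - c * N * (1 / n - 1 / (n + 1)) ≤ A n / (n * (n + 1)) := by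
      have h2 := hK0 n hn
      have h3 : c / (n + 1) - c * N * (1 / n - 1 / (n + 1)) = (c * n - c * N) / (n * (n + 1)) := by
        field_simp
        ring
      rw [h3]
      exact div_le_div_of_nonneg_right h2 (by positivity)
    have h4 : c * (Real.log ((n : ℝ) + 1 + 1) - Real.log ((n : ℝ) + 1)) ≤ c / (n + 1) := by
      calc c * (Real.log ((n : ℝ) + 1 + 1) - Real.log ((n : ℝ) + 1))
          ≤ c * (1 / ((n : ℝ) + 1)) := mul_le_mul_of_nonneg_left hlog hc0.le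
        _ = c / (n + 1) := by ring
    linarith
  have hΦm : ∀ m n : ℕ, 1 ≤ m → m ≤ n → Φ m ≤ Φ n := by
    intro m n hm hmn
    induction n, hmn using Nat.le_induction with
    | base => exact le_rfl
    | succ n hn ih => exact ih.trans (hΦ n (hm.trans hn))
  refine ⟨K1 + c * N + c * Real.log 2, fun x y hx hxy => ?_⟩
  have hX1 : 1 ≤ ⌊x⌋₊ := Nat.le_floor (by exact_mod_cast hx)
  have hXY : ⌊x⌋₊ ≤ ⌊y⌋₊ := Nat.floor_mono hxy
  have hsum : ∑ p ∈ (Finset.Icc 1 ⌊y⌋₊).filter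
      (fun p : ℕ => p.Prime ∧ (p : ZMod q) = a ∧ x < (p : ℝ)), Real.log p / p
      = G ⌊y⌋₊ - G ⌊x⌋₊ := by
    have h1 : G ⌊y⌋₊ = ∑ m ∈ (Finset.Icc 1 ⌊y⌋₊).filter (fun m => m ≤ ⌊x⌋₊), w m / m
        + ∑ m ∈ (Finset.Icc 1 ⌊y⌋₊).filter (fun m => ¬ m ≤ ⌊x⌋₊), w m / m :=
      (Finset.sum_filter_add_sum_filter_not _ _ _).symm
    have h2 : (Finset.Icc 1 ⌊y⌋₊).filter (fun m => m ≤ ⌊x⌋₊) = Finset.Icc 1 ⌊x⌋₊ := by
      ext m
      simp only [Finset.mem_filter, Finset.mem_Icc]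
      omega
    rw [h1, h2]
    have h3 : ∑ m ∈ (Finset.Icc 1 ⌊y⌋₊).filter (fun m => ¬ m ≤ ⌊x⌋₊), w m / m
        = ∑ p ∈ (Finset.Icc 1 ⌊y⌋₊).filter
      (fun p : ℕ => p.Prime ∧ (p : ZMod q) = a ∧ x < (p : ℝ)), Real.log p / p := by
      rw [Finset.sum_filter, Finset.sum_filter]
      refine Finset.sum_congr rfl fun m _ => ?_
      have h4 : x < (m : ℝ) ↔ ¬ m ≤ ⌊x⌋₊ := by
        rw [not_le, Nat.floor_lt (by linarith)]
      simp only [w]
      by_cases h5 : m.Prime ∧ (m : ZMod q) = a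
      · by_cases h6 : x < (m : ℝ)
        · rw [if_pos (h4.mp h6), if_pos h5, if_pos ⟨h5.1, h5.2, h6⟩]
        · rw [if_neg (fun h => h6 (h4.mpr h)), if_neg (fun h => h6 h.2.2)]
      · rw [if_neg h5, zero_div, ite_self, if_neg (fun h => h5 ⟨h.1, h.2.1⟩)]
    rw [← h3]
    simp only [G]
    ring
  rw [hsum]
  have hmono := hΦm ⌊x⌋₊ ⌊y⌋₊ hX1 hXY
  simp only [Φ] at hmono
  have hXr : (1 : ℝ) ≤ (⌊x⌋₊ : ℝ) := by exact_mod_cast hX1
  have hYr : (1 : ℝ) ≤ (⌊y⌋₊ : ℝ) := by exact_mod_cast hX1.trans hXY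
  have e1 : A ⌊x⌋₊ / (⌊x⌋₊ : ℝ) ≤ K1 := hK1' _
  have e2 : 0 ≤ A ⌊y⌋₊ / (⌊y⌋₊ : ℝ) := div_nonneg (hA0 _) (Nat.cast_nonneg _)
  have e3 : c * N / (⌊x⌋₊ : ℝ) ≤ c * N := div_le_self (by positivity) hXr
  have e4 : 0 ≤ c * N / (⌊y⌋₊ : ℝ) := by positivity
  have e5 : Real.log y ≤ Real.log ((⌊y⌋₊ : ℝ) + 1) :=
    Real.log_le_log (by linarith) (Nat.lt_floor_add_one y).le
  have e6 : Real.log ((⌊x⌋₊ : ℝ) + 1) ≤ Real.log x + Real.log 2 := by
    rw [← Real.log_mul (by linarith) (by norm_num)]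
    refine Real.log_le_log (by positivity) ?_
    have := Nat.floor_le (show (0 : ℝ) ≤ x by linarith)
    linarith
  have e7 := mul_le_mul_of_nonneg_left e5 hc0.le
  have e8 := mul_le_mul_of_nonneg_left e6 hc0.le
  nlinarith
end LibHU
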