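import Mathlib

/-! Reduction modulo primes of the property of not being a constant times an `r`-th power. -/

set_option autoImplicit false

open Polynomial

namespace LibHU

/-- A polynomial `V` over a field of characteristic zero with `r V W' = V' W`, `W ≠ 0`, is a
constant times `W^r`. -/
theorem eq_const_mul_pow {K : Type} [Field K] [CharZero K] (r : ℕ) (V W : K[X]) (hW : W ≠ 0)
    (h : (r : K[X]) * V * derivative W = derivative V * W) :
    ∃ c : K, V = C c * W ^ r := by
  classical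
  have hA0 : W ^ r ≠ 0 := pow_ne_zero r hW
  have hwr : W ^ r * derivative V = derivative (W ^ r) * V := by
    rcases Nat.eq_zero_or_pos r with h0 | h0
    · subst h0
      have h1 : derivative V * W = 0 := by rw [← h]; simp
      have h2 : derivative V = 0 := (mul_eq_zero.mp h1).resolve_right hW
      simp [h2]
    · obtain ⟨k, rfl⟩ : ∃ k, r = k + 1 := ⟨r - 1, by omega⟩
      rw [derivative_pow]
      simp only [Nat.add_sub_cancel]
      have h2 : W ^ (k + 1) * derivative V = W ^ k * (derivative V * W) := by ring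
      rw [h2, ← h]
      simp only [map_natCast]
      ring
  obtain ⟨g, a, b, hcop, hA, hV⟩ : ∃ g a b : K[X], IsCoprime a b ∧ W ^ r = g * a ∧ V = g * b := by
    obtain ⟨g, hg⟩ : ∃ g : K[X], g = EuclideanDomain.gcd (W ^ r) V := ⟨_, rfl⟩
    obtain ⟨a, ha⟩ := EuclideanDomain.gcd_dvd_left (W ^ r) V
    obtain ⟨b, hb⟩ := EuclideanDomain.gcd_dvd_right (W ^ r) V
    rw [← hg] at ha hb
    refine ⟨g, a, b, ?_, ha, hb⟩
    have hg0 : g ≠ 0 := by
      intro h0
      rw [h0, zero_mul] at ha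
      exact hA0 ha
    have hbez := EuclideanDomain.gcd_eq_gcd_ab (W ^ r) V
    rw [← hg] at hbez
    refine ⟨EuclideanDomain.gcdA (W ^ r) V, EuclideanDomain.gcdB (W ^ r) V, ?_⟩
    apply mul_left_cancel₀ hg0
    calc g * (EuclideanDomain.gcdA (W ^ r) V * a + EuclideanDomain.gcdB (W ^ r) V * b) =
        (g * a) * EuclideanDomain.gcdA (W ^ r) V + (g * b) * EuclideanDomain.gcdB (W ^ r) V := by
          ring
      _ = W ^ r * EuclideanDomain.gcdA (W ^ r) V + V * EuclideanDomain.gcdB (W ^ r) V := by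
          rw [← ha, ← hb]
      _ = g * 1 := by rw [← hbez, mul_one]
  have hg0 : g ≠ 0 := by
    intro h0
    rw [h0, zero_mul] at hA
    exact hA0 hA
  have ha0 : a ≠ 0 := by
    intro h0
    rw [h0, mul_zero] at hA
    exact hA0 hA
  have hw : wronskian a b = 0 := by
    unfold wronskian
    have h3 : g ^ 2 * (a * derivative b - derivative a * b) = 0 := by
      rw [hA, hV] at hwr
      simp only [derivative_mul] at hwr
      linear_combination hwr
    rcases mul_eq_zero.mp h3 with h4 | h4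
    · exact absurd (pow_eq_zero_iff (by norm_num) |>.mp h4) hg0
    · exact h4
  obtain ⟨h5, h6⟩ := (hcop.wronskian_eq_zero_iff).mp hw
  have h7 := Polynomial.eq_C_of_derivative_eq_zero h5
  have h8 := Polynomial.eq_C_of_derivative_eq_zero h6
  have h9 : a.coeff 0 ≠ 0 := by
    intro h0
    rw [h0, C_0] at h7
    exact ha0 h7
  refine ⟨b.coeff 0 / a.coeff 0, ?_⟩
  rw [hA, hV]
  rw [h7, h8]
  simp only [coeff_C_zero]
  have : C (b.coeff 0 / a.coeff 0) * (g * C (a.coeff 0)) =
      g * C (b.coeff 0 / a.coeff 0 * a.coeff 0) := by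
    rw [C_mul]; ring
  rw [this, div_mul_cancel₀ _ h9]

/-- the operator `W ↦ r V W' - V' W` -/
noncomputable def s4L {R : Type} [CommRing R] (r : ℕ) (V W : R[X]) : R[X] :=
  (r : R[X]) * V * derivative W - derivative V * W

/-- its matrix -/
noncomputable def s4M {R : Type} [CommRing R] (r v : ℕ) (V : R[X]) :
    Matrix (Fin (2 * v + 1)) (Fin (v + 1)) R :=
  fun i j => (s4L r V (X ^ (j : ℕ))).coeff i

/-- polynomial with given coefficients -/
noncomputable def s4P {R : Type} [CommRing R] (v : ℕ) (w : Fin (v + 1) → R) : R[X] :=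
  ∑ j, C (w j) * X ^ (j : ℕ)

lemma s4P_coeff {R : Type} [CommRing R] (v : ℕ) (w : Fin (v + 1) → R) (j : Fin (v + 1)) :
    (s4P v w).coeff j = w j := by
  unfold s4P
  rw [finsetSum_coeff, Finset.sum_eq_single j]
  · simp
  · intro k _ hk
    rw [coeff_C_mul, coeff_X_pow, if_neg, mul_zero]
    intro h
    exact hk (Fin.ext h).symm
  · intro h; exact absurd (Finset.mem_univ j) h

lemma s4P_natDegree {R : Type} [CommRing R] (v : ℕ) (w : Fin (v + 1) → R) :
    (s4P v w).natDegree ≤ v := by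
  unfold s4P
  apply natDegree_sum_le_of_forall_le
  intro j _
  refine (natDegree_C_mul_X_pow_le _ _).trans ?_
  omega

lemma s4P_of_poly {R : Type} [CommRing R] (v : ℕ) (W : R[X]) (hW : W.natDegree ≤ v) :
    s4P v (fun j => W.coeff j) = W := by
  ext k
  by_cases hk : k < v + 1
  · have := s4P_coeff v (fun j : Fin (v + 1) => W.coeff j) ⟨k, hk⟩
    simpa using this
  · rw [coeff_eq_zero_of_natDegree_lt (by have := s4P_natDegree v (fun j : Fin (v + 1) => W.coeff j); omega),
      coeff_eq_zero_of_natDegree_lt (by omega)]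

lemma s4M_mulVec {R : Type} [CommRing R] (r v : ℕ) (V : R[X]) (w : Fin (v + 1) → R)
    (i : Fin (2 * v + 1)) :
    (s4M r v V).mulVec w i = (s4L r V (s4P v w)).coeff i := by
  have h1 : s4L r V (s4P v w) = ∑ j, C (w j) * s4L r V (X ^ (j : ℕ)) := by
    unfold s4L s4P
    rw [derivative_sum, Finset.mul_sum, Finset.mul_sum, ← Finset.sum_sub_distrib]
    refine Finset.sum_congr rfl ?_
    intro j _
    rw [derivative_C_mul]
    ring
  rw [h1, finsetSum_coeff]
  unfold Matrix.mulVec dotProduct s4M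
  refine Finset.sum_congr rfl ?_
  intro j _
  rw [coeff_C_mul, mul_comm]

lemma s4M_map {R S : Type} [CommRing R] [CommRing S] (f : R →+* S) (r v : ℕ) (V : R[X]) :
    s4M r v (V.map f) = (s4M r v V).map f := by
  ext i j
  simp only [Matrix.map_apply]
  unfold s4M
  rw [← coeff_map]
  congr 1
  unfold s4L
  rw [Polynomial.map_sub, Polynomial.map_mul, Polynomial.map_mul, Polynomial.map_mul,
    ← derivative_map, ← derivative_map]
  simp

lemma s4L_natDegree {R : Type} [CommRing R] (r v : ℕ) (V W : R[X]) (hV : V.natDegree ≤ v)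
    (hW : W.natDegree ≤ v) : (s4L r V W).natDegree ≤ 2 * v := by
  unfold s4L
  refine (natDegree_sub_le _ _).trans ?_
  apply max_le
  · refine natDegree_mul_le.trans ?_
    have h1 : ((r : R[X]) * V).natDegree ≤ v := by
      have : (r : R[X]) = C (r : R) := by simp
      rw [this]
      exact (natDegree_C_mul_le _ _).trans hV
    have h2 : (derivative W).natDegree ≤ v := (natDegree_derivative_le W).trans (by omega)
    omega
  · refine natDegree_mul_le.trans ?_
    have h2 : (derivative V).natDegree ≤ v := (natDegree_derivative_le V).trans (by omega)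
    omega

/-- a kernel vector of the matrix gives a polynomial in the kernel of the operator -/
lemma s4_ker {R : Type} [CommRing R] (r v : ℕ) (V : R[X]) (hV : V.natDegree ≤ v)
    (w : Fin (v + 1) → R) (h : (s4M r v V).mulVec w = 0) : s4L r V (s4P v w) = 0 := by
  ext i
  rw [coeff_zero]
  by_cases hi : i < 2 * v + 1
  · have := congrFun h ⟨i, hi⟩
    rw [s4M_mulVec] at this
    simpa using this
  · exact coeff_eq_zero_of_natDegree_lt (by
      have := s4L_natDegree r v V (s4P v w) hV (s4P_natDegree v w)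
      omega)

/-- the Gram determinant -/
noncomputable def s4I (r v : ℕ) (V : ℤ[X]) : ℤ :=
  ((s4M r v V).transpose * s4M r v V).det

lemma s4I_map {R : Type} [CommRing R] (f : ℤ →+* R) (r v : ℕ) (V : ℤ[X]) :
    f (s4I r v V) = ((s4M r v (V.map f)).transpose * s4M r v (V.map f)).det := by
  unfold s4I
  rw [RingHom.map_det, s4M_map]
  congr 1
  ext i j
  simp [Matrix.mul_apply]

lemma s4I_ne_zero (r v : ℕ) (V : ℤ[X]) (hv : V.natDegree ≤ v)
    (hV : ¬ ∃ (c : ℚ) (W : ℚ[X]), V.map (Int.castRingHom ℚ) = C c * W ^ r) : s4I r v V ≠ 0 := by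
  intro h0
  have h1 := s4I_map (Int.castRingHom ℚ) r v V
  rw [h0, map_zero] at h1
  obtain ⟨w, hw0, hw⟩ := Matrix.exists_mulVec_eq_zero_iff.mpr h1.symm
  have h2 : w ∈ LinearMap.ker ((s4M r v (V.map (Int.castRingHom ℚ))).transpose *
      s4M r v (V.map (Int.castRingHom ℚ))).mulVecLin := by
    rw [LinearMap.mem_ker, Matrix.mulVecLin_apply]; exact hw
  rw [Matrix.ker_mulVecLin_transpose_mul_self, LinearMap.mem_ker, Matrix.mulVecLin_apply] at h2
  have hv' : (V.map (Int.castRingHom ℚ)).natDegree ≤ v := (natDegree_map_le).trans hv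
  have h3 := s4_ker r v _ hv' w h2
  have h4 : s4P v w ≠ 0 := by
    intro h5
    apply hw0
    ext j
    rw [← s4P_coeff v w j, h5]
    simp
  apply hV
  obtain ⟨c, hc⟩ := eq_const_mul_pow r (V.map (Int.castRingHom ℚ)) (s4P v w) h4 (by
    unfold s4L at h3
    linear_combination h3)
  exact ⟨c, _, hc⟩

lemma s4I_dvd (r v : ℕ) (hr : 2 ≤ r) (V : ℤ[X]) (hv : V.natDegree ≤ v) (l : ℕ) (hl : l.Prime)
    (h : ∃ (c : ZMod l) (W : (ZMod l)[X]), V.map (Int.castRingHom (ZMod l)) = C c * W ^ r) :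
    (l : ℤ) ∣ s4I r v V := by
  haveI := Fact.mk hl
  obtain ⟨c, W, hcW⟩ := h
  have hv' : (V.map (Int.castRingHom (ZMod l))).natDegree ≤ v := (natDegree_map_le).trans hv
  -- a polynomial in the kernel
  obtain ⟨W', hW'0, hW'd, hW'k⟩ : ∃ W' : (ZMod l)[X], W' ≠ 0 ∧ W'.natDegree ≤ v ∧
      s4L r (V.map (Int.castRingHom (ZMod l))) W' = 0 := by
    by_cases h0 : V.map (Int.castRingHom (ZMod l)) = 0
    · refine ⟨1, one_ne_zero, by simp, ?_⟩
      rw [h0]
      unfold s4L
      simp
    · have hc0 : c ≠ 0 := by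
        rintro rfl
        apply h0
        rw [hcW]; simp
      have hW0 : W ≠ 0 := by
        rintro rfl
        apply h0
        rw [hcW, zero_pow (by omega)]; simp
      refine ⟨W, hW0, ?_, ?_⟩
      · have h1 : (V.map (Int.castRingHom (ZMod l))).natDegree = r * W.natDegree := by
          rw [hcW, natDegree_C_mul hc0, natDegree_pow]
        have h2 : W.natDegree ≤ r * W.natDegree := Nat.le_mul_of_pos_left _ (by omega)
        omega
      · rw [hcW]
        unfold s4L
        obtain ⟨k, rfl⟩ : ∃ k, r = k + 1 := ⟨r - 1, by omega⟩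
        rw [derivative_C_mul, derivative_pow]
        simp only [Nat.add_sub_cancel]
        have : (C ((k + 1 : ℕ) : ZMod l) : (ZMod l)[X]) = ((k + 1 : ℕ) : (ZMod l)[X]) := by simp
        rw [this]
        ring
  have hker : (s4M r v (V.map (Int.castRingHom (ZMod l)))).mulVec (fun j => W'.coeff j) = 0 := by
    ext i
    rw [s4M_mulVec, s4P_of_poly v W' hW'd, hW'k]
    simp
  have hw0 : (fun j : Fin (v + 1) => W'.coeff j) ≠ 0 := by
    intro h1
    apply hW'0
    rw [← s4P_of_poly v W' hW'd, h1]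
    unfold s4P
    simp
  have hdet : ((s4M r v (V.map (Int.castRingHom (ZMod l)))).transpose *
      s4M r v (V.map (Int.castRingHom (ZMod l)))).det = 0 := by
    apply Matrix.exists_mulVec_eq_zero_iff.mp
    refine ⟨_, hw0, ?_⟩
    rw [← Matrix.mulVec_mulVec, hker, Matrix.mulVec_zero]
  have h1 := s4I_map (Int.castRingHom (ZMod l)) r v V
  rw [hdet] at h1
  rw [← ZMod.intCast_zmod_eq_zero_iff_dvd]
  simpa using h1

lemma s4M_le (r v : ℕ) (hr : 2 ≤ r) (V : ℤ[X]) (hv : V.natDegree ≤ v) (H : ℝ) (hH : 1 ≤ H)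
    (hVH : ∀ i, |(V.coeff i : ℝ)| ≤ H) (i : Fin (2 * v + 1)) (j : Fin (v + 1)) :
    |((s4M r v V i j : ℤ) : ℝ)| ≤ 2 * (r * (v + 1)) * H := by
  unfold s4M s4L
  have hr1 : (2 : ℝ) ≤ r := by exact_mod_cast hr
  have hj : ((j : ℕ) : ℝ) ≤ v + 1 := by
    have := j.2
    have : (j : ℕ) ≤ v + 1 := by omega
    exact_mod_cast this
  have hA : |((((r : ℤ[X]) * V * derivative (X ^ (j : ℕ))).coeff i : ℤ) : ℝ)| ≤
      r * (v + 1) * H := by
    have e1 : (r : ℤ[X]) * V * derivative (X ^ (j : ℕ)) =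
        C ((r : ℤ) * (j : ℕ)) * (V * X ^ ((j : ℕ) - 1)) := by
      rw [derivative_X_pow]
      simp only [map_mul, map_natCast]
      ring
    rw [e1, coeff_C_mul, coeff_mul_X_pow']
    split_ifs
    · push_cast
      rw [abs_mul]
      have e2 : |(r : ℝ) * ((j : ℕ) : ℝ)| ≤ r * (v + 1) := by
        rw [abs_of_nonneg (by positivity)]
        gcongr
      exact mul_le_mul e2 (hVH _) (abs_nonneg _) (by positivity)
    · simp; positivity
  have hB : |(((derivative V * X ^ (j : ℕ)).coeff i : ℤ) : ℝ)| ≤ (v + 1) * H := by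
    rw [coeff_mul_X_pow']
    split_ifs
    · rw [coeff_derivative]
      by_cases hk : (i : ℕ) - j + 1 ≤ v
      · push_cast
        rw [abs_mul, mul_comm]
        have e2 : |(((i : ℕ) - (j : ℕ) : ℕ) : ℝ) + 1| ≤ v + 1 := by
          rw [abs_of_nonneg (by positivity)]
          have : (i : ℕ) - j + 1 ≤ v + 1 := by omega
          exact_mod_cast this
        exact mul_le_mul e2 (hVH _) (abs_nonneg _) (by positivity)
      · rw [coeff_eq_zero_of_natDegree_lt (by omega)]
        simp; positivity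
    · simp; positivity
  rw [coeff_sub]
  push_cast
  refine (abs_sub _ _).trans ?_
  have hv0 : (0 : ℝ) ≤ (v + 1) * H := by positivity
  nlinarith

lemma s4I_le (r v : ℕ) (hr : 2 ≤ r) (V : ℤ[X]) (hv : V.natDegree ≤ v) (H : ℝ) (hH : 1 ≤ H)
    (hVH : ∀ i, |(V.coeff i : ℝ)| ≤ H) :
    |(s4I r v V : ℝ)| ≤ (100 * ((r : ℝ) * (v + 1)) ^ 5 * H ^ 2) ^ (v + 1) := by
  obtain ⟨R, hR⟩ : ∃ R : ℝ, R = (r : ℝ) * (v + 1) := ⟨_, rfl⟩
  have hv1 : (1 : ℝ) ≤ (v : ℝ) + 1 := by
    have : (0 : ℝ) ≤ v := by positivity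
    linarith
  have hr1 : (2 : ℝ) ≤ r := by exact_mod_cast hr
  have hR1 : 1 ≤ R := by rw [hR]; nlinarith
  have hRv : (v : ℝ) + 1 ≤ R := by rw [hR]; nlinarith
  have h1 := s4I_map (Int.castRingHom ℝ) r v V
  have h2 : (s4I r v V : ℝ) = ((s4M r v (V.map (Int.castRingHom ℝ))).transpose *
      s4M r v (V.map (Int.castRingHom ℝ))).det := by rw [← h1]; simp
  rw [h2]
  have hM : ∀ i j, |s4M r v (V.map (Int.castRingHom ℝ)) i j| ≤ 2 * R * H := by
    intro i j
    rw [s4M_map, Matrix.map_apply]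
    have := s4M_le r v hr V hv H hH hVH i j
    rw [hR]
    simpa using this
  have hG : ∀ i j, (AbsoluteValue.abs : AbsoluteValue ℝ ℝ)
      (((s4M r v (V.map (Int.castRingHom ℝ))).transpose *
      s4M r v (V.map (Int.castRingHom ℝ))) i j) ≤ 8 * R ^ 3 * H ^ 2 := by
    intro i j
    rw [AbsoluteValue.abs_apply, Matrix.mul_apply]
    refine (Finset.abs_sum_le_sum_abs _ _).trans ?_
    calc _ ≤ ∑ _k : Fin (2 * v + 1), (2 * R * H) * (2 * R * H) := by
          refine Finset.sum_le_sum ?_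
          intro k _
          rw [abs_mul, Matrix.transpose_apply]
          exact mul_le_mul (hM k i) (hM k j) (abs_nonneg _) (by positivity)
      _ = (2 * v + 1) * (4 * R ^ 2 * H ^ 2) := by
          rw [Finset.sum_const, Finset.card_univ, Fintype.card_fin, nsmul_eq_mul]
          push_cast
          ring
      _ ≤ (2 * R) * (4 * R ^ 2 * H ^ 2) := by
          apply mul_le_mul_of_nonneg_right _ (by positivity)
          linarith
      _ = _ := by ring
  have h3 := Matrix.det_le hG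
  rw [AbsoluteValue.abs_apply, Fintype.card_fin, nsmul_eq_mul] at h3
  refine h3.trans ?_
  have h4 : (((v + 1).factorial : ℕ) : ℝ) ≤ R ^ (v + 1) := by
    calc (((v + 1).factorial : ℕ) : ℝ) ≤ (((v + 1) ^ (v + 1) : ℕ) : ℝ) := by
          exact_mod_cast Nat.factorial_le_pow _
      _ = ((v : ℝ) + 1) ^ (v + 1) := by push_cast; ring
      _ ≤ R ^ (v + 1) := pow_le_pow_left₀ (by positivity) hRv _
  calc _ ≤ R ^ (v + 1) * (8 * R ^ 3 * H ^ 2) ^ (v + 1) := by gcongr
    _ = (8 * R ^ 4 * H ^ 2) ^ (v + 1) := by rw [← mul_pow]; ring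
    _ ≤ (100 * R ^ 5 * H ^ 2) ^ (v + 1) := by
        apply pow_le_pow_left₀ (by positivity)
        have : R ^ 4 ≤ R ^ 5 := pow_le_pow_right₀ hR1 (by norm_num)
        have hH2 : 0 ≤ H ^ 2 := by positivity
        have hR4 : 0 ≤ R ^ 4 := by positivity
        apply mul_le_mul_of_nonneg_right _ hH2
        linarith
    _ = _ := by rw [hR]

/-- The bad primes divide a bounded integer (a Gram determinant). -/
theorem bad_primes (r v : ℕ) (hr : 2 ≤ r) (V : ℤ[X]) (hv : V.natDegree ≤ v) (H : ℝ) (hH : 1 ≤ H)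
    (hVH : ∀ i, |(V.coeff i : ℝ)| ≤ H)
    (hV : ¬ ∃ (c : ℚ) (W : ℚ[X]), V.map (Int.castRingHom ℚ) = C c * W ^ r) :
    ∃ I : ℤ, I ≠ 0 ∧ |(I : ℝ)| ≤ (100 * ((r : ℝ) * (v + 1)) ^ 5 * H ^ 2) ^ (v + 1) ∧
      ∀ ℓ : ℕ, ℓ.Prime → ¬ (ℓ : ℤ) ∣ I →
        ¬ ∃ (c : ZMod ℓ) (W : (ZMod ℓ)[X]), V.map (Int.castRingHom (ZMod ℓ)) = C c * W ^ r :=
  ⟨s4I r v V, s4I_ne_zero r v V hv hV, s4I_le r v hr V hv H hH hVH,
    fun l hl hnd h => hnd (s4I_dvd r v hr V hv l hl h)⟩

end LibHU
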