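import Pool.Agent.LibHU21.S1

/-! Residue classes of the solutions of `V(s) = g^r`. -/

set_option autoImplicit false

open Polynomial

namespace LibHU

theorem residues (r ℓ : ℕ) (hr : r = 3 ∨ r = 4) (hℓ : ℓ.Prime) (hmod : ℓ % r = 1) (V : ℤ[X])
    (v : ℕ) (hv : V.natDegree ≤ v) (hbig : 25000 * (v + 1) ^ 3 ≤ ℓ)
    (hV : ¬ ∃ (c : ZMod ℓ) (W : (ZMod ℓ)[X]), V.map (Int.castRingHom (ZMod ℓ)) = C c * W ^ r)
    (S : Finset ℤ) (hS : ∀ s ∈ S, ∃ g : ℤ, V.eval s = g ^ r) :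
    ((S.image (fun s : ℤ => (s : ZMod ℓ))).card : ℝ) ≤ 0.52 * ℓ := by
  classical
  have : Fact ℓ.Prime := ⟨hℓ⟩
  have hr0 : 0 < r := by omega
  set f : (ZMod ℓ)[X] := V.map (Int.castRingHom (ZMod ℓ)) with hf
  have hfv : f.natDegree ≤ v := natDegree_map_le.trans hv
  have hrℓ : r ∣ ℓ - 1 := by
    refine ⟨ℓ / r, ?_⟩
    have := Nat.div_add_mod ℓ r
    omega
  set J : ℕ := 50 * (v + 1) + 1 with hJ
  have hst := stepanov r ℓ (by omega) hrℓ f v J hfv hV (by omega) (by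
    have h1 : J ≤ 51 * (v + 1) := by omega
    have h2 : J ^ 2 ≤ (51 * (v + 1)) ^ 2 := Nat.pow_le_pow_left h1 2
    have h3 : 2 * J ^ 2 * (v + 1) ≤ 2 * (51 * (v + 1)) ^ 2 * (v + 1) := by gcongr
    have h4 : r * (2 * J ^ 2 * (v + 1)) ≤ 4 * (2 * (51 * (v + 1)) ^ 2 * (v + 1)) :=
      Nat.mul_le_mul (by omega) h3
    have h5 : v + 1 ≤ (v + 1) ^ 3 := Nat.le_self_pow (by norm_num) _
    have h6 : 4 * (2 * (51 * (v + 1)) ^ 2 * (v + 1)) = 20808 * (v + 1) ^ 3 := by ring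
    rw [h6] at h4
    omega)
  -- the two kinds of classes
  set Z : Finset (ZMod ℓ) := Finset.univ.filter (fun x : ZMod ℓ => f.eval x = 0) with hZ
  set T : Finset (ZMod ℓ) :=
    Finset.univ.filter (fun x : ZMod ℓ => f.eval x ^ ((ℓ - 1) / r) = 1) with hT
  have hf0 : f ≠ 0 := by
    intro h0
    exact hV ⟨0, 1, by rw [h0]; simp⟩
  have hZc : Z.card ≤ v := by
    have h1 : Z ⊆ f.roots.toFinset := by
      intro x hx
      rw [Multiset.mem_toFinset, mem_roots hf0]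
      exact (Finset.mem_filter.1 hx).2
    exact (Finset.card_le_card h1).trans ((Multiset.toFinset_card_le _).trans
      ((card_roots' f).trans hfv))
  have hsub : S.image (fun s : ℤ => (s : ZMod ℓ)) ⊆ Z ∪ T := by
    intro x hx
    obtain ⟨s, hs, rfl⟩ := Finset.mem_image.1 hx
    obtain ⟨g, hg⟩ := hS s hs
    have h1 : f.eval ((s : ℤ) : ZMod ℓ) = ((g : ℤ) : ZMod ℓ) ^ r := by
      have h2 : f.eval ((Int.castRingHom (ZMod ℓ)) s) = (Int.castRingHom (ZMod ℓ)) (V.eval s) := by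
        rw [hf, eval_map, eval₂_at_apply]
      rw [hg, map_pow] at h2
      simpa using h2
    rw [Finset.mem_union]
    by_cases hg0 : ((g : ℤ) : ZMod ℓ) = 0
    · left
      rw [hZ, Finset.mem_filter]
      refine ⟨Finset.mem_univ _, ?_⟩
      rw [h1, hg0, zero_pow hr0.ne']
    · right
      rw [hT, Finset.mem_filter]
      refine ⟨Finset.mem_univ _, ?_⟩
      rw [h1, ← pow_mul, Nat.mul_div_cancel' hrℓ]
      exact ZMod.pow_card_sub_one_eq_one hg0
  have hcard : (S.image (fun s : ℤ => (s : ZMod ℓ))).card ≤ v + T.card :=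
    (Finset.card_le_card hsub).trans ((Finset.card_union_le _ _).trans (by omega))
  -- arithmetic over the reals
  have e1 : 2 * J - 1 = 100 * (v + 1) + 1 := by omega
  have e2 : J - 1 = 50 * (v + 1) := by omega
  rw [e1, e2] at hst
  have hst' : ((100 * ((v : ℝ) + 1) + 1)) * (T.card : ℝ) ≤
      (100 * ((v : ℝ) + 1) + 1) * v + (v + 1) * ℓ + (50 * (v + 1)) * ℓ := by
    exact_mod_cast hst
  have hv0 : (0 : ℝ) ≤ v := Nat.cast_nonneg _
  have hℓ0 : (0 : ℝ) ≤ ℓ := Nat.cast_nonneg _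
  have hT' : (T.card : ℝ) ≤ v + 0.51 * ℓ := by
    have h1 : (100 * ((v : ℝ) + 1) + 1) * (T.card : ℝ) ≤
        (100 * ((v : ℝ) + 1) + 1) * (v + 0.51 * ℓ) := by
      nlinarith
    exact le_of_mul_le_mul_left h1 (by positivity)
  have hbig' : 200 * (v : ℝ) ≤ ℓ := by
    have h1 : 200 * v ≤ ℓ := by
      have h5 : v + 1 ≤ (v + 1) ^ 3 := Nat.le_self_pow (by norm_num) _
      omega
    exact_mod_cast h1
  have hcard' : ((S.image (fun s : ℤ => (s : ZMod ℓ))).card : ℝ) ≤ v + T.card := by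
    exact_mod_cast hcard
  linarith

end LibHU
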