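import Pool.Agent.LibHU21.S3
import Pool.Agent.LibMaier.Mertens1

/-! The sums over primes needed for the larger sieve. -/

set_option autoImplicit false

namespace LibHU

/-- The good primes. -/
noncomputable def gp (r : ℕ) (I : ℤ) (N : ℝ) : Set ℕ :=
  {ℓ | ℓ % r = 1 ∧ N ^ (0.31 : ℝ) < (ℓ : ℝ) ∧ ¬ (ℓ : ℤ) ∣ I}

open Classical in
/-- The bound for the number of residue classes. -/
noncomputable def nu (r : ℕ) (I : ℤ) (N : ℝ) (ℓ : ℕ) : ℝ :=
  if ℓ ∈ gp r I N then 0.52 * (ℓ : ℝ) else (ℓ : ℝ)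

/-- The primes up to `N^0.8`. -/
noncomputable def PP (N : ℝ) : Finset ℕ := (Finset.Icc 1 ⌊N ^ (0.8 : ℝ)⌋₊).filter Nat.Prime

/-- the number of primes dividing `I` -/
theorem S6_card (I : ℤ) (hI : I ≠ 0) (S : Finset ℕ) (hS : ∀ p ∈ S, p.Prime ∧ (p : ℤ) ∣ I) :
    (S.card : ℝ) * Real.log 2 ≤ Real.log |(I : ℝ)| := by
  have h1 : S ⊆ I.natAbs.primeFactors := by
    intro p hp
    rw [Nat.mem_primeFactors]
    exact ⟨(hS p hp).1, Int.natCast_dvd.mp (hS p hp).2, Int.natAbs_ne_zero.mpr hI⟩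
  have h2 : 2 ^ S.card ≤ I.natAbs := by
    calc 2 ^ S.card ≤ 2 ^ I.natAbs.primeFactors.card :=
          Nat.pow_le_pow_right (by norm_num) (Finset.card_le_card h1)
      _ = ∏ _p ∈ I.natAbs.primeFactors, 2 := by rw [Finset.prod_const]
      _ ≤ ∏ p ∈ I.natAbs.primeFactors, p :=
          Finset.prod_le_prod' fun p hp => (Nat.prime_of_mem_primeFactors hp).two_le
      _ ≤ I.natAbs := Nat.le_of_dvd (Int.natAbs_pos.mpr hI) (Nat.prod_primeFactors_dvd _)
  have h3 : ((2 : ℝ) ^ S.card) ≤ |(I : ℝ)| := by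
    have h4 : ((I.natAbs : ℕ) : ℝ) = |(I : ℝ)| := by
      rw [Nat.cast_natAbs, Int.cast_abs]
    rw [← h4]
    exact_mod_cast h2
  calc (S.card : ℝ) * Real.log 2 = Real.log (2 ^ S.card) := by rw [Real.log_pow]
    _ ≤ Real.log |(I : ℝ)| := Real.log_le_log (by positivity) h3

theorem S6_mem_PP {N : ℝ} {p : ℕ} : p ∈ PP N ↔ 1 ≤ p ∧ p ≤ ⌊N ^ (0.8 : ℝ)⌋₊ ∧ p.Prime := by
  unfold PP
  rw [Finset.mem_filter, Finset.mem_Icc, and_assoc]

theorem S6_PP_eq (N : ℝ) : PP N = Pool.Agent.LibMaier.PN ⌊N ^ (0.8 : ℝ)⌋₊ := by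
  ext p
  rw [S6_mem_PP, Pool.Agent.LibMaier.mem_PN]
  constructor
  · rintro ⟨_, h2, h3⟩
    exact ⟨h2, h3⟩
  · rintro ⟨h2, h3⟩
    exact ⟨h3.one_le, h2, h3⟩

/-- large `N` -/
theorem S6_large (K : ℝ) : ∃ N0 : ℝ, 1 < N0 ∧ ∀ N : ℝ, N0 ≤ N → K ≤ Real.log N ∧
    2 * N ^ (0.21 : ℝ) * (Real.log N / N ^ (0.31 : ℝ)) ≤ 1 := by
  have h1 : Filter.Tendsto (fun N : ℝ => Real.log N) Filter.atTop Filter.atTop :=
    Real.tendsto_log_atTop
  have h2 : Filter.Tendsto (fun N : ℝ => Real.log N / N ^ (0.1 : ℝ)) Filter.atTop (nhds 0) :=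
    (isLittleO_log_rpow_atTop (by norm_num)).tendsto_div_nhds_zero
  have h3 := (h1.eventually_ge_atTop K).and ((h2.eventually_le_const
    (show (0 : ℝ) < 1 / 2 by norm_num)).and (Filter.eventually_gt_atTop 1))
  obtain ⟨N0, hN0⟩ := Filter.eventually_atTop.mp h3
  refine ⟨max N0 2, lt_of_lt_of_le (by norm_num) (le_max_right _ _), ?_⟩
  intro N hN
  obtain ⟨a1, a2, a3⟩ := hN0 N (le_trans (le_max_left _ _) hN)
  refine ⟨a1, ?_⟩
  have hNpos : 0 < N := by linarith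
  have e : 2 * N ^ (0.21 : ℝ) * (Real.log N / N ^ (0.31 : ℝ)) =
      2 * (Real.log N / N ^ (0.1 : ℝ)) := by
    have e2 : N ^ (0.31 : ℝ) = N ^ (0.21 : ℝ) * N ^ (0.1 : ℝ) := by
      rw [← Real.rpow_add hNpos]
      norm_num
    rw [e2]
    have p1 : 0 < N ^ (0.21 : ℝ) := Real.rpow_pos_of_pos hNpos _
    have p2 : 0 < N ^ (0.1 : ℝ) := Real.rpow_pos_of_pos hNpos _
    field_simp
  rw [e]
  linarith

theorem prime_sum (r : ℕ) (hr : r = 3 ∨ r = 4) : ∃ N0 : ℝ, 1 < N0 ∧ ∀ N : ℝ, N0 ≤ N → ∀ I : ℤ,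
    I ≠ 0 → Real.log |(I : ℝ)| ≤ N ^ (0.21 : ℝ) →
    0 < ∑ p ∈ PP N, Real.log p / nu r I N p - Real.log N ∧
    ∑ p ∈ PP N, Real.log p
      ≤ N ^ (0.81 : ℝ) * (∑ p ∈ PP N, Real.log p / nu r I N p - Real.log N) := by
  classical
  obtain ⟨K1, hK1, hM1⟩ := Pool.Agent.LibMaier.mertens_first
  have hr0 : NeZero r := ⟨by rcases hr with h | h <;> rw [h] <;> norm_num⟩
  have hr1 : 1 < r := by rcases hr with h | h <;> rw [h] <;> norm_num
  obtain ⟨K2, hM2⟩ := mertens_AP r 1 isUnit_one 0.47 (by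
    rcases hr with h | h
    · subst h
      rw [Nat.totient_prime Nat.prime_three]
      norm_num
    · subst h
      have : Nat.totient 4 = 2 := by decide
      rw [this]
      norm_num)
  obtain ⟨N0, hN0, hlarge⟩ := S6_large (1000 * (K1 + |K2| + 10))
  refine ⟨N0, hN0, ?_⟩
  intro N hN I hI hlogI
  obtain ⟨hL, hbad⟩ := hlarge N hN
  have hN1 : 1 < N := lt_of_lt_of_le hN0 hN
  have hNpos : 0 < N := by linarith
  have hlogN : 0 < Real.log N := Real.log_pos hN1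
  set X : ℝ := N ^ (0.8 : ℝ) with hX
  have hX1 : 1 ≤ X := Real.one_le_rpow hN1.le (by norm_num)
  have hlogX : Real.log X = 0.8 * Real.log N := Real.log_rpow hNpos _
  set Y : ℝ := N ^ (0.31 : ℝ) with hY
  have hY1 : 1 ≤ Y := Real.one_le_rpow hN1.le (by norm_num)
  have hY0 : 0 < Y := by linarith
  have hlogY : Real.log Y = 0.31 * Real.log N := Real.log_rpow hNpos _
  have hYX : Y ≤ X := Real.rpow_le_rpow_of_exponent_le hN1.le (by norm_num)
  -- first Mertens sum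
  have s1 : 0.8 * Real.log N - K1 ≤ ∑ p ∈ PP N, Real.log p / p := by
    have h := (abs_le.mp (hM1 X hX1)).1
    rw [hlogX] at h
    have h2 : Pool.Agent.LibMaier.TN ⌊X⌋₊ = ∑ p ∈ PP N, Real.log p / p := by
      rw [S6_PP_eq]
      rfl
    rw [h2] at h
    linarith
  -- progression sum
  have s2 := hM2 Y X hY1 hYX
  rw [hlogX, hlogY] at s2
  set T : Finset ℕ := (Finset.Icc 1 ⌊X⌋₊).filter
    (fun p : ℕ => p.Prime ∧ (p : ZMod r) = 1 ∧ Y < (p : ℝ)) with hT
  have hTmem : ∀ p ∈ T, p ∈ PP N ∧ p % r = 1 ∧ Y < (p : ℝ) := by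
    intro p hp
    rw [hT, Finset.mem_filter, Finset.mem_Icc] at hp
    obtain ⟨⟨a1, a2⟩, a3, a4, a5⟩ := hp
    refine ⟨S6_mem_PP.mpr ⟨a1, a2, a3⟩, ?_, a5⟩
    have h := (ZMod.natCast_eq_natCast_iff' p 1 r).mp (by rw [a4, Nat.cast_one])
    rw [Nat.mod_eq_of_lt hr1] at h
    exact h
  -- the bad primes
  have hbadsum : ∑ p ∈ T.filter (fun p : ℕ => (p : ℤ) ∣ I), Real.log p / p ≤ 1 := by
    set B := T.filter (fun p : ℕ => (p : ℤ) ∣ I) with hB
    have hBm : ∀ p ∈ B, p.Prime ∧ (p : ℤ) ∣ I := by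
      intro p hp
      rw [hB, Finset.mem_filter] at hp
      exact ⟨(S6_mem_PP.mp (hTmem p hp.1).1).2.2, hp.2⟩
    have hc := S6_card I hI B hBm
    have hlog2 : (1 / 2 : ℝ) ≤ Real.log 2 := by
      have := Real.log_two_gt_d9
      linarith
    have hcard : (B.card : ℝ) ≤ 2 * N ^ (0.21 : ℝ) := by
      have h1 : (B.card : ℝ) * (1 / 2) ≤ (B.card : ℝ) * Real.log 2 := by gcongr
      linarith
    calc ∑ p ∈ B, Real.log p / p ≤ ∑ _p ∈ B, Real.log N / Y := by
          refine Finset.sum_le_sum fun p hp => ?_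
          rw [hB, Finset.mem_filter] at hp
          obtain ⟨b1, -, b3⟩ := hTmem p hp.1
          obtain ⟨c1, c2, c3⟩ := S6_mem_PP.mp b1
          have hp0 : (0 : ℝ) < p := by exact_mod_cast c1
          have hpX : (p : ℝ) ≤ X := (Nat.le_floor_iff (by linarith)).mp c2
          have hpN : (p : ℝ) ≤ N := by
            refine hpX.trans ?_
            calc X ≤ N ^ (1 : ℝ) := Real.rpow_le_rpow_of_exponent_le hN1.le (by norm_num)
              _ = N := Real.rpow_one N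
          have hlp : Real.log p ≤ Real.log N := Real.log_le_log hp0 hpN
          exact div_le_div₀ hlogN.le hlp hY0 b3.le
      _ = (B.card : ℝ) * (Real.log N / Y) := by rw [Finset.sum_const, nsmul_eq_mul]
      _ ≤ 2 * N ^ (0.21 : ℝ) * (Real.log N / Y) := by
          refine mul_le_mul_of_nonneg_right hcard ?_
          positivity
      _ ≤ 1 := hbad
  have hgood : 0.47 * (0.49 * Real.log N) - K2 - 1 ≤
      ∑ p ∈ T.filter (fun p : ℕ => ¬ (p : ℤ) ∣ I), Real.log p / p := by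
    have h := Finset.sum_filter_add_sum_filter_not T (fun p : ℕ => (p : ℤ) ∣ I)
      (fun p : ℕ => Real.log p / (p : ℝ))
    linarith
  have hterm0 : ∀ p : ℕ, 0 ≤ Real.log p / (p : ℝ) := fun p =>
    div_nonneg (Real.log_natCast_nonneg p) (Nat.cast_nonneg p)
  -- the total sum
  have htot : ∑ p ∈ PP N, Real.log p / nu r I N p = ∑ p ∈ PP N, Real.log p / p +
      ∑ p ∈ (PP N).filter (fun p => p ∈ gp r I N), (12 / 13) * (Real.log p / p) := by
    rw [Finset.sum_filter, ← Finset.sum_add_distrib]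
    refine Finset.sum_congr rfl fun p hp => ?_
    unfold nu
    by_cases h : p ∈ gp r I N
    · rw [if_pos h, if_pos h]
      have hp0 : (p : ℝ) ≠ 0 := by
        have := (S6_mem_PP.mp hp).1
        have h0 : (0 : ℝ) < p := by exact_mod_cast this
        exact h0.ne'
      field_simp
      ring
    · rw [if_neg h, if_neg h, add_zero]
  have hsub : T.filter (fun p : ℕ => ¬ (p : ℤ) ∣ I) ⊆
      (PP N).filter (fun p => p ∈ gp r I N) := by
    intro p hp
    rw [Finset.mem_filter] at hp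
    obtain ⟨b1, b2, b3⟩ := hTmem p hp.1
    rw [Finset.mem_filter]
    exact ⟨b1, b2, b3, hp.2⟩
  have hgood2 : 12 / 13 * (0.47 * (0.49 * Real.log N) - K2 - 1) ≤
      ∑ p ∈ (PP N).filter (fun p => p ∈ gp r I N), (12 / 13) * (Real.log p / p) := by
    rw [← Finset.mul_sum]
    refine mul_le_mul_of_nonneg_left (hgood.trans ?_) (by norm_num)
    exact Finset.sum_le_sum_of_subset_of_nonneg hsub fun p _ _ => hterm0 p
  have hmain : 1.4 ≤ ∑ p ∈ PP N, Real.log p / nu r I N p - Real.log N := by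
    rw [htot]
    have hK2 := le_abs_self K2
    have hK2' := abs_nonneg K2
    norm_num at s1 s2 hgood2 ⊢
    linarith
  have htheta : ∑ p ∈ PP N, Real.log p ≤ 1.4 * X := by
    have h1 : ∑ p ∈ PP N, Real.log p = Chebyshev.theta X := by
      unfold Chebyshev.theta PP
      rfl
    rw [h1]
    refine (Chebyshev.theta_le_log4_mul_x (by linarith)).trans ?_
    refine mul_le_mul_of_nonneg_right ?_ (by linarith)
    have h2 : Real.log 4 = 2 * Real.log 2 := by
      rw [show (4 : ℝ) = 2 ^ 2 by norm_num, Real.log_pow]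
      norm_num
    have := Real.log_two_lt_d9
    rw [h2]
    linarith
  refine ⟨by linarith, htheta.trans ?_⟩
  have hXX : X ≤ N ^ (0.81 : ℝ) := Real.rpow_le_rpow_of_exponent_le hN1.le (by norm_num)
  calc 1.4 * X = X * 1.4 := mul_comm _ _
    _ ≤ N ^ (0.81 : ℝ) * (∑ p ∈ PP N, Real.log p / nu r I N p - Real.log N) :=
        mul_le_mul hXX hmain (by norm_num) (by positivity)

end LibHU
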