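import Pool.Agent.LibHU21.S2
import Pool.Agent.LibHU21.S4
import Pool.Agent.LibHU21.S5
import Pool.Agent.LibHU21.S6

/-! The number of `s` in an interval for which `V(s)` is a perfect `r`-th power. -/

set_option autoImplicit false

open Polynomial

namespace LibHU

private theorem S7_large : ∃ N1 : ℝ, 1 < N1 ∧ ∀ N : ℝ, N1 ≤ N →
    5 + 5 * Real.log 8 + 0.5 * Real.log N ≤ N ^ (0.1 : ℝ) ∧
    6 * N ^ (0.2 : ℝ) ≤ N ^ (0.21 : ℝ) ∧ 200000 * N ^ (0.3 : ℝ) ≤ N ^ (0.31 : ℝ) := by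
  have h1 : ∀ᶠ N : ℝ in Filter.atTop, (200000 : ℝ) ≤ N ^ (0.01 : ℝ) :=
    (tendsto_rpow_atTop (by norm_num : (0 : ℝ) < 0.01)).eventually_ge_atTop _
  have h2 : ∀ᶠ N : ℝ in Filter.atTop, 2 * (5 + 5 * Real.log 8) ≤ N ^ (0.1 : ℝ) :=
    (tendsto_rpow_atTop (by norm_num : (0 : ℝ) < 0.1)).eventually_ge_atTop _
  have h3 : ∀ᶠ N : ℝ in Filter.atTop, Real.log N ≤ N ^ (0.1 : ℝ) := by
    have := (isLittleO_log_rpow_atTop (by norm_num : (0 : ℝ) < 0.1)).bound
      (by norm_num : (0 : ℝ) < 1)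
    filter_upwards [this, Filter.eventually_ge_atTop 1] with N hN hN1
    rw [one_mul, Real.norm_of_nonneg (Real.log_nonneg hN1),
      Real.norm_of_nonneg (Real.rpow_nonneg (by linarith) _)] at hN
    exact hN
  obtain ⟨N1, hN1⟩ := Filter.eventually_atTop.1 (h1.and (h2.and h3))
  refine ⟨max N1 2, lt_of_lt_of_le one_lt_two (le_max_right _ _), fun N hN => ?_⟩
  obtain ⟨g1, g2, g3⟩ := hN1 N ((le_max_left _ _).trans hN)
  have hN0 : 0 < N := by linarith [(le_max_right N1 2).trans hN]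
  refine ⟨by linarith, ?_, ?_⟩
  · have e : N ^ (0.21 : ℝ) = N ^ (0.2 : ℝ) * N ^ (0.01 : ℝ) := by
      rw [← Real.rpow_add hN0]; norm_num
    rw [e]
    have := Real.rpow_nonneg hN0.le 0.2
    nlinarith
  · have e : N ^ (0.31 : ℝ) = N ^ (0.3 : ℝ) * N ^ (0.01 : ℝ) := by
      rw [← Real.rpow_add hN0]; norm_num
    rw [e]
    have := Real.rpow_nonneg hN0.le 0.3
    nlinarith

theorem superelliptic (r : ℕ) (hr : r = 3 ∨ r = 4) : ∃ N0 : ℝ, 1 < N0 ∧ ∀ N : ℝ, N0 ≤ N →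
    ∀ V : ℤ[X], (V.natDegree : ℝ) ≤ N ^ (0.1 : ℝ) →
    (∀ i, |(V.coeff i : ℝ)| ≤ Real.exp (N ^ (0.1 : ℝ))) →
    (¬ ∃ (c : ℚ) (W : ℚ[X]), V.map (Int.castRingHom ℚ) = C c * W ^ r) →
    ∀ S : Finset ℤ, (∀ s ∈ S, ∀ s' ∈ S, |((s - s' : ℤ) : ℝ)| ≤ N) →
    (∀ s ∈ S, ∃ g : ℤ, V.eval s = g ^ r) → (S.card : ℝ) ≤ N ^ (0.81 : ℝ) := by
  obtain ⟨N2, hN2, hps⟩ := prime_sum r hr
  obtain ⟨N1, hN1, hlarge⟩ := S7_large
  refine ⟨max N1 N2, lt_of_lt_of_le hN1 (le_max_left _ _), fun N hN V hdeg hcoef hV S hS hpow => ?_⟩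
  obtain ⟨l1, l2, l3⟩ := hlarge N ((le_max_left _ _).trans hN)
  have hN1' : 1 < N := lt_of_lt_of_le hN1 ((le_max_left _ _).trans hN)
  have hN0 : 0 < N := by linarith
  have ht1 : 1 ≤ N ^ (0.1 : ℝ) := Real.one_le_rpow hN1'.le (by norm_num)
  set v := V.natDegree with hv
  have hr2 : 2 ≤ r := by omega
  have hr4 : (r : ℝ) ≤ 4 := by
    have : r ≤ 4 := by omega
    exact_mod_cast this
  have hr1 : (1 : ℝ) ≤ r := by
    have : 1 ≤ r := by omega
    exact_mod_cast this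
  have hv1 : (v : ℝ) + 1 ≤ 2 * N ^ (0.1 : ℝ) := by linarith
  have hv0 : (0 : ℝ) ≤ v := Nat.cast_nonneg _
  obtain ⟨I, hI0, hIle, hI⟩ := bad_primes r v hr2 V le_rfl (Real.exp (N ^ (0.1 : ℝ)))
    (Real.one_le_exp (by linarith)) hcoef hV
  have hlogI : Real.log |(I : ℝ)| ≤ N ^ (0.21 : ℝ) := by
    have hIpos : 0 < |(I : ℝ)| := abs_pos.2 (by exact_mod_cast hI0)
    have h1 := Real.log_le_log hIpos hIle
    rw [Real.log_pow] at h1
    have hrv : 0 < (r : ℝ) * (v + 1) := by positivity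
    rw [Real.log_mul (by positivity) (by positivity), Real.log_mul (by norm_num) (by positivity),
      Real.log_pow, Real.log_pow, Real.log_exp] at h1
    have h2 : Real.log 100 ≤ 5 := by
      have : (100 : ℝ) ≤ Real.exp 5 := by
        have h3 := Real.add_one_le_exp (1 : ℝ)
        have h4 : Real.exp 5 = Real.exp 1 ^ 5 := by
          rw [← Real.exp_nat_mul]; norm_num
        have h5 := Real.exp_one_gt_d9
        rw [h4]
        have h6 : (2.7 : ℝ) ≤ Real.exp 1 := by linarith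
        calc (100 : ℝ) ≤ 2.7 ^ 5 := by norm_num
          _ ≤ Real.exp 1 ^ 5 := by gcongr
      calc Real.log 100 ≤ Real.log (Real.exp 5) := Real.log_le_log (by norm_num) this
        _ = 5 := Real.log_exp 5
    have h3 : Real.log ((r : ℝ) * (v + 1)) ≤ Real.log 8 + 0.1 * Real.log N := by
      have h4 : (r : ℝ) * (v + 1) ≤ 8 * N ^ (0.1 : ℝ) := by nlinarith
      have h5 := Real.log_le_log hrv h4
      have h6 : Real.log (8 * N ^ (0.1 : ℝ)) = Real.log 8 + 0.1 * Real.log N := by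
        rw [Real.log_mul (by norm_num) (by positivity), Real.log_rpow hN0]
      rw [h6] at h5
      exact h5
    push_cast at h1
    have h4 : Real.log 100 + 5 * Real.log ((r : ℝ) * (v + 1)) + 2 * N ^ (0.1 : ℝ) ≤
        3 * N ^ (0.1 : ℝ) := by linarith
    have e : N ^ (0.2 : ℝ) = N ^ (0.1 : ℝ) * N ^ (0.1 : ℝ) := by
      rw [← Real.rpow_add hN0]; norm_num
    calc Real.log |(I : ℝ)| ≤ ((v : ℝ) + 1) *
          (Real.log 100 + 5 * Real.log ((r : ℝ) * (v + 1)) + 2 * N ^ (0.1 : ℝ)) := h1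
      _ ≤ (2 * N ^ (0.1 : ℝ)) * (3 * N ^ (0.1 : ℝ)) := by
          apply mul_le_mul hv1 h4 _ (by positivity)
          have h5 : 0 ≤ Real.log ((r : ℝ) * (v + 1)) := Real.log_nonneg (by nlinarith)
          have h6 : 0 ≤ Real.log 100 := Real.log_nonneg (by norm_num)
          positivity
      _ = 6 * N ^ (0.2 : ℝ) := by rw [e]; ring
      _ ≤ N ^ (0.21 : ℝ) := l2
  obtain ⟨hX, hY⟩ := hps N ((le_max_right _ _).trans hN) I hI0 hlogI
  have hprime : ∀ p ∈ PP N, p.Prime := fun p hp => (Finset.mem_filter.1 hp).2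
  have hsieve := larger_sieve S N hN1'.le hS (PP N) hprime (nu r I N)
    (by
      intro p hp
      have hp0 : (0 : ℝ) < p := by exact_mod_cast (hprime p hp).pos
      unfold nu
      split_ifs
      · positivity
      · exact hp0)
    (by
      intro p hp
      have hpp := hprime p hp
      unfold nu
      split_ifs with hg
      · obtain ⟨g1, g2, g3⟩ := hg
        refine residues r p hr hpp g1 V v le_rfl ?_ (hI p hpp g3) S hpow
        have h1 : (25000 * ((v : ℝ) + 1) ^ 3) ≤ p := by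
          have h2 : ((v : ℝ) + 1) ^ 3 ≤ (2 * N ^ (0.1 : ℝ)) ^ 3 := by gcongr
          have e : (2 * N ^ (0.1 : ℝ)) ^ 3 = 8 * N ^ (0.3 : ℝ) := by
            rw [mul_pow, ← Real.rpow_natCast, ← Real.rpow_natCast, ← Real.rpow_mul hN0.le]
            norm_num
          rw [e] at h2
          linarith
        exact_mod_cast h1
      · haveI : Fact p.Prime := ⟨hpp⟩
        have h1 := Finset.card_le_univ (S.image (fun s : ℤ => (s : ZMod p)))
        rw [ZMod.card] at h1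
        exact_mod_cast h1)
  have h1 : (S.card : ℝ) * (∑ p ∈ PP N, Real.log p / nu r I N p - Real.log N) ≤
      N ^ (0.81 : ℝ) * (∑ p ∈ PP N, Real.log p / nu r I N p - Real.log N) := hsieve.trans hY
  exact le_of_mul_le_mul_right h1 hX

end LibHU
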